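import Pool.Agent.K6.H49.UGS.Big

/-!
# The algorithm
-/

set_option autoImplicit false

open Finset

namespace Pool.Agent.K6.H49.UGS

open Pool.Agent.K6.H49.UGX (Edge)
open Pool.Agent.K6.H49.UGQ
open Pool.Agent.K6.H49.UGR (tup mem_tup startG startG_lt round_ok' params' pickR pickR_ok runR
  startR)

/-- The labelings found by the first part. -/
def cands (K c T0 s0 n q : ℕ) (l : List Edge) : List (List ℕ × List ℕ) :=
  (tup s0 (List.range (n * q))).flatMap fun rs => (List.range (n + T0 + 1)).map fun T =>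
    cand n q l (startG K c n q l rs T)

/-- The labelings found by the second part. -/
def secs (T1 cB e s n q : ℕ) (l : List Edge) (c : List ℕ × List ℕ) : List (List ℕ × List ℕ) :=
  (List.range 2).flatMap fun t => (List.range (n + T1 + 1)).flatMap fun a =>
    (List.range (cB * n ^ e + 1)).flatMap fun b => (tup s (List.range (n * q))).map fun rs =>
      sec n q l t c a b rs

/-- The algorithm. -/
def algS (K c T0 s0 T1 cB e s n q : ℕ) (l : List Edge) : List ℕ × List ℕ :=
  best l (cands K c T0 s0 n q l ++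
    (cands K c T0 s0 n q l).flatMap fun c0 => secs T1 cB e s n q l c0)

section

variable {n d q : ℕ} {σ : ℝ} {l : List Edge}

theorem cand_lt (h : Xq n d q σ l) (hq : 0 < q) (f : List ℕ) :
    (∀ u < n, toF (cand n q l f).1 u < q) ∧ ∀ u < n, toF (cand n q l f).2 u < q := by
  unfold cand
  rw [Function.iterate_succ_apply']
  generalize (rdL n q l)^[l.length] (f, brR n q l f) = s
  have h1 := brL_best h hq s.2
  have h2 := brR_best h hq (f := brL n q l s.2) fun u hu => (h1 u hu).1
  exact ⟨fun u hu => (h1 u hu).1, fun u hu => (h2 u hu).1⟩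

theorem cand_inv (h : Xq n d q σ l) (hq : 0 < q) {x y : ℕ → ℕ} (hx : ∀ u < n, x u < q)
    (hy : ∀ u < n, y u < q) (hσ : σ ≤ 1 / 16) {t : ℝ} (ht : t ≤ 1 / 16)
    (hV : V l x y ≤ t / 4 * (d * n)) {f : List ℕ} (hf : ∀ u < n, toF f u < q)
    (hc : ∑ u ∈ range n, df (toF f) x u ≤ t * n) : Inv n q l x y t (cand n q l f) := by
  unfold cand
  generalize l.length + 1 = k
  induction k with
  | zero => exact inv_zero h hq hy hσ ht hV hf hc
  | succ k ih =>
    rw [Function.iterate_succ_apply']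
    exact inv_step h hq hx hy hσ ht hV ih

/-- The first part. -/
theorem first (h : Xq n d q σ l) (hq : 1 ≤ q) (hσ : σ ≤ 1 / 64) {K c : ℕ}
    (hK : K = 16384) (hc : c = 40 * 2 ^ (q + 4)) {x y : ℕ → ℕ}
    (hx : ∀ u < n, x u < q) (hy : ∀ u < n, y u < q)
    (hV : 10000 * K * V l x y ≤ d * n) :
    ∃ c0 ∈ cands K c (q + 4) (1000 * q) n q l, Inv n q l x y (1 / 16) c0 ∧
      (∀ u < n, toF c0.2 u < q) ∧ V l (toF c0.1) (toF c0.2) ≤
        (1 + 96 * (V l x y / (d * n)) + 12 * σ) * V l x y := by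
  have hn : (0 : ℝ) < n := by exact_mod_cast h.npos
  have hd : (0 : ℝ) < d := by exact_mod_cast h.dpos
  have hdn : (0 : ℝ) < d * n := by positivity
  have hVn := V_nonneg l x y
  set ε : ℝ := V l x y / (d * n) with hε
  have hε0 : 0 ≤ ε := by positivity
  have hVε : V l x y ≤ ε * (d * n) := by
    rw [hε, div_mul_cancel₀ _ hdn.ne']
  have hεK : 10000 * K * ε ≤ 1 := by
    rw [hε, mul_div_assoc', div_le_one hdn]
    exact hV
  obtain ⟨r1, r4, r5, r6, r7⟩ := params' hq h.npos hK hc rfl hεK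
  have hε1 : ε ≤ 1 / 10000 := by
    rw [hK] at hεK
    push_cast at hεK
    linarith
  have hs : 0 < 1000 * q := by omega
  obtain ⟨rs, hrs1, hrs2, hround⟩ := round_ok' h hσ hx hy (by linarith) hVε r1 r4 r5
    r6 (by norm_num) hs
  have hd' : dg l = d := dg_eq h
  have hdp : 0 < dg l := by rw [hd']; exact h.dpos
  set T := Nat.size n + (q + 4) with hT
  have hD : 0 < dg l ^ (2 * (K * T)) := by positivity
  -- the start
  have hstart : ∑ u ∈ range n, df (toF (startG K c n q l rs T)) x u ≤ 1 / 16 * n := by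
    refine (hround (toF (startG K c n q l rs T)) fun u hu => ?_).trans
      (mul_le_mul_of_nonneg_right r7 hn.le)
    have h1 := pickR_ok (ext_lt h) hq hD (K * T) (c * n) rs hu
    have h2 : toF (startG K c n q l rs T) u = pickR q ((dg l ^ (2 * (K * T))) ^ (c * n)) rs
        (runR (n * q) (UGQ.ext q l) (dg l ^ (2 * (K * T))) (K * T) (c * n) rs) u := by
      unfold startG startR toF
      rw [getD_range_map, if_pos hu]
    rw [← h2] at h1
    have h3 : (((dg l ^ (2 * (K * T)) : ℕ)) : ℝ) = (d : ℝ) ^ (2 * (K * T)) := by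
      rw [hd']
      push_cast
      rfl
    rw [h3] at h1
    exact h1
  have hlt := startG_lt h hq K c rs T
  have hcand := cand_ok h hq hx hy (by linarith) (t := 1 / 16) le_rfl (by nlinarith) hlt hstart
  have hinv := cand_inv h hq hx hy (by linarith) (t := 1 / 16) le_rfl (by nlinarith) hlt hstart
  -- membership
  have hTn : T < n + (q + 4) + 1 := by
    have : n.size ≤ n := Nat.size_le.2 Nat.lt_two_pow_self
    omega
  refine ⟨cand n q l (startG K c n q l rs T), ?_, hinv, (cand_lt h hq _).2, ?_⟩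
  · unfold cands
    rw [List.mem_flatMap]
    refine ⟨rs, ?_, ?_⟩
    · rw [← hrs1]
      exact mem_tup rs fun r hr => List.mem_range.2 (hrs2 r hr)
    · rw [List.mem_map]
      exact ⟨T, List.mem_range.2 hTn, rfl⟩
  · rw [← nvL_eq h (cand_lt h hq _).1]
    exact hcand

theorem cands_nonempty (h : Xq n d q σ l) (hq : 0 < q) (K c T0 s0 : ℕ) :
    ∃ c0 ∈ cands K c T0 s0 n q l, ∀ u < n, toF c0.2 u < q := by
  refine ⟨cand n q l (startG K c n q l (List.replicate s0 0) 0), ?_, (cand_lt h hq _).2⟩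
  unfold cands
  rw [List.mem_flatMap]
  refine ⟨List.replicate s0 0, ?_, ?_⟩
  · have := mem_tup (R := List.range (n * q)) (List.replicate s0 0) fun r hr => by
      rw [List.eq_of_mem_replicate hr]
      exact List.mem_range.2 (Nat.mul_pos h.npos hq)
    rwa [List.length_replicate] at this
  · rw [List.mem_map]
    exact ⟨0, List.mem_range.2 (by omega), rfl⟩

/-- The powers. -/
theorem pw {Qm n q Q : ℕ} (hQ : Q ≤ Qm) (hn : 1 ≤ n) :
    Q ^ 2 * (n * q) ≤ 16 ^ (Nat.size n + (Qm + q)) ∧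
    Q ^ (Nat.size n + (Qm + q) + 1) ≤ Qm ^ (Qm + q + 1) * 2 ^ Qm * n ^ Qm := by
  have s1 : n ≤ 2 ^ Nat.size n := (Nat.lt_size_self n).le
  have s2 : 2 ^ Nat.size n ≤ 2 * n := by
    have h1 : 0 < Nat.size n := Nat.size_pos.2 hn
    have h2 : 2 ^ (Nat.size n - 1) ≤ n := Nat.lt_size.1 (by omega)
    have h3 : 2 ^ Nat.size n = 2 * 2 ^ (Nat.size n - 1) := by
      rw [← pow_succ']
      congr 1
      omega
    omega
  have q1 : Q ≤ 2 ^ Qm := hQ.trans Nat.lt_two_pow_self.le
  have q2 : q ≤ 2 ^ q := Nat.lt_two_pow_self.le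
  constructor
  · calc Q ^ 2 * (n * q) ≤ (2 ^ Qm) ^ 2 * (2 ^ Nat.size n * 2 ^ q) := by gcongr
      _ = 2 ^ (2 * Qm + (Nat.size n + q)) := by
          rw [← pow_mul, ← pow_add, ← pow_add]
          congr 1
          ring
      _ ≤ 2 ^ (4 * (Nat.size n + (Qm + q))) := Nat.pow_le_pow_right (by omega) (by omega)
      _ = _ := by
          rw [pow_mul]
          norm_num
  · calc Q ^ (Nat.size n + (Qm + q) + 1) = Q ^ Nat.size n * Q ^ (Qm + q + 1) := by
          rw [← pow_add]
          congr 1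
      _ ≤ (2 ^ Qm) ^ Nat.size n * Qm ^ (Qm + q + 1) := by gcongr
      _ = (2 ^ Nat.size n) ^ Qm * Qm ^ (Qm + q + 1) := by
          rw [← pow_mul, ← pow_mul, mul_comm Qm]
      _ ≤ (2 * n) ^ Qm * Qm ^ (Qm + q + 1) := by gcongr
      _ = _ := by
          rw [mul_pow]
          ring

/-- The candidates of the second part. -/
theorem sec_mem {Qm s : ℕ} (hn : 1 ≤ n) {Q : ℕ} (hQ : Q ≤ Qm) {t : ℕ} (ht : t < 2)
    {c : List ℕ × List ℕ} {rs : List ℕ} (h1 : rs.length = s) (h2 : ∀ r ∈ rs, r < n * q) :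
    sec n q l t c (Nat.size n + (Qm + q)) (Q ^ (Nat.size n + (Qm + q) + 1)) rs ∈
      secs (Qm + q) (Qm ^ (Qm + q + 1) * 2 ^ Qm) Qm s n q l c := by
  unfold secs
  have hsz : n.size ≤ n := Nat.size_le.2 Nat.lt_two_pow_self
  have hb := (pw (q := q) hQ hn).2
  simp only [List.mem_flatMap, List.mem_map, List.mem_range]
  refine ⟨t, ht, _, ?_, _, ?_, rs, ?_, rfl⟩
  · omega
  · omega
  · rw [← h1]
    exact mem_tup rs fun r hr => List.mem_range.2 (h2 r hr)

/-- The choice of the level. -/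
theorem choose_Q {σ ν : ℝ} (hσ0 : 0 ≤ σ) (hσ : σ ≤ 1 / 64) (hν0 : 0 ≤ ν) (hν : ν ≤ 1) {Qm : ℕ}
    (hQm : 0 < Qm) : ∃ Q : ℕ, 0 < Q ∧ Q ≤ Qm ∧
      16 * Q * (σ * (σ + ν)) ≤ 1 ∧ 1 / √(Q : ℝ) ≤ √(32 * (σ * (σ + ν))) + 1 / √(Qm : ℝ) := by
  rcases le_or_gt (16 * Qm * (σ * (σ + ν))) 1 with hcase | hcase
  · exact ⟨Qm, hQm, le_rfl, hcase, le_add_of_nonneg_left (Real.sqrt_nonneg _)⟩
  have hp : 0 < 16 * (σ * (σ + ν)) := by
    by_contra hcon
    push Not at hcon
    have h1 : (0 : ℝ) ≤ Qm := by positivity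
    nlinarith
  have hle : 16 * (σ * (σ + ν)) ≤ 1 := by nlinarith
  have h1 : 1 ≤ 1 / (16 * (σ * (σ + ν))) := by rwa [le_div_iff₀ hp, one_mul]
  set Q := ⌊1 / (16 * (σ * (σ + ν)))⌋₊ with hQ
  have hQ1 : 1 ≤ Q := Nat.le_floor (by exact_mod_cast h1)
  have hQ2 : (Q : ℝ) ≤ 1 / (16 * (σ * (σ + ν))) := Nat.floor_le (by linarith)
  have hQ3 : 1 / (16 * (σ * (σ + ν))) < Q + 1 := Nat.lt_floor_add_one _
  have hQ1' : (1 : ℝ) ≤ Q := by exact_mod_cast hQ1
  refine ⟨Q, hQ1, ?_, ?_, ?_⟩
  · have h2 : (Q : ℝ) ≤ Qm := by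
      refine hQ2.trans ?_
      rw [div_le_iff₀ hp]
      linarith
    exact_mod_cast h2
  · rw [le_div_iff₀ hp] at hQ2
    linarith
  · have h2 : 1 / (16 * (σ * (σ + ν))) ≤ 2 * Q := by linarith
    rw [div_le_iff₀ hp] at h2
    have hsq : 0 < √(Q : ℝ) := Real.sqrt_pos.2 (by linarith)
    have h3 : 1 / √(Q : ℝ) ≤ √(32 * (σ * (σ + ν))) := by
      refine Real.le_sqrt_of_sq_le ?_
      rw [div_pow, Real.sq_sqrt (by linarith), one_pow, div_le_iff₀ (by linarith)]
      linarith
    have h4 : 0 ≤ 1 / √(Qm : ℝ) := by positivity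
    linarith

/-- An optimal labeling. -/
theorem exists_opt (n : ℕ) (l : List Edge) (hq : 0 < q) : ∃ x y : ℕ → ℕ, (∀ u < n, x u < q) ∧
    (∀ u < n, y u < q) ∧ (∀ x' y' : ℕ → ℕ, (∀ u < n, x' u < q) → (∀ u < n, y' u < q) →
      V l x y ≤ V l x' y') := by
  classical
  have hV : ∀ x y : ℕ → ℕ, V l x y = ((l.filter fun e =>
      decide (¬ e.2.2[x e.1]? = some (y e.2.1))).length : ℝ) := by
    intro x y
    rw [filter_len]
    unfold V
    refine S_congr fun e _ => ?_
    unfold vio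
    by_cases h1 : e.2.2[x e.1]? = some (y e.2.1)
    · rw [if_pos h1, if_neg (by simpa using h1)]
    · rw [if_neg h1, if_pos (by simpa using h1)]
  let P : ℕ → Prop := fun k => ∃ x y : ℕ → ℕ, (∀ u < n, x u < q) ∧ (∀ u < n, y u < q) ∧
    V l x y = k
  have hex : ∃ k, P k := ⟨_, fun _ => 0, fun _ => 0, fun _ _ => hq, fun _ _ => hq, hV _ _⟩
  obtain ⟨x, y, h1, h2, h3⟩ := Nat.find_spec hex
  refine ⟨x, y, h1, h2, fun x' y' h4 h5 => ?_⟩
  rw [h3, hV x' y']
  exact_mod_cast Nat.find_min' hex ⟨x', y', h4, h5, hV x' y'⟩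

theorem opt_best {x y : ℕ → ℕ} (hx : ∀ u < n, x u < q)
    (hy : ∀ u < n, y u < q) (ho : ∀ x' y' : ℕ → ℕ, (∀ u < n, x' u < q) → (∀ u < n, y' u < q) →
      V l x y ≤ V l x' y') : BestL n q l x y ∧ BestR n q l x y := by
  constructor
  · intro u hu
    refine ⟨hx u hu, fun i hi => ?_⟩
    have h1 := ho (fun u' => if u' = u then i else x u') y (fun u' hu' => by
      split_ifs
      · exact hi
      · exact hx u' hu') hy
    have h2 : V l x y + S (fun e => if e.1 = u then vio (fun _ => i) y e else 0) l =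
        V l (fun u' => if u' = u then i else x u') y +
          S (fun e => if e.1 = u then vio x y e else 0) l := by
      unfold V
      rw [← S_add, ← S_add]
      refine S_congr fun e _ => ?_
      by_cases h3 : e.1 = u
      · rw [if_pos h3, if_pos h3]
        have : vio (fun u' => if u' = u then i else x u') y e = vio (fun _ => i) y e := by
          unfold vio
          beta_reduce
          rw [if_pos h3]
        rw [this]
        ring
      · rw [if_neg h3, if_neg h3]
        have : vio (fun u' => if u' = u then i else x u') y e = vio x y e := by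
          unfold vio
          beta_reduce
          rw [if_neg h3]
        rw [this]
    linarith
  · intro u hu
    refine ⟨hy u hu, fun i hi => ?_⟩
    have h1 := ho x (fun u' => if u' = u then i else y u') hx (fun u' hu' => by
      split_ifs
      · exact hi
      · exact hy u' hu')
    have h2 : V l x y + S (fun e => if e.2.1 = u then vio x (fun _ => i) e else 0) l =
        V l x (fun u' => if u' = u then i else y u') +
          S (fun e => if e.2.1 = u then vio x y e else 0) l := by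
      unfold V
      rw [← S_add, ← S_add]
      refine S_congr fun e _ => ?_
      by_cases h3 : e.2.1 = u
      · rw [if_pos h3, if_pos h3]
        have : vio x (fun u' => if u' = u then i else y u') e = vio x (fun _ => i) e := by
          unfold vio
          beta_reduce
          rw [if_pos h3]
        rw [this]
        ring
      · rw [if_neg h3, if_neg h3]
        have : vio x (fun u' => if u' = u then i else y u') e = vio x y e := by
          unfold vio
          beta_reduce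
          rw [if_neg h3]
        rw [this]
    linarith

theorem amax_lt (hq : 0 < q) (cmp : ℕ → ℕ → Bool) : amax q cmp < q := by
  unfold amax
  generalize hL : ((List.range q).filter fun i => (List.range q).all fun j => cmp j i) = L
  cases L with
  | nil => exact hq
  | cons i L =>
    simp only [List.head?_cons, Option.getD_some]
    have hi : i ∈ (List.range q).filter fun i => (List.range q).all fun j => cmp j i := by
      rw [hL]; exact List.mem_cons_self
    exact List.mem_range.1 (List.mem_filter.1 hi).1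

theorem sec_lt (h : Xq n d q σ l) (hq : 0 < q) (t : ℕ) (c : List ℕ × List ℕ)
    (hc2 : ∀ v < n, toF c.2 v < q) (a b : ℕ) (rs : List ℕ) :
    (∀ u < n, toF (sec n q l t c a b rs).1 u < q) ∧
      ∀ u < n, toF (sec n q l t c a b rs).2 u < q := by
  unfold sec
  refine ⟨fun u hu => (brL_best h hq _ u hu).1, fun v hv => ?_⟩
  unfold newR toF
  rw [getD_range_map, if_pos hv]
  split_ifs
  · exact amax_lt hq _
  · exact hc2 v hv

theorem cands_lt (h : Xq n d q σ l) (hq : 0 < q) {K c T0 s0 : ℕ} {c0 : List ℕ × List ℕ}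
    (hc : c0 ∈ cands K c T0 s0 n q l) : ∀ u < n, toF c0.2 u < q := by
  unfold cands at hc
  rw [List.mem_flatMap] at hc
  obtain ⟨rs, _, hc⟩ := hc
  rw [List.mem_map] at hc
  obtain ⟨T, _, rfl⟩ := hc
  exact (cand_lt h hq _).2

theorem cands_lt1 (h : Xq n d q σ l) (hq : 0 < q) {K c T0 s0 : ℕ} {c0 : List ℕ × List ℕ}
    (hc : c0 ∈ cands K c T0 s0 n q l) : ∀ u < n, toF c0.1 u < q := by
  unfold cands at hc
  rw [List.mem_flatMap] at hc
  obtain ⟨rs, _, hc⟩ := hc
  rw [List.mem_map] at hc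
  obtain ⟨T, _, rfl⟩ := hc
  exact (cand_lt h hq _).1

/-- **The algorithm is almost optimal on good expanders.** -/
theorem algS_le (h : Xq n d q σ l) (hq : 1 ≤ q) (hσ : σ ≤ 1 / 64) {K c Qm s : ℕ}
    (hK : K = 16384) (hc : c = 40 * 2 ^ (q + 4)) (hQm : 0 < Qm)
    (hs : Qm * (16 * Qm * q + 1) ≤ s) {δ : ℝ} (hδ : 1 / √(Qm : ℝ) ≤ δ) {x y : ℕ → ℕ}
    (hx : ∀ u < n, x u < q) (hy : ∀ u < n, y u < q) {out : List ℕ × List ℕ}
    (hout : out = algS K c (q + 4) (1000 * q) (Qm + q) (Qm ^ (Qm + q + 1) * 2 ^ Qm) Qm s n q l) :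
    (∀ u < n, toF out.1 u < q) ∧ (∀ u < n, toF out.2 u < q) ∧
    V l (toF out.1) (toF out.2) ≤
      (1 + 100000000000000000 * (√(σ * (σ + V l x y / (d * n))) +
        min δ (V l x y / (d * n)))) * V l x y := by
  have hn : (0 : ℝ) < n := by exact_mod_cast h.npos
  have hd : (0 : ℝ) < d := by exact_mod_cast h.dpos
  have hdn : (0 : ℝ) < d * n := by positivity
  have hσ0 := h.nonneg
  have hQmR : (1 : ℝ) ≤ Qm := by exact_mod_cast hQm
  have hδm0 : 0 < 1 / √(Qm : ℝ) := by
    have := Real.sqrt_pos.2 (by linarith : (0 : ℝ) < Qm)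
    positivity
  have hδm1 : 1 / √(Qm : ℝ) ≤ 1 := by
    rw [div_le_one (Real.sqrt_pos.2 (by linarith))]
    rw [Real.one_le_sqrt]
    exact hQmR
  obtain ⟨x0, y0, hx0, hy0, ho⟩ := exists_opt n l hq
  obtain ⟨bL, bR⟩ := opt_best hx0 hy0 ho
  have hle := ho x y hx hy
  have hV0 := V_nonneg l x0 y0
  -- the best candidate
  have hbest : ∀ c1 ∈ cands K c (q + 4) (1000 * q) n q l ++
      (cands K c (q + 4) (1000 * q) n q l).flatMap fun c0 =>
        secs (Qm + q) (Qm ^ (Qm + q + 1) * 2 ^ Qm) Qm s n q l c0,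
      (∀ u < n, toF c1.1 u < q) → (∀ u < n, toF out.1 u < q) ∧ (∀ u < n, toF out.2 u < q) ∧
        V l (toF out.1) (toF out.2) ≤ V l (toF c1.1) (toF c1.2) := by
    intro c1 hmem hlt1
    obtain ⟨hb1, hb2⟩ := best_le l hmem
    have hout' : out = best l (cands K c (q + 4) (1000 * q) n q l ++
        (cands K c (q + 4) (1000 * q) n q l).flatMap fun c0 =>
        secs (Qm + q) (Qm ^ (Qm + q + 1) * 2 ^ Qm) Qm s n q l c0) := hout
    rw [← hout'] at hb1 hb2
    have hl : (∀ u < n, toF out.1 u < q) ∧ ∀ u < n, toF out.2 u < q := by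
      rcases List.mem_append.1 hb1 with hb1 | hb1
      · exact ⟨cands_lt1 h hq hb1, cands_lt h hq hb1⟩
      · obtain ⟨c2, hc2, hb1⟩ := List.mem_flatMap.1 hb1
        unfold secs at hb1
        simp only [List.mem_flatMap, List.mem_map, List.mem_range] at hb1
        obtain ⟨t', _, a', _, b', _, rs', _, hb1⟩ := hb1
        have hl := sec_lt h hq t' c2 (cands_lt h hq hc2) a' b' rs'
        rw [hb1] at hl
        exact hl
    refine ⟨hl.1, hl.2, ?_⟩
    rw [← nvL_eq h hl.1, ← nvL_eq h hlt1]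
    exact_mod_cast hb2
  set W := V l x0 y0 with hW
  set ε : ℝ := W / (d * n) with hε
  have hε0 : 0 ≤ ε := by positivity
  have hWε : W = ε * (d * n) := by rw [hε, div_mul_cancel₀ _ hdn.ne']
  -- it suffices to compare with the optimal labeling
  suffices hmain : (∀ u < n, toF out.1 u < q) ∧ (∀ u < n, toF out.2 u < q) ∧
      V l (toF out.1) (toF out.2) ≤
        (1 + 100000000000000000 * (√(σ * (σ + ε)) + min δ ε)) * W by
    refine ⟨hmain.1, hmain.2.1, hmain.2.2.trans ?_⟩
    have h1 : ε ≤ V l x y / (d * n) := div_le_div_of_nonneg_right hle hdn.le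
    have h2 : √(σ * (σ + ε)) ≤ √(σ * (σ + V l x y / (d * n))) :=
      Real.sqrt_le_sqrt (mul_le_mul_of_nonneg_left (by linarith) hσ0)
    have h3 := Real.sqrt_nonneg (σ * (σ + ε))
    have h4 : min δ ε ≤ min δ (V l x y / (d * n)) := min_le_min le_rfl h1
    have h5 : 0 ≤ min δ ε := le_min (hδm0.le.trans hδ) hε0
    exact mul_le_mul (by linarith) hle hV0 (by linarith)
  have hs1 : ∀ Q : ℕ, Q ≤ Qm → Q * (16 * Q * q + 1) ≤ s := by
    intro Q hQ
    refine le_trans ?_ hs
    gcongr
  have hR0 := Real.sqrt_nonneg (σ * (σ + ε))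
  rcases le_or_gt (10000 * K * W) (d * n) with hsmall | hlarge
  · -- few violated constraints
    obtain ⟨c0, m0, inv, hc2, hV1⟩ := first h hq hσ hK hc hx0 hy0 hsmall
    rw [← hW, ← hε] at hV1
    have hε1 : ε ≤ 1 / 10000 := by
      rw [hK, hWε] at hsmall
      push_cast at hsmall
      have : (10000 * 16384 * ε) * (d * n) ≤ 1 * (d * n) := by linarith
      have := le_of_mul_le_mul_right this hdn
      linarith
    have hV2 : V l (toF c0.1) (toF c0.2) ≤ 2 * W :=
      hV1.trans (mul_le_mul_of_nonneg_right (by linarith) hV0)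
    obtain ⟨t1, t2, t3⟩ := target h hσ bL bR c0 inv.lt hc2 inv.left inv.right hV2
    rw [← hW] at t1 t2 t3
    have hν0 : (0 : ℝ) ≤ 8 * ε := by positivity
    have hν1 : 8 * ε ≤ 1 := by linarith
    have k1 : (((range n).filter fun u => amL 1 l c0 u = true).card : ℝ) ≤ 8 * ε * n := by
      have : d * (((range n).filter fun u => amL 1 l c0 u = true).card : ℝ) ≤ d * (8 * ε * n) := by
        refine t2.trans (le_of_eq ?_)
        rw [hWε]; ring
      exact le_of_mul_le_mul_left this hd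
    have k2 : (((range n).filter fun u => amR 1 l c0 u = true).card : ℝ) ≤ 8 * ε * n := by
      have : d * (((range n).filter fun u => amR 1 l c0 u = true).card : ℝ) ≤ d * (8 * ε * n) := by
        refine t3.trans (le_of_eq ?_)
        rw [hWε]; ring
      exact le_of_mul_le_mul_left this hd
    obtain ⟨Q, hQ0, hQQ, hQ1, hQ2⟩ := choose_Q hσ0 hσ hν0 hν1 hQm
    obtain ⟨rs, r1, r2, r3, r4⟩ := sec_ok h hq (by linarith) 1 c0 hc2
      (x := tgt (amL 1 l c0) x0 (toF c0.1)) (y := tgt (amR 1 l c0) y0 (toF c0.2))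
      (fun u hu => by
        unfold tgt
        split_ifs
        · exact hx0 u hu
        · exact inv.lt u hu)
      (fun u hu => by
        unfold tgt
        split_ifs
        · exact hy0 u hu
        · exact hc2 u hu)
      (fun u _ hu => by unfold tgt; rw [if_neg hu])
      (fun u _ hu => by unfold tgt; rw [if_neg hu]) hν0 hν1 k1 k2 hQ0 hQ1 (hs1 Q hQQ)
      (pw hQQ h.npos).1
    obtain ⟨b1, b2, b3⟩ := hbest _ (List.mem_append_right _
      (List.mem_flatMap.2 ⟨c0, m0, sec_mem h.npos hQQ (by norm_num) r1 r2⟩)) r3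
    obtain ⟨_, _, b4⟩ := hbest c0 (List.mem_append_left _ m0) inv.lt
    refine ⟨b1, b2, ?_⟩
    have e1 : σ ≤ √(σ * (σ + ε)) := by
      refine Real.le_sqrt_of_sq_le ?_
      nlinarith [mul_nonneg hσ0 hε0]
    have e2 : √(32 * (σ * (σ + 8 * ε))) ≤ 16 * √(σ * (σ + ε)) := by
      rw [Real.sqrt_le_left (by positivity), mul_pow, Real.sq_sqrt (by positivity)]
      nlinarith [mul_nonneg hσ0 hσ0]
    have e3 : 3 * (1 / √(Q : ℝ)) * (8 * ε) * (d * n) = 24 * (1 / √(Q : ℝ)) * W := by
      rw [hWε]; ring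
    rw [e3] at r4
    have b3' := b3.trans r4
    have b4' := b4.trans hV1
    clear b3 r4 b4 hV1
    generalize √(σ * (σ + ε)) = R at e1 e2 hR0 ⊢
    generalize 1 / √(Qm : ℝ) = δ0 at hδ hδm0 hδm1 hQ2
    generalize 1 / √(Q : ℝ) = ϑ at hQ2 b3'
    generalize V l (toF out.1) (toF out.2) = Z at b3' b4' ⊢
    have g1 : Z ≤ (1 + 388 * R + 24 * δ) * W := by
      refine b3'.trans ?_
      have e5 : 232 * σ ^ 2 ≤ 4 * R := by nlinarith
      have e6 : V l (tgt (amL 1 l c0) x0 (toF c0.1)) (tgt (amR 1 l c0) y0 (toF c0.2)) ≤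
          (1 + 4 * R) * W := t1.trans (mul_le_mul_of_nonneg_right (by linarith) hV0)
      have e4 : 24 * ϑ * W ≤ 24 * (16 * R + δ) * W :=
        mul_le_mul_of_nonneg_right (by linarith) hV0
      linarith
    have g2 : Z ≤ (1 + 96 * ε + 12 * R) * W :=
      b4'.trans (mul_le_mul_of_nonneg_right (by linarith) hV0)
    rcases le_total δ ε with hm | hm
    · rw [min_eq_left hm]
      refine g1.trans (mul_le_mul_of_nonneg_right ?_ hV0)
      linarith
    · rw [min_eq_right hm]
      refine g2.trans (mul_le_mul_of_nonneg_right ?_ hV0)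
      linarith
  · -- many violated constraints
    obtain ⟨c0, m0, hc2⟩ := cands_nonempty (σ := σ) h hq K c (q + 4) (1000 * q)
    have am : ∀ u, amL 0 l c0 u = true := fun u => by unfold amL; simp
    have am' : ∀ u, amR 0 l c0 u = true := fun u => by unfold amR; simp
    have k0 : ∀ p : ℕ → Prop, ∀ [DecidablePred p], (((range n).filter p).card : ℝ) ≤ 1 * n := by
      intro p _
      rw [one_mul]
      have := card_filter_le (range n) p
      rw [card_range] at this
      exact_mod_cast this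
    obtain ⟨Q, hQ0, hQQ, hQ1, hQ2⟩ := choose_Q hσ0 hσ (zero_le_one) le_rfl hQm
    obtain ⟨rs, r1, r2, r3, r4⟩ := sec_ok h hq (by linarith) 0 c0 hc2 hx0 hy0
      (fun u _ hu => absurd (am u) hu) (fun u _ hu => absurd (am' u) hu) zero_le_one le_rfl
      (k0 _) (k0 _) hQ0 hQ1 (hs1 Q hQQ) (pw hQQ h.npos).1
    obtain ⟨b1, b2, b3⟩ := hbest _ (List.mem_append_right _
      (List.mem_flatMap.2 ⟨c0, m0, sec_mem h.npos hQQ (by norm_num) r1 r2⟩)) r3
    refine ⟨b1, b2, b3.trans (r4.trans ?_)⟩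
    have hε1 : 1 / 163840000 ≤ ε := by
      rw [hK, hWε] at hlarge
      push_cast at hlarge
      have : 1 * (d * n) ≤ (10000 * 16384 * ε) * (d * n) := by linarith
      have := le_of_mul_le_mul_right this hdn
      linarith
    have e1 : √(32 * (σ * (σ + 1))) ≤ 8 * √σ := by
      rw [Real.sqrt_le_left (by positivity), mul_pow, Real.sq_sqrt hσ0]
      nlinarith
    have e2 : √σ * (1 / 12800) ≤ √(σ * (σ + ε)) := by
      refine Real.le_sqrt_of_sq_le ?_
      rw [mul_pow, Real.sq_sqrt hσ0]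
      have : σ * (1 / 12800) ^ 2 ≤ σ * ε := mul_le_mul_of_nonneg_left (by norm_num; linarith) hσ0
      nlinarith
    have e3 : 3 * (1 / √(Q : ℝ)) * 1 * (d * n) ≤ (24 * √σ + 3 * (1 / √(Qm : ℝ))) * (d * n) :=
      mul_le_mul_of_nonneg_right (by linarith) hdn.le
    have hsq := Real.sqrt_nonneg σ
    generalize √(σ * (σ + ε)) = R at e2 hR0 ⊢
    generalize 1 / √(Qm : ℝ) = δ0 at hδ hδm0 hδm1 e3
    have e4 : √σ * (1 / 12800) * (1 / 163840000 * (d * n)) ≤ R * W := by
      rw [hWε]
      refine mul_le_mul e2 (mul_le_mul_of_nonneg_right hε1 hdn.le) (by positivity) hR0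
    have e6 : δ0 * (1 / 163840000 * (1 / 163840000 * (d * n))) ≤ min δ ε * W := by
      rw [hWε]
      have f1 : δ0 * (1 / 163840000) ≤ min δ ε := by
        refine le_min ?_ ?_
        · linarith
        · linarith
      have f2 : 1 / 163840000 * (d * n) ≤ ε * (d * n) := mul_le_mul_of_nonneg_right hε1 hdn.le
      calc δ0 * (1 / 163840000 * (1 / 163840000 * (d * n))) =
          (δ0 * (1 / 163840000)) * (1 / 163840000 * (d * n)) := by ring
        _ ≤ _ := mul_le_mul f1 f2 (by positivity) (le_trans (by positivity) f1)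
    have e5 : 0 ≤ √σ * (d * n) := by positivity
    have e7 : 0 ≤ δ0 * (d * n) := by positivity
    nlinarith

end

end Pool.Agent.K6.H49.UGS
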