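import Pool.Agent.K6.H49.UGS.Alg
import Pool.Agent.K6.H49.UGR.AlgP

/-!
# The algorithm runs in polynomial time
-/

set_option autoImplicit false

namespace Pool.Agent.K6.H49.UGS

open Pool.Agent.NPC
open Pool.Agent.K6.H49.UGX (Edge iterU)
open Pool.Agent.K6.H49.UGQ
open Pool.Agent.K6.H49.UGR (cnt cnL runR tup startG tr poly_cnt poly_cnL poly_tup poly_startG
  sm_startR)

theorem runZ_bd (N : ℕ) (E : List (ℕ × ℕ)) {L D a : ℕ} (hE : E.length ≤ L)
    (hD : D ≤ L ^ (2 * a)) {y : List (ℕ × ℕ)} {M : ℕ} (h : ∀ z ∈ y, z.1 ≤ M ∧ z.2 ≤ M) (b : ℕ) :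
    ((flt N E D a)^[b] y).length ≤ N + y.length ∧ ∀ w ∈ (flt N E D a)^[b] y,
      w.1 ≤ (2 * L ^ (2 * a)) ^ b * M ∧ w.2 ≤ (2 * L ^ (2 * a)) ^ b * M := by
  induction b with
  | zero =>
    refine ⟨Nat.le_add_left _ _, fun z hz => ?_⟩
    simpa using h z hz
  | succ b ih =>
    rw [Function.iterate_succ_apply']
    obtain ⟨_, h2⟩ := ih
    generalize (flt N E D a)^[b] y = y' at h2
    unfold flt
    obtain ⟨_, h4⟩ := iter_bd N E h2 a
    obtain ⟨h5, h6⟩ := step_bd N D h2 h4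
    refine ⟨by omega, fun w hw => ?_⟩
    have h7 := h6 w hw
    have h8 : D * ((2 * L ^ (2 * a)) ^ b * M) + E.length ^ (2 * a) *
        ((2 * L ^ (2 * a)) ^ b * M) ≤ (2 * L ^ (2 * a)) ^ (b + 1) * M := by
      rw [pow_succ]
      calc _ ≤ L ^ (2 * a) * ((2 * L ^ (2 * a)) ^ b * M) + L ^ (2 * a) *
          ((2 * L ^ (2 * a)) ^ b * M) := by gcongr
        _ = _ := by ring
    exact ⟨h7.1.trans h8, h7.2.trans h8⟩

theorem runZ_sz (N : ℕ) (E : List (ℕ × ℕ)) {L D a : ℕ} (hE : E.length ≤ L)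
    (hD : D ≤ L ^ (2 * a)) (y : List (ℕ × ℕ)) (b : ℕ) : sz ((flt N E D a)^[b] y) ≤
      (N + sz y) * (8 * ((L * (2 * a) + 2) * b + 1 + sz y) + 4) + 1 := by
  obtain ⟨h1, h2⟩ := runZ_bd N E hE hD (M := 2 ^ sz y) (fun z hz => mem_lt hz) b
  generalize (flt N E D a)^[b] y = w at h1 h2
  have h3 := lst_sz (m := (L * (2 * a) + 2) * b + 1 + sz y) (rfl : w.length = w.length)
    fun z hz => by
    obtain ⟨a1, a2⟩ := h2 z hz
    have h4 : (2 * L ^ (2 * a)) ^ b * 2 ^ sz y <
        2 ^ ((L * (2 * a) + 2) * b + 1 + sz y) := by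
      rw [pow_add]
      refine Nat.mul_lt_mul_of_pos_right ?_ (by positivity)
      have h5 : 2 * L ^ (2 * a) ≤ 2 ^ (L * (2 * a) + 2) := by
        have := pow_lt_two L (2 * a)
        have h6 : 2 ^ (L * (2 * a) + 2) = 2 * 2 ^ (L * (2 * a) + 1) := by ring
        omega
      calc (2 * L ^ (2 * a)) ^ b ≤ (2 ^ (L * (2 * a) + 2)) ^ b :=
            Nat.pow_le_pow_left h5 _
        _ = 2 ^ ((L * (2 * a) + 2) * b) := by rw [pow_mul]
        _ < _ := Nat.pow_lt_pow_right (by omega) (by omega)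
    exact ⟨a1.trans_lt h4, a2.trans_lt h4⟩
  have h5 := length_lt_sz y
  refine h3.trans ?_
  have h6 : w.length ≤ N + sz y := by omega
  exact Nat.add_le_add_right (Nat.mul_le_mul_right _ h6) 1

section Pol

variable {α : Type} [TEnc α]

theorem poly_runZ {N D m b L : α → ℕ} {E y : α → List (ℕ × ℕ)} (hN : UPoly N) (hE : Poly E)
    (hD : Poly D) (hm : UPoly m) (hb : UPoly b) (hy : Poly y) (hL : UPoly L)
    (hEL : ∀ a, (E a).length ≤ L a) (hDE : ∀ a, D a ≤ L a ^ (2 * m a)) :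
    Poly (fun a => (flt (N a) (E a) (D a) (m a))^[b a] (y a)) := by
  obtain ⟨p1, hp1⟩ := uPoly_le hN
  obtain ⟨p2, hp2⟩ := uPoly_le hL
  obtain ⟨p3, hp3⟩ := uPoly_le hm
  obtain ⟨p4, hp4⟩ := uPoly_le hb
  obtain ⟨p5, hp5⟩ := NPC.Poly.sz_le hy
  refine iterU hb hy (F := fun a w => flt (N a) (E a) (D a) (m a) w)
    (poly_flt (hN.comp (Poly.fst Poly.id)) (by fun_prop) (by fun_prop)
      (hm.comp (Poly.fst Poly.id)) (Poly.snd Poly.id))
    ((p1 + p5) * (Polynomial.C 8 * ((p2 * (Polynomial.C 2 * p3) + Polynomial.C 2) * p4 +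
      Polynomial.C 1 + p5) + Polynomial.C 4) + Polynomial.C 1) fun a k hk => ?_
  refine (runZ_sz (N a) (E a) (hEL a) (hDE a) (y a) k).trans ?_
  simp only [Polynomial.eval_mul, Polynomial.eval_add, Polynomial.eval_C]
  have h1 := hp1 a
  have h2 := hp2 a
  have h3 := hp3 a
  have h4 := hk.trans (hp4 a)
  have h5 := hp5 a
  gcongr

theorem poly_amL {t u : α → ℕ} {l : α → List Edge} {c : α → List ℕ × List ℕ} (ht : Poly t)
    (hl : Poly l) (hc : Poly c) (hu : Poly u) :
    Poly (fun a => amL (t a) (l a) (c a) (u a)) := by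
  unfold amL
  have h1 : Poly (fun a => (c a).1.getD (u a) 0) :=
    NPC.Poly.getD (Poly.fst hc) hu (NPC.Poly.const 0)
  have h2 : Poly (fun a => cL (l a) (c a).2 (u a) ((c a).1.getD (u a) 0)) :=
    poly_cL hl (Poly.snd hc) hu h1
  have h3 : Poly (fun a => dg (l a)) := poly_dg hl
  exact Poly.decide_le (by fun_prop) (by fun_prop)

theorem poly_amR {t u : α → ℕ} {l : α → List Edge} {c : α → List ℕ × List ℕ} (ht : Poly t)
    (hl : Poly l) (hc : Poly c) (hu : Poly u) :
    Poly (fun a => amR (t a) (l a) (c a) (u a)) := by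
  unfold amR
  have h1 : Poly (fun a => (c a).2.getD (u a) 0) :=
    NPC.Poly.getD (Poly.snd hc) hu (NPC.Poly.const 0)
  have h2 : Poly (fun a => cR (l a) (c a).1 (u a) ((c a).2.getD (u a) 0)) :=
    poly_cR hl (Poly.fst hc) hu h1
  have h3 : Poly (fun a => dg (l a)) := poly_dg hl
  exact Poly.decide_le (by fun_prop) (by fun_prop)

theorem poly_lam {t : α → ℕ} {l : α → List Edge} {c : α → List ℕ × List ℕ} (ht : Poly t)
    (hl : Poly l) (hc : Poly c) : Poly (fun a => lam (t a) (l a) (c a)) := by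
  unfold lam lf
  refine Poly.filter (p := fun a (e : Edge) => amL (t a) (l a) (c a) e.1 &&
    amR (t a) (l a) (c a) e.2.1) hl ?_
  exact Poly.and (poly_amL (by fun_prop) (by fun_prop) (by fun_prop) (by fun_prop))
    (poly_amR (by fun_prop) (by fun_prop) (by fun_prop) (by fun_prop))

theorem poly_kap {n t : α → ℕ} {l : α → List Edge} {c : α → List ℕ × List ℕ} (hn : UPoly n)
    (ht : Poly t) (hl : Poly l) (hc : Poly c) :
    Poly (fun a => kap (n a) (t a) (l a) (c a)) := by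
  unfold kap
  exact Poly.length (Poly.filter (p := fun a u => amL (t a) (l a) (c a) u) hn.range
    (poly_amL (by fun_prop) (by fun_prop) (by fun_prop) (by fun_prop)))

theorem poly_cO {t v i : α → ℕ} {l : α → List Edge} {c : α → List ℕ × List ℕ}
    (ht : Poly t) (hl : Poly l) (hc : Poly c) (hv : Poly v) (hi : Poly i) :
    Poly (fun a => cO (t a) (l a) (c a) (v a) (i a)) := by
  unfold cO
  refine Poly.length (Poly.filter (p := fun a (e : Edge) => decide (e.2.1 = v a) &&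
    (!amL (t a) (l a) (c a) e.1 && sb ((c a).1.getD e.1 0) (i a) e)) hl ?_)
  refine Poly.and (by fun_prop) (Poly.and (Poly.not ?_) ?_)
  · exact poly_amL (by fun_prop) (by fun_prop) (by fun_prop) (by fun_prop)
  · refine poly_sb ?_ (by fun_prop) (Poly.snd Poly.id)
    exact NPC.Poly.getD (by fun_prop) (by fun_prop) (NPC.Poly.const 0)

theorem poly_zL {N Db : α → ℕ} {rs : α → List ℕ} {w : α → List (ℕ × ℕ)} (hN : UPoly N)
    (hDb : Poly Db) (hrs : Poly rs) (hw : Poly w) :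
    Poly (fun a => zL (N a) (Db a) (rs a) (w a)) := by
  unfold zL
  refine NPC.Poly.map (F := fun a r => (Db a * cnt (rs a) r + ((w a).getD r (0, 0)).2,
    ((w a).getD r (0, 0)).1)) hN.range ?_
  have h1 : Poly (fun p : α × ℕ => cnt (rs p.1) p.2) := poly_cnt (by fun_prop) (by fun_prop)
  fun_prop

theorem poly_cmpS (q : ℕ) {κ sD v i j ci cj : α → ℕ} {y : α → List (ℕ × ℕ)} (hκ : Poly κ)
    (hsD : Poly sD) (hv : Poly v) (hi : Poly i) (hj : Poly j) (hci : Poly ci) (hcj : Poly cj)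
    (hy : Poly y) : Poly (fun a => decide (κ a * ((y a).getD (v a * q + i a) (0, 0)).1 +
      sD a * ci a + κ a * ((y a).getD (v a * q + j a) (0, 0)).2 ≤
      κ a * ((y a).getD (v a * q + j a) (0, 0)).1 + sD a * cj a +
        κ a * ((y a).getD (v a * q + i a) (0, 0)).2)) :=
  Poly.decide_le (by fun_prop) (by fun_prop)

theorem poly_newR (q : ℕ) {n t κ sD : α → ℕ} {l : α → List Edge} {c : α → List ℕ × List ℕ}
    {y : α → List (ℕ × ℕ)} (hn : UPoly n) (hl : Poly l) (ht : Poly t) (hc : Poly c)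
    (hκ : Poly κ) (hsD : Poly sD) (hy : Poly y) :
    Poly (fun a => newR (n a) q (l a) (t a) (c a) (κ a) (sD a) (y a)) := by
  unfold newR
  refine NPC.Poly.map (F := fun a v => if amR (t a) (l a) (c a) v = true then
    amax q (cmpS (κ a) (sD a) (cO (t a) (l a) (c a) v) (y a) v q) else (c a).2.getD v 0)
    hn.range ?_
  have h0 : Poly (fun p : α × ℕ => amR (t p.1) (l p.1) (c p.1) p.2) :=
    poly_amR (by fun_prop) (by fun_prop) (by fun_prop) (by fun_prop)
  have h1 : Poly (fun p : α × ℕ => amax q (cmpS (κ p.1) (sD p.1)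
      (cO (t p.1) (l p.1) (c p.1) p.2) (y p.1) p.2 q)) := by
    unfold amax cmpS
    refine Poly.optGetD (Poly.head? (Poly.filter (p := fun (p : α × ℕ) i =>
      (List.range q).all fun j => decide (κ p.1 * ((y p.1).getD (p.2 * q + j) (0, 0)).1 +
        sD p.1 * cO (t p.1) (l p.1) (c p.1) p.2 j +
          κ p.1 * ((y p.1).getD (p.2 * q + i) (0, 0)).2 ≤
        κ p.1 * ((y p.1).getD (p.2 * q + i) (0, 0)).1 +
          sD p.1 * cO (t p.1) (l p.1) (c p.1) p.2 i +
          κ p.1 * ((y p.1).getD (p.2 * q + j) (0, 0)).2)) (NPC.Poly.const _) ?_))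
      (NPC.Poly.const _)
    refine Poly.all (p := fun (z : (α × ℕ) × ℕ) j =>
      decide (κ z.1.1 * ((y z.1.1).getD (z.1.2 * q + j) (0, 0)).1 +
        sD z.1.1 * cO (t z.1.1) (l z.1.1) (c z.1.1) z.1.2 j +
          κ z.1.1 * ((y z.1.1).getD (z.1.2 * q + z.2) (0, 0)).2 ≤
        κ z.1.1 * ((y z.1.1).getD (z.1.2 * q + z.2) (0, 0)).1 +
          sD z.1.1 * cO (t z.1.1) (l z.1.1) (c z.1.1) z.1.2 z.2 +
          κ z.1.1 * ((y z.1.1).getD (z.1.2 * q + j) (0, 0)).2)) (NPC.Poly.const _) ?_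
    have h2 : Poly (fun z : ((α × ℕ) × ℕ) × ℕ =>
        cO (t z.1.1.1) (l z.1.1.1) (c z.1.1.1) z.1.1.2 z.2) :=
      poly_cO (by fun_prop) (by fun_prop) (by fun_prop) (by fun_prop) (by fun_prop)
    have h3 : Poly (fun z : ((α × ℕ) × ℕ) × ℕ =>
        cO (t z.1.1.1) (l z.1.1.1) (c z.1.1.1) z.1.1.2 z.1.2) :=
      poly_cO (by fun_prop) (by fun_prop) (by fun_prop) (by fun_prop) (by fun_prop)
    exact poly_cmpS q (κ := fun z : ((α × ℕ) × ℕ) × ℕ => κ z.1.1.1)
      (sD := fun z => sD z.1.1.1) (v := fun z => z.1.1.2) (i := fun z => z.2)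
      (j := fun z => z.1.2) (y := fun z => y z.1.1.1) (by fun_prop) (by fun_prop) (by fun_prop)
      (by fun_prop) (by fun_prop) h2 h3 (by fun_prop)
  exact Poly.ite (by fun_prop) h1 (NPC.Poly.getD (by fun_prop) (by fun_prop) (NPC.Poly.const 0))

theorem lam_length (t : ℕ) (l : List Edge) (c : List ℕ × List ℕ) :
    (lam t l c).length ≤ l.length := List.length_filter_le _ _

theorem poly_yL {q : ℕ} (hq : 1 ≤ q) {n t D a' b : α → ℕ} {l : α → List Edge}
    {c : α → List ℕ × List ℕ} {rs : α → List ℕ} (hn : UPoly n) (hl : Poly l) (ht : Poly t)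
    (hc : Poly c) (hD : Poly D) (ha : UPoly a') (hb : UPoly b) (hrs : Poly rs)
    (hDl : ∀ a, D a = dg (l a) ^ (2 * a' a)) :
    Poly (fun a => yL (n a) q (lam (t a) (l a) (c a)) (D a) (a' a) (b a) (rs a)) := by
  unfold yL
  have hN : UPoly (fun a => n a * q) := UPoly.mul hn (UPoly.const q)
  have hE : Poly (fun a => UGQ.ext q (lam (t a) (l a) (c a))) := poly_ext q (poly_lam ht hl hc)
  refine poly_pass hN (poly_swp hE) ?_
  refine poly_zL hN (poly_pow hD hb) hrs ?_
  unfold runR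
  refine poly_runZ hN hE hD ha hb (poly_cnL hN hrs)
    (UPoly.mul (UPoly.length hl) (UPoly.const q)) (fun a => ?_) fun a => ?_
  · rw [ext_length]
    exact Nat.mul_le_mul_right _ (lam_length _ _ _)
  · rw [hDl]
    refine Nat.pow_le_pow_left ?_ _
    exact (dg_le _).trans (Nat.le_mul_of_pos_right _ hq)

theorem poly_sec {q : ℕ} (hq : 1 ≤ q) {n t a' b : α → ℕ} {l : α → List Edge}
    {c : α → List ℕ × List ℕ} {rs : α → List ℕ} (hn : UPoly n) (hl : Poly l) (ht : Poly t)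
    (hc : Poly c) (ha : UPoly a') (hb : UPoly b) (hrs : Poly rs) :
    Poly (fun a => sec (n a) q (l a) (t a) (c a) (a' a) (b a) (rs a)) := by
  unfold sec
  have hD : Poly (fun a => dg (l a) ^ (2 * a' a)) :=
    poly_pow (poly_dg hl) (UPoly.mul (UPoly.const 2) ha)
  have hDb := poly_pow hD hb
  have hlen : Poly (fun a => (rs a).length) := Poly.length hrs
  have hy := poly_yL hq hn hl ht hc hD ha hb hrs fun _ => rfl
  have hg : Poly (fun a => newR (n a) q (l a) (t a) (c a) (kap (n a) (t a) (l a) (c a))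
      ((rs a).length * (dg (l a) ^ (2 * a' a)) ^ b a)
      (yL (n a) q (lam (t a) (l a) (c a)) (dg (l a) ^ (2 * a' a)) (a' a) (b a) (rs a))) :=
    poly_newR q hn hl ht hc (poly_kap hn ht hl hc) (by fun_prop) hy
  exact Poly.pair (poly_brL q hn hl hg) hg

end Pol

theorem poly_cands (K c T0 s0 : ℕ) {q : ℕ} (hq : 1 ≤ q) :
    Poly (fun a : Dt => cands K c T0 s0 (nn a) q a.2) := by
  have h : Poly (fun a : Dt => (tup s0 (List.range (nn a * q))).flatMap fun rs =>
      (List.range (nn a + T0 + 1)).map fun T =>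
        cand (nn a) q a.2 (startG K c (nn a) q a.2 rs (tr T0 ((a, rs), T)))) := by
    refine NPC.Poly.flatMap (F := fun (a : Dt) (rs : List ℕ) =>
      (List.range (nn a + T0 + 1)).map fun T =>
        cand (nn a) q a.2 (startG K c (nn a) q a.2 rs (tr T0 ((a, rs), T))))
      (poly_tup s0 (UPoly.mul uPoly_nn (UPoly.const q)).range) ?_
    refine NPC.Poly.map (F := fun (p : Dt × List ℕ) (T : ℕ) =>
      cand (nn p.1) q p.1.2 (startG K c (nn p.1) q p.1.2 p.2 (tr T0 (p, T)))) ?_ ?_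
    · exact (UPoly.add (UPoly.add (uPoly_nn.comp (Poly.fst Poly.id)) (UPoly.const T0))
        (UPoly.const 1)).range
    · exact poly_cand q (uPoly_nn.comp (Poly.fst (Poly.fst Poly.id))) (by fun_prop)
        (poly_startG K c T0 hq) fun p => sm_startR _ _ _ _ _
  refine h.congr fun a => ?_
  unfold cands
  congr 1
  funext rs
  refine List.map_congr_left fun T hT => ?_
  rw [List.mem_range] at hT
  have : tr T0 ((a, rs), T) = T := Nat.min_eq_left (by simp only; omega)
  rw [this]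

theorem uPoly_pow {α : Type} [TEnc α] {n : α → ℕ} (hn : UPoly n) (e : ℕ) :
    UPoly (fun a => n a ^ e) := by
  induction e with
  | zero =>
    have : (fun a : α => n a ^ 0) = fun _ => 1 := by funext a; rw [pow_zero]
    rw [this]
    exact UPoly.const 1
  | succ e ih =>
    have : (fun a : α => n a ^ (e + 1)) = fun a => n a ^ e * n a := by funext a; rw [pow_succ]
    rw [this]
    exact UPoly.mul ih hn

theorem uPoly_min {α : Type} [TEnc α] {m n : α → ℕ} (hm : Poly m) (hn : UPoly n) :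
    UPoly (fun a => min (m a) (n a)) :=
  UPoly.of_le (n := n) (Poly.min hm hn.toPoly) hn fun _ => Nat.min_le_right _ _

/-- The data of the second part. -/
abbrev Ds : Type := Dt × (List ℕ × List ℕ)

theorem poly_secs (T1 cB e s : ℕ) {q : ℕ} (hq : 1 ≤ q) :
    Poly (fun p : Ds => secs T1 cB e s (nn p.1) q p.1.2 p.2) := by
  have hB : ∀ {β : Type} [TEnc β] {f : β → Dt}, Poly f →
      UPoly (fun z => cB * nn (f z) ^ e) := fun hf =>
    UPoly.mul (UPoly.const cB) (uPoly_pow (uPoly_nn.comp hf) e)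
  have hA : ∀ {β : Type} [TEnc β] {f : β → Dt}, Poly f →
      UPoly (fun z => nn (f z) + T1) := fun hf =>
    UPoly.add (uPoly_nn.comp hf) (UPoly.const T1)
  have h : Poly (fun p : Ds => (List.range 2).flatMap fun t =>
      (List.range (nn p.1 + T1 + 1)).flatMap fun a =>
      (List.range (cB * nn p.1 ^ e + 1)).flatMap fun b =>
      (tup s (List.range (nn p.1 * q))).map fun rs =>
        sec (nn p.1) q p.1.2 t p.2 (min a (nn p.1 + T1)) (min b (cB * nn p.1 ^ e)) rs) := by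
    refine NPC.Poly.flatMap (F := fun (p : Ds) (t : ℕ) =>
      (List.range (nn p.1 + T1 + 1)).flatMap fun a =>
      (List.range (cB * nn p.1 ^ e + 1)).flatMap fun b =>
      (tup s (List.range (nn p.1 * q))).map fun rs =>
        sec (nn p.1) q p.1.2 t p.2 (min a (nn p.1 + T1)) (min b (cB * nn p.1 ^ e)) rs)
      (NPC.Poly.const _) ?_
    refine NPC.Poly.flatMap (F := fun (z : Ds × ℕ) (a : ℕ) =>
      (List.range (cB * nn z.1.1 ^ e + 1)).flatMap fun b =>
      (tup s (List.range (nn z.1.1 * q))).map fun rs =>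
        sec (nn z.1.1) q z.1.1.2 z.2 z.1.2 (min a (nn z.1.1 + T1))
          (min b (cB * nn z.1.1 ^ e)) rs) ?_ ?_
    · exact (UPoly.add (hA (Poly.fst (Poly.fst Poly.id))) (UPoly.const 1)).range
    refine NPC.Poly.flatMap (F := fun (z : (Ds × ℕ) × ℕ) (b : ℕ) =>
      (tup s (List.range (nn z.1.1.1 * q))).map fun rs =>
        sec (nn z.1.1.1) q z.1.1.1.2 z.1.2 z.1.1.2 (min z.2 (nn z.1.1.1 + T1))
          (min b (cB * nn z.1.1.1 ^ e)) rs) ?_ ?_
    · exact (UPoly.add (hB (Poly.fst (Poly.fst (Poly.fst Poly.id)))) (UPoly.const 1)).range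
    refine NPC.Poly.map (F := fun (z : ((Ds × ℕ) × ℕ) × ℕ) (rs : List ℕ) =>
        sec (nn z.1.1.1.1) q z.1.1.1.1.2 z.1.1.2 z.1.1.1.2 (min z.1.2 (nn z.1.1.1.1 + T1))
          (min z.2 (cB * nn z.1.1.1.1 ^ e)) rs) ?_ ?_
    · exact poly_tup s (UPoly.mul (uPoly_nn.comp
        (Poly.fst (Poly.fst (Poly.fst (Poly.fst Poly.id))))) (UPoly.const q)).range
    have hf : Poly (fun w : (((Ds × ℕ) × ℕ) × ℕ) × List ℕ => w.1.1.1.1.1) := by fun_prop
    exact poly_sec hq (uPoly_nn.comp hf) (by fun_prop) (by fun_prop) (by fun_prop)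
      (uPoly_min (by fun_prop) (hA hf)) (uPoly_min (by fun_prop) (hB hf)) (by fun_prop)
  refine h.congr fun p => ?_
  unfold secs
  congr 1
  funext t
  refine List.flatMap_congr fun a ha => ?_
  refine List.flatMap_congr fun b hb => ?_
  rw [List.mem_range] at ha hb
  rw [Nat.min_eq_left (by omega), Nat.min_eq_left (by omega)]

/-- The algorithm. -/
def algoS (K c T0 s0 T1 cB e s q : ℕ) (G : UGX.Game) : List ℕ × List ℕ :=
  algS K c T0 s0 T1 cB e s (nn G) q G.2

theorem poly_algoS (K c T0 s0 T1 cB e s : ℕ) {q : ℕ} (hq : 1 ≤ q) :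
    Poly (algoS K c T0 s0 T1 cB e s q) := by
  unfold algoS algS
  refine poly_best (Poly.snd Poly.id) (Poly.append (poly_cands K c T0 s0 hq) ?_)
  exact NPC.Poly.flatMap (F := fun (a : Dt) (c0 : List ℕ × List ℕ) =>
    secs T1 cB e s (nn a) q a.2 c0) (poly_cands K c T0 s0 hq) (poly_secs T1 cB e s hq)

end Pool.Agent.K6.H49.UGS
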