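import Pool.Agent.K6.H49.UGR.Tup

/-!
# The image of an indicator is the image of a short sum of filtered unit vectors
-/

set_option autoImplicit false

open Finset

namespace Pool.Agent.K6.H49.UGS

open Pool.Agent.K6.H49.UGQ
open Pool.Agent.K6.H49.UGR (zw zw_exp)

/-- A short sum of vectors with sum zero. -/
theorem exists_tuple' {N : ℕ} (U : Finset ℕ) (hU : U.Nonempty) (ξ : ℕ → Fin N → ℝ)
    (h0 : ∀ k, ∑ v ∈ U, ξ v k = 0) {H : ℝ}
    (hH : ∑ v ∈ U, ∑ k, ξ v k ^ 2 ≤ H) (s : ℕ) :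
    ∃ vs : List ℕ, vs.length = s ∧ (∀ v ∈ vs, v ∈ U) ∧
      ∑ k, ((vs.map fun v => ξ v k).sum) ^ 2 ≤ s * H / U.card := by
  have hn' : (0 : ℝ) < U.card := by exact_mod_cast hU.card_pos
  induction s with
  | zero => exact ⟨[], rfl, by simp, by simp⟩
  | succ s ih =>
    obtain ⟨vs, h1, h2, h3⟩ := ih
    obtain ⟨v, hv, hv2⟩ : ∃ v ∈ U,
        ∑ k, (ξ v k + (vs.map fun v => ξ v k).sum) ^ 2 ≤ ((s + 1 : ℕ) : ℝ) * H / U.card := by
      by_contra hc
      push Not at hc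
      have h4 : ∑ v ∈ U, ((s + 1 : ℕ) : ℝ) * H / U.card <
          ∑ v ∈ U, ∑ k, (ξ v k + (vs.map fun v => ξ v k).sum) ^ 2 :=
        sum_lt_sum_of_nonempty hU hc
      rw [sum_const, nsmul_eq_mul] at h4
      have h5 : (U.card : ℝ) * (((s + 1 : ℕ) : ℝ) * H / U.card) = ((s + 1 : ℕ) : ℝ) * H := by
        field_simp
      rw [h5] at h4
      have h6 : ∑ v ∈ U, ∑ k, (ξ v k + (vs.map fun v => ξ v k).sum) ^ 2 =
          (∑ v ∈ U, ∑ k, ξ v k ^ 2) + U.card * ∑ k, ((vs.map fun v => ξ v k).sum) ^ 2 := by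
        rw [sum_comm, sum_comm (s := U), mul_sum, ← sum_add_distrib]
        refine sum_congr rfl fun k _ => ?_
        generalize (vs.map fun v => ξ v k).sum = A
        have h7 : ∀ v, (ξ v k + A) ^ 2 = ξ v k ^ 2 + 2 * A * ξ v k + A ^ 2 := fun v => by ring
        simp only [h7]
        rw [sum_add_distrib, sum_add_distrib, ← mul_sum, h0, sum_const, nsmul_eq_mul]
        ring
      rw [h6] at h4
      have h8 : (U.card : ℝ) * ∑ k, ((vs.map fun v => ξ v k).sum) ^ 2 ≤ s * H := by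
        have := mul_le_mul_of_nonneg_left h3 hn'.le
        refine this.trans (le_of_eq ?_)
        field_simp
      push_cast at h4
      linarith
    refine ⟨v :: vs, by simp [h1], ?_, ?_⟩
    · intro v' hv'
      rcases List.mem_cons.1 hv' with rfl | h
      · exact hv
      · exact h2 v' h
    · refine le_trans (le_of_eq ?_) hv2
      exact sum_congr rfl fun k _ => by rw [List.map_cons, List.sum_cons]

section

variable {N : ℕ} {E : List (ℕ × ℕ)} {ψ : Fin N → ℕ → ℝ} {μ : Fin N → ℝ}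

theorem pars2 (hb : Bs N E ψ μ) (a c : Fin N → ℝ) :
    ∑ s ∈ range N, (∑ k, a k * ψ k s) * (∑ k, c k * ψ k s) = ∑ k, a k * c k := by
  have h1 : ∀ s, (∑ k, a k * ψ k s) * (∑ k, c k * ψ k s) =
      ∑ k, ∑ m, (a k * c m) * (ψ k s * ψ m s) := by
    intro s
    rw [sum_mul_sum]
    exact sum_congr rfl fun k _ => sum_congr rfl fun m _ => by ring
  simp only [h1]
  rw [sum_comm]
  refine sum_congr rfl fun k _ => ?_
  rw [sum_comm]
  have h2 : ∀ m, ∑ s ∈ range N, (a k * c m) * (ψ k s * ψ m s) =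
      if k = m then a k * c m else 0 := by
    intro m
    rw [← mul_sum, hb.orth]
    split_ifs <;> simp
  simp only [h2]
  rw [sum_ite_eq, if_pos (mem_univ k)]

/-- The norm of the image. -/
theorem At_norm (hE : ∀ p ∈ E, p.1 < N ∧ p.2 < N) (hb : Bs N E ψ μ) {x : ℕ → ℝ} {c : Fin N → ℝ}
    (hx : ∀ s < N, x s = ∑ k, c k * ψ k s) :
    ∑ s ∈ range N, At E x s ^ 2 = ∑ k, μ k * c k ^ 2 := by
  rw [← quad hE]
  have h1 := Mo_exp hE hb hx
  have h2 : ∑ r ∈ range N, x r * Mo E x r =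
      ∑ r ∈ range N, (∑ k, c k * ψ k r) * (∑ k, (c k * μ k) * ψ k r) := by
    refine sum_congr rfl fun r hr => ?_
    rw [mem_range] at hr
    rw [h1 r hr]
    conv_lhs => rw [hx r hr]
  rw [h2, pars2 hb]
  exact sum_congr rfl fun k _ => by ring

/-- The indicator of a set of nodes. -/
def ci (U : Finset ℕ) (r : ℕ → ℕ) (s : ℕ) : ℝ := ∑ u ∈ U, un (r u) s

theorem ci_exp (hb : Bs N E ψ μ) {U : Finset ℕ} {r : ℕ → ℕ} (hr : ∀ u ∈ U, r u < N) :
    ∀ s < N, ci U r s = ∑ k, (∑ u ∈ U, ψ k (r u)) * ψ k s := by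
  intro s hs
  unfold ci
  rw [sum_congr rfl fun u hu => un_exp hb (hr u hu) s hs, sum_comm]
  exact sum_congr rfl fun k _ => by rw [sum_mul]

theorem ci_sq (hb : Bs N E ψ μ) {U : Finset ℕ} {r : ℕ → ℕ} (hr : ∀ u ∈ U, r u < N)
    (hi : Set.InjOn r U) : ∑ k, (∑ u ∈ U, ψ k (r u)) ^ 2 = U.card := by
  have h1 : ∀ k, (∑ u ∈ U, ψ k (r u)) ^ 2 = ∑ u ∈ U, ∑ v ∈ U, ψ k (r u) * ψ k (r v) := by
    intro k
    rw [sq, sum_mul_sum]
  simp only [h1]
  rw [sum_comm]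
  have h2 : ∀ u ∈ U, ∑ k, ∑ v ∈ U, ψ k (r u) * ψ k (r v) = 1 := by
    intro u hu
    rw [sum_comm, sum_eq_single u]
    · rw [hb.comp _ (hr u hu) _ (hr u hu), if_pos rfl]
    · intro v hv hne
      rw [hb.comp _ (hr u hu) _ (hr v hv), if_neg]
      intro he
      exact hne (hi hv hu he.symm)
    · intro hh
      exact absurd hu hh
  rw [sum_congr rfl h2]
  simp

theorem ci_one (hb : Bs N E ψ μ) {U : Finset ℕ} {r : ℕ → ℕ} (hr : ∀ u ∈ U, r u < N)
    (hi : Set.InjOn r U) (k : Fin N) : ∑ u ∈ U, ψ k (r u) ^ 2 ≤ 1 := by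
  have h1 := hb.orth k k
  rw [if_pos rfl] at h1
  rw [← h1]
  have h2 : ∑ u ∈ U, ψ k (r u) ^ 2 = ∑ s ∈ U.image r, ψ k s ^ 2 :=
    (sum_image (f := fun s => ψ k s ^ 2) hi).symm
  rw [h2]
  refine (sum_le_sum_of_subset_of_nonneg (f := fun s => ψ k s ^ 2) ?_
    fun s _ _ => sq_nonneg _).trans (le_of_eq (sum_congr rfl fun s _ => sq _))
  intro s hs
  obtain ⟨u, hu, rfl⟩ := mem_image.1 hs
  exact mem_range.2 (hr u hu)

/-- **Seeds.** -/
theorem seeds (hE : ∀ p ∈ E, p.1 < N ∧ p.2 < N) (hb : Bs N E ψ μ) (hN : 0 < N) {d : ℝ}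
    (hd : 0 < d) (m0 : ∀ k, 0 ≤ μ k) (m1 : ∀ k, μ k ≤ d ^ 2) (U : Finset ℕ) (r : ℕ → ℕ)
    (hr : ∀ u ∈ U, r u < N) (hi : Set.InjOn r U) {Q : ℕ} (hQ : 0 < Q) {Kc : ℝ}
    (hK : ((univ.filter fun k => d ^ 2 ≤ 4 * Q * μ k).card : ℝ) ≤ Kc) {a s : ℕ} (hs : 0 < s)
    (ha : Q ^ 2 * N ≤ 16 ^ a) :
    ∃ rs : List ℕ, rs.length = s ∧ (∀ r' ∈ rs, r' < N) ∧
      ∑ t ∈ range N, At E (fun r' => ci U r r' - U.card / s *
        zw E (d ^ (2 * a)) a (Q ^ (a + 1)) rs r') t ^ 2 ≤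
        U.card * d ^ 2 * (2 / Q + 2 * (Kc + 1) / s) := by
  rcases U.eq_empty_or_nonempty with hU | hU
  · refine ⟨List.replicate s 0, List.length_replicate, fun r' hr' => ?_, ?_⟩
    · rw [List.eq_of_mem_replicate hr']
      exact hN
    · subst hU
      unfold ci At
      simp [S]
  have hs' : (0 : ℝ) < s := by exact_mod_cast hs
  have hκ0 : (0 : ℝ) < U.card := by exact_mod_cast hU.card_pos
  have hcard0 := ci_sq hb hr hi
  have htup := fun (ξ : ℕ → Fin N → ℝ) (h0 : ∀ k, ∑ v ∈ U, ξ v k = 0) (H : ℝ)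
    (hH : ∑ v ∈ U, ∑ k, ξ v k ^ 2 ≤ H) => exists_tuple' U hU ξ h0 hH s
  have hsc : ∀ x : ℝ, ∑ _v ∈ U, x = U.card * x := fun x => by rw [sum_const, nsmul_eq_mul]
  generalize (U.card : ℝ) = κ at hκ0 hcard0 htup hsc ⊢
  have hκ : κ ≠ 0 := hκ0.ne'
  have hQ' : (0 : ℝ) < Q := by exact_mod_cast hQ
  have hQ1 : (1 : ℝ) ≤ Q := by exact_mod_cast hQ
  set b := Q ^ (a + 1) with hbdef
  set lam : Fin N → ℝ := fun k => μ k / d ^ 2 with hlam
  have hd2 : (0 : ℝ) < d ^ 2 := by positivity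
  have l0 : ∀ k, 0 ≤ lam k := fun k => div_nonneg (m0 k) hd2.le
  have l1 : ∀ k, lam k ≤ 1 := fun k => by
    simp only [hlam]
    rw [div_le_one hd2]
    exact m1 k
  have hmu : ∀ k, μ k = d ^ 2 * lam k := fun k => by
    simp only [hlam]
    field_simp
  set p : Fin N → ℝ := fun k => 1 - (1 - lam k ^ a) ^ b with hp
  have la0 : ∀ k, 0 ≤ lam k ^ a := fun k => pow_nonneg (l0 k) a
  have la1 : ∀ k, lam k ^ a ≤ 1 := fun k => pow_le_one₀ (l0 k) (l1 k)
  have hbR : (b : ℝ) = (Q : ℝ) ^ (a + 1) := by rw [hbdef]; push_cast; ring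
  -- the first bound
  have B1 : ∀ k, μ k * (1 - p k) ^ 2 ≤ d ^ 2 * (1 / Q) := by
    intro k
    obtain ⟨q1, q2, q3, q4⟩ := filt_bounds (la0 k) (la1 k) b
    have p0 : 0 ≤ 1 - p k := by linarith
    have p1 : 1 - p k ≤ 1 := by linarith
    rcases le_or_gt (Q * lam k) 1 with hk | hk
    · have h1 : (1 - p k) ^ 2 ≤ 1 := pow_le_one₀ p0 p1
      have h2 : μ k ≤ d ^ 2 * (1 / Q) := by
        rw [hmu]
        refine mul_le_mul_of_nonneg_left ?_ hd2.le
        rw [le_div_iff₀ hQ']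
        linarith
      calc μ k * (1 - p k) ^ 2 ≤ μ k * 1 := mul_le_mul_of_nonneg_left h1 (m0 k)
        _ ≤ _ := by linarith
    · have h1 : 1 ≤ (Q * lam k) ^ a := one_le_pow₀ hk.le
      have h2 : (Q : ℝ) ≤ b * lam k ^ a := by
        rw [hbR, pow_succ]
        rw [mul_pow] at h1
        nlinarith
      have h3 : 1 - p k = (1 - lam k ^ a) ^ b := by simp only [hp]; ring
      have h4 : (1 - p k) * Q ≤ 1 := by
        refine le_trans ?_ q4
        rw [← h3]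
        exact mul_le_mul_of_nonneg_left h2 p0
      have h5 : 1 - p k ≤ 1 / Q := by rwa [le_div_iff₀ hQ']
      have h6 : (1 - p k) ^ 2 ≤ 1 / Q := by
        calc (1 - p k) ^ 2 = (1 - p k) * (1 - p k) := sq _
          _ ≤ (1 / Q) * 1 := mul_le_mul h5 p1 p0 (by positivity)
          _ = _ := mul_one _
      calc μ k * (1 - p k) ^ 2 ≤ d ^ 2 * (1 / Q) := mul_le_mul (m1 k) h6 (sq_nonneg _) hd2.le
        _ = _ := rfl
  -- the second bound
  have h16 : (N : ℝ) * ((Q : ℝ) / 4 ^ a) ^ 2 ≤ 1 := by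
    have h1 : (Q : ℝ) ^ 2 * N ≤ 16 ^ a := by exact_mod_cast ha
    have h2 : ((Q : ℝ) / 4 ^ a) ^ 2 = Q ^ 2 / 16 ^ a := by
      rw [div_pow, ← pow_mul, mul_comm a 2, pow_mul]
      norm_num
    rw [h2, mul_div_assoc', div_le_one (by positivity)]
    linarith
  have B2 : ∀ k, μ k * p k ^ 2 ≤ d ^ 2 * ((if d ^ 2 ≤ 4 * Q * μ k then 1 else 0) +
      ((Q : ℝ) / 4 ^ a) ^ 2) := by
    intro k
    obtain ⟨q1, q2, q3, q4⟩ := filt_bounds (la0 k) (la1 k) b
    have hp1 : p k ^ 2 ≤ 1 := pow_le_one₀ q1 q2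
    split_ifs with hk
    · have h1 : μ k * p k ^ 2 ≤ d ^ 2 * 1 := mul_le_mul (m1 k) hp1 (sq_nonneg _) hd2.le
      have : 0 ≤ d ^ 2 * ((Q : ℝ) / 4 ^ a) ^ 2 := by positivity
      linarith
    · push Not at hk
      have h1 : 4 * Q * lam k ≤ 1 := by
        rw [hmu] at hk
        have : d ^ 2 * (4 * Q * lam k) ≤ d ^ 2 * 1 := by linarith
        exact le_of_mul_le_mul_left this hd2
      have h2 : (4 * Q * lam k) ^ a ≤ 1 := pow_le_one₀ (by have := l0 k; positivity) h1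
      have h3 : p k ≤ Q / 4 ^ a := by
        refine q3.trans ?_
        rw [hbR, le_div_iff₀ (by positivity)]
        rw [mul_pow, mul_pow] at h2
        calc (Q : ℝ) ^ (a + 1) * lam k ^ a * 4 ^ a = Q * (4 ^ a * Q ^ a * lam k ^ a) := by ring
          _ ≤ Q * 1 := mul_le_mul_of_nonneg_left h2 hQ'.le
          _ = Q := mul_one _
      have h4 : p k ^ 2 ≤ ((Q : ℝ) / 4 ^ a) ^ 2 := pow_le_pow_left₀ q1 h3 2
      calc μ k * p k ^ 2 ≤ d ^ 2 * ((Q : ℝ) / 4 ^ a) ^ 2 :=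
            mul_le_mul (m1 k) h4 (sq_nonneg _) hd2.le
        _ = _ := by ring
  set c : Fin N → ℝ := fun k => ∑ u ∈ U, ψ k (r u) with hc
  have hcc : ∑ k, c k ^ 2 = κ := hcard0
  set R : Fin N → ℝ := fun k => ∑ u ∈ U, ψ k (r u) ^ 2 with hR
  have R1 : ∀ k, R k ≤ 1 := ci_one hb hr hi
  have R0 : ∀ k, 0 ≤ R k := fun k => sum_nonneg fun u _ => sq_nonneg _
  have f2 : ∑ k, μ k * p k ^ 2 * R k ≤ d ^ 2 * (Kc + 1) := by
    calc _ ≤ ∑ k : Fin N, d ^ 2 * ((if d ^ 2 ≤ 4 * Q * μ k then 1 else 0) +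
          ((Q : ℝ) / 4 ^ a) ^ 2) := by
          refine sum_le_sum fun k _ => ?_
          have h1 : 0 ≤ μ k * p k ^ 2 := mul_nonneg (m0 k) (sq_nonneg _)
          calc μ k * p k ^ 2 * R k ≤ μ k * p k ^ 2 * 1 := mul_le_mul_of_nonneg_left (R1 k) h1
            _ ≤ _ := by rw [mul_one]; exact B2 k
      _ = d ^ 2 * ((univ.filter fun k => d ^ 2 ≤ 4 * Q * μ k).card +
          N * ((Q : ℝ) / 4 ^ a) ^ 2) := by
          rw [← mul_sum, sum_add_distrib, ← sum_filter, sum_const, sum_const, card_univ,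
            Fintype.card_fin, nsmul_eq_mul, nsmul_eq_mul, mul_one]
      _ ≤ _ := mul_le_mul_of_nonneg_left (by linarith) hd2.le
  -- the vectors with sum zero
  set ξ : ℕ → Fin N → ℝ := fun v k => √(μ k) * (p k * (ψ k (r v) - c k / κ)) with hξ
  have x0 : ∀ k, ∑ v ∈ U, ξ v k = 0 := by
    intro k
    simp only [hξ]
    rw [← mul_sum, ← mul_sum, sum_sub_distrib, hsc]
    have : ∑ v ∈ U, ψ k (r v) = c k := rfl
    rw [this]
    have : κ * (c k / κ) = c k := by field_simp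
    rw [this]
    ring
  have x1 : ∑ v ∈ U, ∑ k, ξ v k ^ 2 ≤ d ^ 2 * (Kc + 1) := by
    rw [sum_comm]
    refine le_trans (sum_le_sum fun k _ => ?_) f2
    have e1 : ∀ v, ξ v k ^ 2 = μ k * p k ^ 2 * (ψ k (r v) ^ 2 -
        2 * (c k / κ) * ψ k (r v) + (c k / κ) ^ 2) := fun v => by
      simp only [hξ]
      have := Real.sq_sqrt (m0 k)
      calc (√(μ k) * (p k * (ψ k (r v) - c k / κ))) ^ 2 =
          √(μ k) ^ 2 * (p k ^ 2 * (ψ k (r v) - c k / κ) ^ 2) := by ring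
        _ = _ := by rw [this]; ring
    simp only [e1]
    rw [← mul_sum, sum_add_distrib, sum_sub_distrib, ← mul_sum, hsc]
    have e2 : ∑ v ∈ U, ψ k (r v) = c k := rfl
    rw [e2]
    have e5 : ∑ i ∈ U, ψ k (r i) ^ 2 = R k := rfl
    rw [e5]
    refine mul_le_mul_of_nonneg_left ?_ (mul_nonneg (m0 k) (sq_nonneg _))
    have e3 : 2 * (c k / κ) * c k = 2 * (κ * (c k / κ) ^ 2) := by
      field_simp
    have e4 : 0 ≤ κ * (c k / κ) ^ 2 := by positivity
    rw [e3]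
    linarith
  obtain ⟨vs, v1, v2, v3⟩ := htup ξ x0 _ x1
  have hrs : ∀ r' ∈ vs.map r, r' < N := by
    intro r' hr'
    obtain ⟨v, hv, rfl⟩ := List.mem_map.1 hr'
    exact hr v (v2 v hv)
  refine ⟨vs.map r, by rw [List.length_map, v1], hrs, ?_⟩
  set A : Fin N → ℝ := fun k => (vs.map fun v => ψ k (r v)).sum with hA
  have hxi : ∀ k, (vs.map fun v => ξ v k).sum =
      √(μ k) * (p k * (A k - s * (c k / κ))) := by
    intro k
    simp only [hA]
    rw [← v1]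
    clear v3 v2 v1 hA A hrs
    induction vs with
    | nil => simp
    | cons v vs ih =>
      simp only [List.map_cons, List.sum_cons, List.length_cons, ih]
      push_cast
      simp only [hξ]
      ring
  have hexp : ∀ t < N, ci U r t - κ / s * zw E (d ^ (2 * a)) a b (vs.map r) t =
      ∑ k, (c k - κ / s * (p k * A k)) * ψ k t := by
    intro t ht
    rw [ci_exp hb hr t ht, zw_exp hE hb (by positivity) a b hrs t ht, mul_sum,
      ← sum_sub_distrib]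
    refine sum_congr rfl fun k _ => ?_
    have e1 : μ k ^ a / d ^ (2 * a) = lam k ^ a := by
      simp only [hlam]
      rw [div_pow, ← pow_mul]
    rw [e1, List.map_map]
    have e2 : (List.map (fun r' => ψ k r') vs) = List.map (ψ k) vs := rfl
    have e3 : ((List.map ((fun r' => ψ k r') ∘ r) vs)).sum = A k := rfl
    rw [e3]
    simp only [hp, hc]
    ring
  rw [At_norm hE hb hexp]
  -- term by term
  have t1 : ∀ k, μ k * (c k - κ / s * (p k * A k)) ^ 2 ≤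
      2 * (d ^ 2 * (1 / Q)) * c k ^ 2 +
        2 * (κ / s) ^ 2 * ((vs.map fun v => ξ v k).sum) ^ 2 := by
    intro k
    rw [hxi]
    have e1 : (√(μ k) * (p k * (A k - s * (c k / κ)))) ^ 2 =
        μ k * (p k * (A k - s * (c k / κ))) ^ 2 := by
      rw [mul_pow, Real.sq_sqrt (m0 k)]
    rw [e1]
    have e2 : c k - κ / s * (p k * A k) = (1 - p k) * c k -
        κ / s * (p k * (A k - s * (c k / κ))) := by
      field_simp
      ring
    rw [e2]
    generalize p k * (A k - s * (c k / κ)) = Z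
    have e3 : μ k * ((1 - p k) * c k - κ / s * Z) ^ 2 ≤
        μ k * (2 * ((1 - p k) * c k) ^ 2 + 2 * (κ / s * Z) ^ 2) := by
      refine mul_le_mul_of_nonneg_left ?_ (m0 k)
      nlinarith [sq_nonneg ((1 - p k) * c k + κ / s * Z)]
    refine e3.trans ?_
    have e4 := mul_le_mul_of_nonneg_right (B1 k) (sq_nonneg (c k))
    have e5 : μ k * (2 * ((1 - p k) * c k) ^ 2 + 2 * (κ / s * Z) ^ 2) =
        2 * (μ k * (1 - p k) ^ 2 * c k ^ 2) + 2 * (κ / s) ^ 2 * (μ k * Z ^ 2) := by ring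
    rw [e5]
    linarith
  refine (sum_le_sum fun k _ => t1 k).trans ?_
  rw [sum_add_distrib, ← mul_sum, ← mul_sum, hcc]
  have t2 : 2 * (κ / s) ^ 2 * ∑ k, ((vs.map fun v => ξ v k).sum) ^ 2 ≤
      2 * (κ / s) ^ 2 * (s * (d ^ 2 * (Kc + 1)) / κ) :=
    mul_le_mul_of_nonneg_left v3 (by positivity)
  refine (add_le_add le_rfl t2).trans (le_of_eq ?_)
  field_simp

end

end Pool.Agent.K6.H49.UGS
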