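import Pool.Agent.K6.H49.UGS.Hol
import Pool.Agent.K6.H49.UGR.Dim

/-!
# The number of large singular values of a part of the label-extended graph
-/

set_option autoImplicit false

open Finset

namespace Pool.Agent.K6.H49.UGS

open Pool.Agent.K6.H49.UGX (Edge)
open Pool.Agent.K6.H49.UGQ
open Pool.Agent.K6.H49.UGR (fr Wm sum_fr fr_perm mix)

/-- The edges between two sets of vertices. -/
def lf (iL iR : ℕ → Bool) (l : List Edge) : List Edge := l.filter fun e => iL e.1 && iR e.2.1

theorem S_filter {α : Type} (F : α → ℝ) (p : α → Bool) (l : List α) :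
    S F (l.filter p) = S (fun e => if p e = true then F e else 0) l := by
  induction l with
  | nil => rfl
  | cons e l ih =>
    rw [S_cons, ← ih, List.filter_cons]
    split_ifs with h
    · rw [S_cons]
    · rw [zero_add]

theorem Sp.perm {m q : ℕ} {W : ℕ → Fin m → ℝ} {w : Fin m → Fin m → ℝ} {t : Fin m → ℝ}
    (h : Sp m q W w t) {e : Edge} (he : Tab q e.2.2) : Sp m q (fun a => W (tb e a)) w t where
  orth := h.orth
  comp := h.comp
  nn := h.nn
  gram := by
    intro k k'
    rw [← h.gram k k']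
    exact tb_sum he fun a => (∑ j, W a j * w k j) * (∑ j, W a j * w k' j)

section

variable {n d q : ℕ} {σ : ℝ} {l : List Edge}

/-- Orthonormal vectors do not lengthen. -/
theorem gram_le {m : ℕ} (ψ : Fin m → ℕ → ℝ)
    (o : ∀ j k, ∑ r ∈ range (n * q), ψ j r * ψ k r = if j = k then 1 else 0) (x : Fin m → ℝ)
    (U : Finset ℕ) (hU : U ⊆ range n) :
    ∑ u ∈ U, ∑ a ∈ range q, (∑ j, Wm q ψ u a j * x j) ^ 2 ≤ ∑ j, x j ^ 2 := by
  have h0 : ∑ u ∈ U, ∑ a ∈ range q, (∑ j, Wm q ψ u a j * x j) ^ 2 ≤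
      ∑ u ∈ range n, ∑ a ∈ range q, (∑ j, Wm q ψ u a j * x j) ^ 2 :=
    sum_le_sum_of_subset_of_nonneg hU fun u _ _ => sum_nonneg fun a _ => sq_nonneg _
  refine h0.trans (le_of_eq ?_)
  have h3 : ∑ u ∈ range n, ∑ a ∈ range q, (∑ j, Wm q ψ u a j * x j) ^ 2 =
      ∑ r ∈ range (n * q), (∑ j, ψ j r * x j) ^ 2 := by
    rw [sum_node]
    rfl
  rw [h3]
  have h4 : ∀ r, (∑ j, ψ j r * x j) ^ 2 = ∑ j, ∑ k', (x j * x k') * (ψ j r * ψ k' r) := by
    intro r
    rw [sq, sum_mul_sum]
    exact sum_congr rfl fun j _ => sum_congr rfl fun k' _ => by ring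
  simp only [h4]
  rw [sum_comm]
  refine sum_congr rfl fun j _ => ?_
  rw [sum_comm]
  simp only [← mul_sum, o]
  rw [sum_eq_single j]
  · rw [if_pos rfl]; ring
  · intro k' _ hk'
    rw [if_neg (Ne.symm hk'), mul_zero]
  · intro hh
    exact absurd (mem_univ j) hh

theorem sum_ind (i : ℕ → Bool) (F : ℕ → ℝ) : ∑ u ∈ range n, (if i u = true then F u else 0) =
    ∑ u ∈ (range n).filter (fun u => i u = true), F u := (sum_filter _ _).symm

/-- The number of the singular values above `δ d`. -/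
theorem count_bound (h : Xq n d q σ l) (iL iR : ℕ → Bool) {m : ℕ} (ψ η : Fin m → ℕ → ℝ)
    (o1 : ∀ j k, ∑ r ∈ range (n * q), ψ j r * ψ k r = if j = k then 1 else 0)
    (o2 : ∀ j k, ∑ r ∈ range (n * q), η j r * η k r = if j = k then 1 else 0) {δ μ : ℝ}
    (hδ : 0 < δ) (hL : (((range n).filter fun u => iL u = true).card : ℝ) ≤ μ * n)
    (hR : (((range n).filter fun u => iR u = true).card : ℝ) ≤ μ * n) (hpos : 0 < σ + μ)
    (hc : 4 * (σ * (σ + μ)) ≤ δ ^ 2) (hb : ∀ j, δ * d ≤ Bf q (lf iL iR l) (ψ j) (η j)) :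
    m * δ ^ 2 ≤ 2 * (q * μ * (σ + μ)) := by
  classical
  have hn : (0 : ℝ) < n := by exact_mod_cast h.npos
  have hd : (0 : ℝ) < d := by exact_mod_cast h.dpos
  have hσ0 := h.nonneg
  have n1 : ∀ j, nrm n q (ψ j) = 1 := by
    intro j
    have := o1 j j
    rw [if_pos rfl] at this
    rw [nrm_eq, ← this]
    exact sum_congr rfl fun r _ => sq _
  have n2 : ∀ j, nrm n q (η j) = 1 := by
    intro j
    have := o2 j j
    rw [if_pos rfl] at this
    rw [nrm_eq, ← this]
    exact sum_congr rfl fun r _ => sq _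
  choose w s hw using fun u => exists_sp (q := q) (Wm q ψ u)
  choose w' t hw' using fun v => exists_sp (q := q) (Wm q η v)
  set UL := (range n).filter (fun u => iL u = true) with hUL
  set UR := (range n).filter (fun u => iR u = true) with hUR
  set κ : ℝ := δ / (2 * (σ + μ)) with hκ
  have hκ0 : 0 < κ := by positivity
  set f : Fin m → Fin m → ℕ → ℝ := fun i j u => if iL u = true then rt (w u) (s u) i j else 0
    with hf
  set g : Fin m → Fin m → ℕ → ℝ := fun i j v => if iR v = true then rt (w' v) (t v) i j else 0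
    with hg
  set N1 : ℕ → ℝ := fun u => if iL u = true then √(fr q (Wm q ψ u)) else 0 with hN1
  set N2 : ℕ → ℝ := fun v => if iR v = true then √(fr q (Wm q η v)) else 0 with hN2
  have frn : ∀ (W : ℕ → Fin m → ℝ), 0 ≤ fr q W := fun W =>
    sum_nonneg fun a _ => sum_nonneg fun j _ => sq_nonneg _
  -- over the edges
  have hup : m * (δ * d) ≤ 1 / (2 * κ) * S (fun e => ∑ i, ∑ j, f i j e.1 * g i j e.2.1) l +
      κ / 2 * S (fun e => N1 e.1 * N2 e.2.1) l := by
    have h1 : m * (δ * d) ≤ ∑ j, Bf q (lf iL iR l) (ψ j) (η j) := by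
      refine le_trans (le_of_eq ?_) (sum_le_sum fun j _ => hb j)
      rw [sum_const, card_univ, Fintype.card_fin, nsmul_eq_mul]
    refine h1.trans ?_
    rw [← S_mul, ← S_mul, ← S_add]
    unfold Bf lf
    rw [← S_sum, S_filter]
    refine S_le fun e he => ?_
    by_cases hp : (iL e.1 && iR e.2.1) = true
    · rw [if_pos hp]
      rw [Bool.and_eq_true] at hp
      have h2 := holder (hw e.1) ((hw' e.2.1).perm (h.tab e he)) hκ0
      rw [fr_perm _ (h.tab e he)] at h2
      simp only [hf, hg, hN1, hN2, if_pos hp.1, if_pos hp.2]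
      refine le_trans (le_of_eq ?_) h2
      unfold Wm
      exact sum_comm
    · rw [if_neg hp]
      rw [Bool.and_eq_true, not_and_or] at hp
      have h3 : (∀ i j, f i j e.1 * g i j e.2.1 = 0) ∧ N1 e.1 * N2 e.2.1 = 0 := by
        rcases hp with hp | hp
        · simp [hf, hN1, if_neg hp]
        · simp [hg, hN2, if_neg hp]
      simp only [h3.1, h3.2, sum_const_zero, mul_zero, add_zero, le_refl]
  -- the first sum
  have sf : ∀ i j, ∑ u ∈ range n, f i j u = ∑ u ∈ UL, rt (w u) (s u) i j := fun i j =>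
    sum_ind iL _
  have sg : ∀ i j, ∑ u ∈ range n, g i j u = ∑ u ∈ UR, rt (w' u) (t u) i j := fun i j =>
    sum_ind iR _
  have Yf : ∑ i, ∑ j, (∑ u ∈ range n, f i j u) ^ 2 ≤ q * (μ * n) := by
    simp only [sf]
    refine (sum_norm UL (fun u => Wm q ψ u) w s (fun u _ => hw u) fun x =>
      gram_le ψ o1 x UL (filter_subset _ _)).trans ?_
    exact mul_le_mul_of_nonneg_left hL (by positivity)
  have Yg : ∑ i, ∑ j, (∑ u ∈ range n, g i j u) ^ 2 ≤ q * (μ * n) := by
    simp only [sg]
    refine (sum_norm UR (fun u => Wm q η u) w' t (fun u _ => hw' u) fun x =>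
      gram_le η o2 x UR (filter_subset _ _)).trans ?_
    exact mul_le_mul_of_nonneg_left hR (by positivity)
  have qf : ∑ i, ∑ j, ∑ u ∈ range n, f i j u ^ 2 ≤ m := by
    calc _ = ∑ u ∈ range n, ∑ i, ∑ j, f i j u ^ 2 := by
          rw [sum_comm (s := range n)]
          exact sum_congr rfl fun i _ => sum_comm
      _ ≤ ∑ u ∈ range n, fr q (Wm q ψ u) := by
          refine sum_le_sum fun u _ => ?_
          simp only [hf]
          by_cases hu : iL u = true
          · simp only [if_pos hu]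
            exact (hw u).rt_sq.le
          · simp only [if_neg hu]
            have := frn (Wm q ψ u)
            simpa using this
      _ = m := by
          rw [sum_fr, sum_congr rfl fun j _ => n1 j]
          simp
  have qg : ∑ i, ∑ j, ∑ u ∈ range n, g i j u ^ 2 ≤ m := by
    calc _ = ∑ u ∈ range n, ∑ i, ∑ j, g i j u ^ 2 := by
          rw [sum_comm (s := range n)]
          exact sum_congr rfl fun i _ => sum_comm
      _ ≤ ∑ u ∈ range n, fr q (Wm q η u) := by
          refine sum_le_sum fun u _ => ?_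
          simp only [hg]
          by_cases hu : iR u = true
          · simp only [if_pos hu]
            exact (hw' u).rt_sq.le
          · simp only [if_neg hu]
            have := frn (Wm q η u)
            simpa using this
      _ = m := by
          rw [sum_fr, sum_congr rfl fun j _ => n2 j]
          simp
  have h1 : S (fun e => ∑ i, ∑ j, f i j e.1 * g i j e.2.1) l ≤
      d * (q * μ) + σ * d * m := by
    rw [S_sum]
    have h2 : ∑ i, S (fun e => ∑ j, f i j e.1 * g i j e.2.1) l ≤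
        ∑ i, ∑ j, (d / n * (((∑ u ∈ range n, f i j u) ^ 2 + (∑ u ∈ range n, g i j u) ^ 2) / 2) +
          σ * d * (((∑ u ∈ range n, f i j u ^ 2) + ∑ u ∈ range n, g i j u ^ 2) / 2)) := by
      refine sum_le_sum fun i _ => ?_
      rw [S_sum]
      refine sum_le_sum fun j _ => (mix h (f i j) (g i j)).trans ?_
      have h3 : (∑ u ∈ range n, f i j u) * (∑ u ∈ range n, g i j u) ≤
          ((∑ u ∈ range n, f i j u) ^ 2 + (∑ u ∈ range n, g i j u) ^ 2) / 2 := by
        nlinarith [sq_nonneg ((∑ u ∈ range n, f i j u) - ∑ u ∈ range n, g i j u)]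
      have := mul_le_mul_of_nonneg_left h3 (by positivity : (0 : ℝ) ≤ d / n)
      linarith
    refine h2.trans ?_
    have e2 : ∑ i, ∑ j, (d / n * (((∑ u ∈ range n, f i j u) ^ 2 +
          (∑ u ∈ range n, g i j u) ^ 2) / 2) +
          σ * d * (((∑ u ∈ range n, f i j u ^ 2) + ∑ u ∈ range n, g i j u ^ 2) / 2)) =
        d / n * ((∑ i, ∑ j, (∑ u ∈ range n, f i j u) ^ 2 +
          ∑ i, ∑ j, (∑ u ∈ range n, g i j u) ^ 2) / 2) +
        σ * d * ((∑ i, ∑ j, ∑ u ∈ range n, f i j u ^ 2 +
          ∑ i, ∑ j, ∑ u ∈ range n, g i j u ^ 2) / 2) := by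
      simp only [sum_add_distrib, ← mul_sum, ← sum_div]
    rw [e2]
    have h4 : (d : ℝ) / n * ((∑ i, ∑ j, (∑ u ∈ range n, f i j u) ^ 2 +
        ∑ i, ∑ j, (∑ u ∈ range n, g i j u) ^ 2) / 2) ≤ d / n * (q * (μ * n)) :=
      mul_le_mul_of_nonneg_left (by linarith) (by positivity)
    have h5 : (d : ℝ) / n * (q * (μ * n)) = d * (q * μ) := by field_simp
    have h6 : σ * d * ((∑ i, ∑ j, ∑ u ∈ range n, f i j u ^ 2 +
          ∑ i, ∑ j, ∑ u ∈ range n, g i j u ^ 2) / 2) ≤ σ * d * m :=
      mul_le_mul_of_nonneg_left (by linarith) (by positivity)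
    linarith
  -- the second sum
  have q1 : ∑ u ∈ range n, N1 u ^ 2 ≤ m := by
    calc _ ≤ ∑ u ∈ range n, fr q (Wm q ψ u) := by
          refine sum_le_sum fun u _ => ?_
          simp only [hN1]
          split_ifs
          · rw [Real.sq_sqrt (frn _)]
          · have := frn (Wm q ψ u)
            simpa using this
      _ = m := by
          rw [sum_fr, sum_congr rfl fun j _ => n1 j]
          simp
  have q2 : ∑ u ∈ range n, N2 u ^ 2 ≤ m := by
    calc _ ≤ ∑ u ∈ range n, fr q (Wm q η u) := by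
          refine sum_le_sum fun u _ => ?_
          simp only [hN2]
          split_ifs
          · rw [Real.sq_sqrt (frn _)]
          · have := frn (Wm q η u)
            simpa using this
      _ = m := by
          rw [sum_fr, sum_congr rfl fun j _ => n2 j]
          simp
  have c1 : (∑ u ∈ range n, N1 u) ^ 2 ≤ μ * n * m := by
    have e1 : ∑ u ∈ range n, N1 u = ∑ u ∈ UL, √(fr q (Wm q ψ u)) := sum_ind iL _
    rw [e1]
    have h2 := sq_sum_le_card_mul_sum_sq (s := UL) (f := fun u => √(fr q (Wm q ψ u)))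
    have h3 : ∑ u ∈ UL, √(fr q (Wm q ψ u)) ^ 2 ≤ m := by
      refine le_trans (le_of_eq ?_) q1
      rw [← sum_filter_add_sum_filter_not (range n) (fun u => iL u = true)]
      have e2 : ∑ u ∈ (range n).filter (fun u => ¬ iL u = true), N1 u ^ 2 = 0 := by
        refine sum_eq_zero fun u hu => ?_
        simp only [hN1, if_neg (mem_filter.1 hu).2]
        norm_num
      rw [e2, add_zero]
      refine sum_congr rfl fun u hu => ?_
      simp only [hN1, if_pos (mem_filter.1 hu).2]
    calc _ ≤ (UL.card : ℝ) * ∑ u ∈ UL, √(fr q (Wm q ψ u)) ^ 2 := h2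
      _ ≤ (μ * n) * m := mul_le_mul hL h3 (sum_nonneg fun u _ => sq_nonneg _)
          (le_trans (by positivity) hL)
      _ = _ := by ring
  have c2 : (∑ u ∈ range n, N2 u) ^ 2 ≤ μ * n * m := by
    have e1 : ∑ u ∈ range n, N2 u = ∑ u ∈ UR, √(fr q (Wm q η u)) := sum_ind iR _
    rw [e1]
    have h2 := sq_sum_le_card_mul_sum_sq (s := UR) (f := fun u => √(fr q (Wm q η u)))
    have h3 : ∑ u ∈ UR, √(fr q (Wm q η u)) ^ 2 ≤ m := by
      refine le_trans (le_of_eq ?_) q2
      rw [← sum_filter_add_sum_filter_not (range n) (fun u => iR u = true)]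
      have e2 : ∑ u ∈ (range n).filter (fun u => ¬ iR u = true), N2 u ^ 2 = 0 := by
        refine sum_eq_zero fun u hu => ?_
        simp only [hN2, if_neg (mem_filter.1 hu).2]
        norm_num
      rw [e2, add_zero]
      refine sum_congr rfl fun u hu => ?_
      simp only [hN2, if_pos (mem_filter.1 hu).2]
    calc _ ≤ (UR.card : ℝ) * ∑ u ∈ UR, √(fr q (Wm q η u)) ^ 2 := h2
      _ ≤ (μ * n) * m := mul_le_mul hR h3 (sum_nonneg fun u _ => sq_nonneg _)
          (le_trans (by positivity) hR)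
      _ = _ := by ring
  have h7 : S (fun e => N1 e.1 * N2 e.2.1) l ≤ d * ((σ + μ) * m) := by
    refine (mix h N1 N2).trans ?_
    have h8 : (∑ u ∈ range n, N1 u) * ∑ u ∈ range n, N2 u ≤ μ * n * m := by
      nlinarith [sq_nonneg ((∑ u ∈ range n, N1 u) - ∑ u ∈ range n, N2 u)]
    have h9 := mul_le_mul_of_nonneg_left h8 (by positivity : (0 : ℝ) ≤ d / n)
    have h10 : (d : ℝ) / n * (μ * n * m) = d * (μ * m) := by field_simp
    have h11 : σ * d * (((∑ u ∈ range n, N1 u ^ 2) + ∑ u ∈ range n, N2 u ^ 2) / 2) ≤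
        σ * d * m := mul_le_mul_of_nonneg_left (by linarith) (by positivity)
    linarith
  -- together
  have t1 := mul_le_mul_of_nonneg_left h1 (by positivity : 0 ≤ 1 / (2 * κ))
  have t2 := mul_le_mul_of_nonneg_left h7 (by positivity : 0 ≤ κ / 2)
  have t3 : κ / 2 * (d * ((σ + μ) * m)) = δ / 4 * (d * m) := by
    rw [hκ]
    field_simp
    ring
  have t4 : 1 / (2 * κ) * (d * (q * μ) + σ * d * m) =
      (d * (q * μ * (σ + μ)) + d * m * (σ * (σ + μ))) / δ := by
    rw [hκ]
    field_simp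
  rw [t3] at t2
  rw [t4] at t1
  have hdm : (0 : ℝ) ≤ d * m := by positivity
  have t5 : (d * (q * μ * (σ + μ)) + d * m * (σ * (σ + μ))) / δ ≤
      (d * (q * μ * (σ + μ))) / δ + δ / 4 * (d * m) := by
    rw [add_div]
    have : d * m * (σ * (σ + μ)) / δ ≤ δ / 4 * (d * m) := by
      rw [div_le_iff₀ hδ]
      nlinarith
    linarith
  have t6 : m * (δ * d) ≤ (d * (q * μ * (σ + μ))) / δ + δ / 2 * (d * m) := by linarith
  have t7 : m * (δ * d) / 2 * δ ≤ d * (q * μ * (σ + μ)) := by
    rw [← le_div_iff₀ hδ]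
    linarith
  have t8 : d * (m * δ ^ 2) ≤ d * (2 * (q * μ * (σ + μ))) := by nlinarith
  exact le_of_mul_le_mul_left t8 hd

end

end Pool.Agent.K6.H49.UGS
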