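import Pool.Agent.K6.H49.UGS.Add
import Pool.Agent.K6.H49.UGS.Cnt
import Pool.Agent.K6.H49.UGR.Alg

/-!
# The second part of the algorithm: new labels for the ambiguous vertices
-/

set_option autoImplicit false

open Finset

namespace Pool.Agent.K6.H49.UGS

open Pool.Agent.K6.H49.UGX (Edge)
open Pool.Agent.K6.H49.UGQ
open Pool.Agent.K6.H49.UGR (cnt cnL runR un' zw vl_runR)

/-- The ambiguous left vertices: at least the fraction `t / 4` of the edges is violated. -/
def amL (t : ℕ) (l : List Edge) (c : List ℕ × List ℕ) (u : ℕ) : Bool :=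
  decide (t * dg l ≤ 4 * cL l c.2 u (c.1.getD u 0))

/-- The ambiguous right vertices. -/
def amR (t : ℕ) (l : List Edge) (c : List ℕ × List ℕ) (v : ℕ) : Bool :=
  decide (t * dg l ≤ 4 * cR l c.1 v (c.2.getD v 0))

/-- The edges between ambiguous vertices. -/
def lam (t : ℕ) (l : List Edge) (c : List ℕ × List ℕ) : List Edge := lf (amL t l c) (amR t l c) l

/-- The number of the ambiguous left vertices. -/
def kap (n t : ℕ) (l : List Edge) (c : List ℕ × List ℕ) : ℕ :=
  ((List.range n).filter (amL t l c)).length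

/-- The number of the edges from clear vertices which the label `i` satisfies. -/
def cO (t : ℕ) (l : List Edge) (c : List ℕ × List ℕ) (v i : ℕ) : ℕ :=
  (l.filter fun e => decide (e.2.1 = v) && (!amL t l c e.1 && sb (c.1.getD e.1 0) i e)).length

/-- The filtered vector, multiplied by `Db`. -/
def zL (N Db : ℕ) (rs : List ℕ) (w : List (ℕ × ℕ)) : List (ℕ × ℕ) :=
  (List.range N).map fun r => (Db * cnt rs r + (w.getD r (0, 0)).2, (w.getD r (0, 0)).1)

/-- The comparison of two labels. -/
def cmpS (κ sD : ℕ) (co : ℕ → ℕ) (y : List (ℕ × ℕ)) (v q i j : ℕ) : Bool :=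
  decide (κ * (y.getD (v * q + i) (0, 0)).1 + sD * co i + κ * (y.getD (v * q + j) (0, 0)).2 ≤
    κ * (y.getD (v * q + j) (0, 0)).1 + sD * co j + κ * (y.getD (v * q + i) (0, 0)).2)

/-- The first maximizer. -/
def amax (q : ℕ) (cmp : ℕ → ℕ → Bool) : ℕ :=
  (((List.range q).filter fun i => (List.range q).all fun j => cmp j i).head?).getD 0

/-- The new labels of the right vertices. -/
def newR (n q : ℕ) (l : List Edge) (t : ℕ) (c : List ℕ × List ℕ) (κ sD : ℕ)
    (y : List (ℕ × ℕ)) : List ℕ :=
  (List.range n).map fun v => if amR t l c v = true then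
    amax q (cmpS κ sD (cO t l c v) y v q) else c.2.getD v 0

/-- The vector of the scores. -/
def yL (n q : ℕ) (l' : List Edge) (D a b : ℕ) (rs : List ℕ) : List (ℕ × ℕ) :=
  pass (n * q) (swp (ext q l')) (zL (n * q) (D ^ b) rs (runR (n * q) (ext q l') D a b rs))

/-- The second part of the algorithm. -/
def sec (n q : ℕ) (l : List Edge) (t : ℕ) (c : List ℕ × List ℕ) (a b : ℕ) (rs : List ℕ) :
    List ℕ × List ℕ :=
  (brL n q l (newR n q l t c (kap n t l c) (rs.length * (dg l ^ (2 * a)) ^ b)
    (yL n q (lam t l c) (dg l ^ (2 * a)) a b rs)),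
  newR n q l t c (kap n t l c) (rs.length * (dg l ^ (2 * a)) ^ b)
    (yL n q (lam t l c) (dg l ^ (2 * a)) a b rs))

theorem amax_ok {q : ℕ} (hq : 0 < q) (cmp : ℕ → ℕ → Bool) (F : ℕ → ℝ)
    (hF : ∀ i < q, ∀ j < q, (cmp i j = true ↔ F i ≤ F j)) :
    amax q cmp < q ∧ ∀ i < q, F i ≤ F (amax q cmp) := by
  obtain ⟨i0, hi0, hmax⟩ := exists_max_image (range q) F ⟨0, mem_range.2 hq⟩
  rw [mem_range] at hi0
  have hmem : i0 ∈ (List.range q).filter fun i => (List.range q).all fun j => cmp j i := by
    rw [List.mem_filter, List.all_eq_true]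
    refine ⟨List.mem_range.2 hi0, fun j hj => ?_⟩
    rw [List.mem_range] at hj
    rw [hF j hj i0 hi0]
    exact hmax j (mem_range.2 hj)
  unfold amax
  generalize hL : ((List.range q).filter fun i => (List.range q).all fun j => cmp j i) = L at hmem
  cases L with
  | nil => exact absurd hmem List.not_mem_nil
  | cons i L =>
    simp only [List.head?_cons, Option.getD_some]
    have hi : i ∈ (List.range q).filter fun i => (List.range q).all fun j => cmp j i := by
      rw [hL]; exact List.mem_cons_self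
    rw [List.mem_filter, List.all_eq_true, List.mem_range] at hi
    exact ⟨hi.1, fun j hj => (hF j hj i hi.1).1 (hi.2 j (List.mem_range.2 hj))⟩

theorem cmpS_iff (κ sD : ℕ) (co : ℕ → ℕ) (y : List (ℕ × ℕ)) (v q i j : ℕ) :
    cmpS κ sD co y v q i j = true ↔
      κ * vl y (v * q + i) + sD * co i ≤ κ * vl y (v * q + j) + (sD : ℝ) * co j := by
  unfold cmpS vl
  rw [decide_eq_true_eq]
  generalize (y.getD (v * q + i) (0, 0)) = w
  generalize (y.getD (v * q + j) (0, 0)) = w'
  constructor
  · intro h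
    have h' : ((κ * w.1 + sD * co i + κ * w'.2 : ℕ) : ℝ) ≤
        ((κ * w'.1 + sD * co j + κ * w.2 : ℕ) : ℝ) := by exact_mod_cast h
    push_cast at h'
    linarith
  · intro h
    have h' : ((κ * w.1 + sD * co i + κ * w'.2 : ℕ) : ℝ) ≤
        ((κ * w'.1 + sD * co j + κ * w.2 : ℕ) : ℝ) := by
      push_cast
      linarith
    exact_mod_cast h'

theorem node_inj {q u v i j : ℕ} (hi : i < q) (hj : j < q) :
    u * q + i = v * q + j ↔ u = v ∧ i = j := by
  constructor
  · intro h
    have h1 : (u * q + i) / q = (v * q + j) / q := by rw [h]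
    have h2 : (u * q + i) % q = (v * q + j) % q := by rw [h]
    rw [Nat.add_comm, Nat.add_mul_div_right _ _ (by omega), Nat.div_eq_of_lt hi, zero_add,
      Nat.add_comm, Nat.add_mul_div_right _ _ (by omega), Nat.div_eq_of_lt hj, zero_add] at h1
    rw [Nat.add_comm, Nat.add_mul_mod_self_right, Nat.mod_eq_of_lt hi, Nat.add_comm,
      Nat.add_mul_mod_self_right, Nat.mod_eq_of_lt hj] at h2
    exact ⟨h1, h2⟩
  · rintro ⟨rfl, rfl⟩
    rfl

section

variable {n d q : ℕ} {σ : ℝ} {l : List Edge}

theorem lf_sub (iL iR : ℕ → Bool) {e : Edge} (he : e ∈ lf iL iR l) :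
    e ∈ l ∧ iL e.1 = true ∧ iR e.2.1 = true := by
  unfold lf at he
  rw [List.mem_filter, Bool.and_eq_true] at he
  exact ⟨he.1, he.2.1, he.2.2⟩

theorem extf_lt (h : Xq n d q σ l) (iL iR : ℕ → Bool) :
    ∀ p ∈ ext q (lf iL iR l), p.1 < n * q ∧ p.2 < n * q := by
  intro p hp
  unfold UGQ.ext at hp
  simp only [List.mem_flatMap, List.mem_map, List.mem_range] at hp
  obtain ⟨e, he, i, hi, rfl⟩ := hp
  have he' := (lf_sub iL iR he).1
  obtain ⟨h1, h2⟩ := h.lt e he'
  exact ⟨node_lt h1 hi, node_lt h2 (tb_lt (h.tab e he') hi)⟩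

/-- The satisfied edges at a right vertex. -/
noncomputable def st (l : List Edge) (x : ℕ → ℕ) (v i : ℕ) : ℝ :=
  S (fun e => if e.2.1 = v ∧ tb e (x e.1) = i then (1 : ℝ) else 0) l

theorem vio_st (h : Xq n d q σ l) {x y : ℕ → ℕ} (hx : ∀ u < n, x u < q) {v : ℕ} (hv : v < n) :
    S (fun e => if e.2.1 = v then vio x y e else 0) l = d - st l x v (y v) := by
  unfold st
  rw [← h.right v hv, ← S_sub]
  refine S_congr fun e he => ?_
  by_cases h1 : e.2.1 = v
  · rw [if_pos h1, if_pos h1, vio_tb (h.tab e he) (hx _ (h.lt e he).1), h1]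
    by_cases h2 : tb e (x e.1) = y v
    · rw [if_pos h2, if_pos ⟨rfl, h2⟩]; norm_num
    · rw [if_neg h2, if_neg fun h3 => h2 h3.2]; norm_num
  · rw [if_neg h1, if_neg h1, if_neg fun h3 => h1 h3.1]; norm_num

/-- The indicator at a node. -/
theorem ci_node {iL : ℕ → Bool} {x : ℕ → ℕ} (hx : ∀ u < n, x u < q) {u j : ℕ} (hu : u < n)
    (hi : iL u = true) (hj : j < q) :
    ci ((range n).filter fun u => iL u = true) (fun u => u * q + x u) (u * q + j) =
      if j = x u then 1 else 0 := by
  unfold ci un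
  rw [sum_eq_single u]
  · by_cases h1 : j = x u
    · rw [if_pos h1, if_pos (by rw [h1])]
    · rw [if_neg h1, if_neg]
      intro h2
      exact h1 ((node_inj hj (hx u hu)).1 h2).2
  · intro v hv hne
    rw [if_neg]
    intro h2
    rw [mem_filter, mem_range] at hv
    exact hne ((node_inj hj (hx v hv.1)).1 h2).1.symm
  · intro hh
    exact absurd (mem_filter.2 ⟨mem_range.2 hu, hi⟩) hh

theorem At_ci (h : Xq n d q σ l) (iL iR : ℕ → Bool) {x : ℕ → ℕ} (hx : ∀ u < n, x u < q)
    {v i : ℕ} (hi : i < q) :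
    At (ext q (lf iL iR l)) (ci ((range n).filter fun u => iL u = true)
      fun u => u * q + x u) (v * q + i) =
      S (fun e => if e.2.1 = v ∧ tb e (x e.1) = i then (1 : ℝ) else 0) (lf iL iR l) := by
  unfold At
  rw [S_ext]
  refine S_congr fun e he => ?_
  obtain ⟨he', h1, h2⟩ := lf_sub iL iR he
  have hlt := h.lt e he'
  have ht := h.tab e he'
  rw [sum_eq_single (x e.1)]
  · simp only
    rw [ci_node hx hlt.1 h1 (hx _ hlt.1), if_pos rfl]
    by_cases h3 : e.2.1 = v ∧ tb e (x e.1) = i
    · rw [if_pos h3, if_pos ((node_inj (tb_lt ht (hx _ hlt.1)) hi).2 h3)]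
    · rw [if_neg h3, if_neg fun h4 => h3 ((node_inj (tb_lt ht (hx _ hlt.1)) hi).1 h4)]
  · intro j hj hne
    simp only
    rw [ci_node hx hlt.1 h1 (mem_range.1 hj), if_neg hne]
    split_ifs <;> rfl
  · intro hh
    exact absurd (mem_range.2 (hx _ hlt.1)) hh

theorem cO_real (t : ℕ) (c : List ℕ × List ℕ) (v i : ℕ) : (cO t l c v i : ℝ) =
    S (fun e => if e.2.1 = v ∧ (¬ amL t l c e.1 = true ∧ tb e (toF c.1 e.1) = i) then
      (1 : ℝ) else 0) l := by
  unfold cO
  rw [filter_len]
  refine S_congr fun e _ => ?_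
  unfold sb toF
  by_cases h2 : amL t l c e.1 = true
  · simp [h2]
  · simp [h2]

/-- The satisfied edges from clear and from ambiguous vertices. -/
theorem st_split (h : Xq n d q σ l) (t : ℕ) (c : List ℕ × List ℕ) {x : ℕ → ℕ}
    (hx : ∀ u < n, x u < q) (hxc : ∀ u < n, ¬ amL t l c u = true → x u = toF c.1 u) {v i : ℕ}
    (hv : amR t l c v = true) (hi : i < q) :
    st l x v i = cO t l c v i + At (ext q (lam t l c))
      (ci ((range n).filter fun u => amL t l c u = true) fun u => u * q + x u) (v * q + i) := by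
  unfold lam
  rw [At_ci h _ _ hx hi, cO_real]
  unfold st lf
  rw [S_filter, ← S_add]
  refine S_congr fun e he => ?_
  have hlt := h.lt e he
  by_cases h1 : e.2.1 = v
  · by_cases h2 : amL t l c e.1 = true
    · have h3 : (amL t l c e.1 && amR t l c e.2.1) = true := by
        rw [h1, h2, hv]; rfl
      rw [if_pos h3]
      simp [h2]
    · have h3 : ¬ (amL t l c e.1 && amR t l c e.2.1) = true := by
        rw [Bool.and_eq_true]
        exact fun h4 => h2 h4.1
      rw [if_neg h3, add_zero, ← hxc _ hlt.1 h2]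
      by_cases h5 : tb e (x e.1) = i
      · rw [if_pos ⟨h1, h5⟩, if_pos ⟨h1, h2, h5⟩]
      · rw [if_neg fun h6 => h5 h6.2, if_neg fun h6 => h5 h6.2.2]
  · simp [h1]

theorem vl_zL {N : ℕ} {E : List (ℕ × ℕ)} (hE : ∀ p ∈ E, p.1 < N ∧ p.2 < N) {D : ℕ} (hD : 0 < D)
    (a b : ℕ) (rs : List ℕ) : ∀ r < N, vl (zL N (D ^ b) rs (runR N E D a b rs)) r =
      (D : ℝ) ^ b * zw E D a b rs r := by
  intro r hr
  have h1 := vl_runR hE D a b rs r hr
  have hDb : (D : ℝ) ^ b ≠ 0 := by positivity
  unfold zw
  rw [← h1]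
  unfold vl zL un'
  rw [getD_range_map, if_pos hr]
  simp only
  push_cast
  field_simp
  ring

theorem vl_yL (h : Xq n d q σ l) (iL iR : ℕ → Bool) {D : ℕ} (hD : 0 < D) (a b : ℕ)
    (rs : List ℕ) {r : ℕ} (hr : r < n * q) : vl (yL n q (lf iL iR l) D a b rs) r =
      (D : ℝ) ^ b * At (ext q (lf iL iR l)) (zw (ext q (lf iL iR l)) D a b rs) r := by
  have hE := extf_lt h iL iR
  unfold yL
  rw [vl_pass _ _ _ hr, Av_swp, congrFun (At_congr hE (vl_zL hE hD a b rs)) r]
  unfold At
  rw [← S_mul]
  refine S_congr fun p _ => ?_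
  split_ifs
  · rfl
  · rw [mul_zero]

theorem At_sub (E : List (ℕ × ℕ)) (x z : ℕ → ℝ) (κ : ℝ) (r : ℕ) :
    At E (fun r' => x r' - κ * z r') r = At E x r - κ * At E z r := by
  unfold At
  rw [← S_mul, ← S_sub]
  refine S_congr fun p _ => ?_
  split_ifs
  · rfl
  · ring

theorem kap_real (n t : ℕ) (l : List Edge) (c : List ℕ × List ℕ) :
    kap n t l c = ((range n).filter fun u => amL t l c u = true).card := by
  unfold kap
  have h : ((List.range n).filter (amL t l c)).Nodup := List.nodup_range.filter _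
  rw [← List.toFinset_card_of_nodup h]
  congr 1
  ext u
  simp

/-- **The second part finds a labeling which is almost as good as a given one.** -/
theorem sec_le (h : Xq n d q σ l) (hq : 0 < q) (t : ℕ) (c : List ℕ × List ℕ)
    (hc2 : ∀ v < n, toF c.2 v < q) {x y : ℕ → ℕ} (hx : ∀ u < n, x u < q) (hy : ∀ v < n, y v < q)
    (hxc : ∀ u < n, ¬ amL t l c u = true → x u = toF c.1 u)
    (hyc : ∀ v < n, ¬ amR t l c v = true → y v = toF c.2 v) (a b : ℕ) {rs : List ℕ}
    (hs : 0 < rs.length) {ρ B : ℝ} (hρ : 0 < ρ)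
    (hB : ∑ r ∈ range (n * q), At (ext q (lam t l c)) (fun r' =>
      ci ((range n).filter fun u => amL t l c u = true) (fun u => u * q + x u) r' -
        ((range n).filter fun u => amL t l c u = true).card / rs.length *
          zw (ext q (lam t l c)) ((d : ℝ) ^ (2 * a)) a b rs r') r ^ 2 ≤ B) :
    (∀ u < n, toF (sec n q l t c a b rs).1 u < q) ∧
    (∀ u < n, toF (sec n q l t c a b rs).2 u < q) ∧
    V l (toF (sec n q l t c a b rs).1) (toF (sec n q l t c a b rs).2) ≤
      V l x y + B / (2 * ρ) + ρ * ((range n).filter fun u => amR t l c u = true).card := by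
  have hd' : dg l = d := dg_eq h
  have hdp : 0 < d := h.dpos
  have hD : 0 < d ^ (2 * a) := by positivity
  have hs' : (0 : ℝ) < rs.length := by exact_mod_cast hs
  set E := ext q (lam t l c) with hE
  set χ := ci ((range n).filter fun u => amL t l c u = true) fun u => u * q + x u with hχ
  set κ : ℝ := (((range n).filter fun u => amL t l c u = true).card : ℝ) with hκ
  set Z : ℕ → ℝ := zw E ((d : ℝ) ^ (2 * a)) a b rs with hZ
  set δ : ℕ → ℝ := fun r => At E (fun r' => χ r' - κ / rs.length * Z r') r with hδ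
  set g := newR n q l t c (kap n t l c) (rs.length * (dg l ^ (2 * a)) ^ b)
    (yL n q (lam t l c) (dg l ^ (2 * a)) a b rs) with hg
  have hsec : sec n q l t c a b rs = (brL n q l g, g) := rfl
  have hgv : ∀ v < n, toF g v = if amR t l c v = true then
      amax q (cmpS (kap n t l c) (rs.length * (dg l ^ (2 * a)) ^ b) (cO t l c v)
        (yL n q (lam t l c) (dg l ^ (2 * a)) a b rs) v q) else toF c.2 v := by
    intro v hv
    rw [hg]
    unfold newR toF
    rw [getD_range_map, if_pos hv]
  -- the new labels maximize the scores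
  have hmax : ∀ v < n, amR t l c v = true → toF g v < q ∧ ∀ i < q,
      κ / rs.length * At E Z (v * q + i) + cO t l c v i ≤
        κ / rs.length * At E Z (v * q + toF g v) + cO t l c v (toF g v) := by
    intro v hv ha
    rw [hgv v hv, if_pos ha]
    refine amax_ok hq _ (fun i => κ / rs.length * At E Z (v * q + i) + cO t l c v i)
      fun i hi j hj => ?_
    rw [cmpS_iff, hd']
    have e1 : ∀ i < q, vl (yL n q (lam t l c) (d ^ (2 * a)) a b rs) (v * q + i) =
        ((d : ℝ) ^ (2 * a)) ^ b * At E Z (v * q + i) := by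
      intro i hi
      have := vl_yL h (amL t l c) (amR t l c) hD a b rs (node_lt hv hi)
      push_cast at this
      exact this
    have e2 : (kap n t l c : ℝ) = κ := by rw [kap_real]
    have e3 : ∀ i < q, (kap n t l c : ℝ) * vl (yL n q (lam t l c) (d ^ (2 * a)) a b rs)
        (v * q + i) + ((rs.length * (d ^ (2 * a)) ^ b : ℕ) : ℝ) * cO t l c v i =
        (rs.length * ((d : ℝ) ^ (2 * a)) ^ b) *
          (κ / rs.length * At E Z (v * q + i) + cO t l c v i) := by
      intro i hi
      rw [e1 i hi, e2]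
      push_cast
      field_simp
    rw [e3 i hi, e3 j hj]
    have hpos : (0 : ℝ) < rs.length * ((d : ℝ) ^ (2 * a)) ^ b := by
      have : (0 : ℝ) < d := by exact_mod_cast hdp
      positivity
    exact mul_le_mul_iff_right₀ hpos
  have hg2 : ∀ v < n, toF g v < q := by
    intro v hv
    by_cases ha : amR t l c v = true
    · exact (hmax v hv ha).1
    · rw [hgv v hv, if_neg ha]
      exact hc2 v hv
  have hbest := brL_best h hq g
  rw [hsec]
  refine ⟨fun u hu => (hbest u hu).1, hg2, ?_⟩
  refine (BestL_le h hbest hx).trans ?_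
  rw [V_split_right h, V_split_right h x y]
  have key : ∀ v ∈ range n, S (fun e => if e.2.1 = v then vio x (toF g) e else 0) l ≤
      S (fun e => if e.2.1 = v then vio x y e else 0) l +
        (1 / (2 * ρ) * ∑ i ∈ range q, δ (v * q + i) ^ 2 +
          if amR t l c v = true then ρ else 0) := by
    intro v hv
    rw [mem_range] at hv
    rw [vio_st h hx hv, vio_st h hx hv]
    have hnn : 0 ≤ 1 / (2 * ρ) * ∑ i ∈ range q, δ (v * q + i) ^ 2 :=
      mul_nonneg (by positivity) (sum_nonneg fun i _ => sq_nonneg _)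
    by_cases ha : amR t l c v = true
    · rw [if_pos ha]
      obtain ⟨m1, m2⟩ := hmax v hv ha
      have m3 := m2 (y v) (hy v hv)
      rw [st_split h t c hx hxc ha m1, st_split h t c hx hxc ha (hy v hv)]
      have d1 : ∀ i, δ (v * q + i) = At E χ (v * q + i) - κ / rs.length * At E Z (v * q + i) :=
        fun i => At_sub _ _ _ _ _
      have d2 := d1 (y v)
      have d3 := d1 (toF g v)
      by_cases hyg : y v = toF g v
      · rw [hyg]
        linarith
      · have s1 : δ (v * q + y v) ^ 2 + δ (v * q + toF g v) ^ 2 ≤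
            ∑ i ∈ range q, δ (v * q + i) ^ 2 := by
          rw [← sum_pair (f := fun i => δ (v * q + i) ^ 2) hyg]
          refine sum_le_sum_of_subset_of_nonneg ?_ fun i _ _ => sq_nonneg _
          intro i hi
          rw [mem_insert, mem_singleton] at hi
          rcases hi with rfl | rfl
          · exact mem_range.2 (hy v hv)
          · exact mem_range.2 m1
        have s2 : δ (v * q + y v) - δ (v * q + toF g v) ≤
            1 / (2 * ρ) * (δ (v * q + y v) ^ 2 + δ (v * q + toF g v) ^ 2) + ρ := by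
          have e1 : 1 / (2 * ρ) * (δ (v * q + y v) ^ 2 + δ (v * q + toF g v) ^ 2) + ρ -
              (δ (v * q + y v) - δ (v * q + toF g v)) =
              1 / (2 * ρ) * ((δ (v * q + y v) - ρ) ^ 2 + (δ (v * q + toF g v) + ρ) ^ 2) := by
            field_simp
            ring
          have e2 : 0 ≤ 1 / (2 * ρ) * ((δ (v * q + y v) - ρ) ^ 2 +
              (δ (v * q + toF g v) + ρ) ^ 2) := by positivity
          linarith
        have s3 := mul_le_mul_of_nonneg_left s1 (by positivity : 0 ≤ 1 / (2 * ρ))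
        linarith
    · rw [if_neg ha, hyc v hv ha, hgv v hv, if_neg ha]
      linarith
  refine (sum_le_sum key).trans ?_
  rw [sum_add_distrib, sum_add_distrib, ← mul_sum, ← sum_node n q fun r => δ r ^ 2,
    ← sum_filter, sum_const, nsmul_eq_mul]
  have e1 : 1 / (2 * ρ) * ∑ r ∈ range (n * q), δ r ^ 2 ≤ B / (2 * ρ) := by
    have := mul_le_mul_of_nonneg_left hB (by positivity : 0 ≤ 1 / (2 * ρ))
    refine this.trans (le_of_eq ?_)
    ring
  linarith

end

end Pool.Agent.K6.H49.UGS
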