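import Pool.Agent.K6.H49.UGS.AlgP
import Pool.Agent.K6.H49.UGR.AlgF

/-!
# The algorithm for unique games on expanders whose ratio tends to one with the singular value
-/

set_option autoImplicit false

open Finset

namespace Pool.Agent.K6.H49.UGS

open Pool.Agent.NPC
open Pool.Agent.K6.H49.UGX (Edge Game IsUnique Regular SecondLE numSat viol)
open Pool.Agent.K6.H49.UGQ

/-- **Main theorem about the algorithm.** -/
theorem alg_mainS {G : Game} {d q : ℕ} [NeZero q] {σ : ℝ} (hG : IsUnique q G) (hR : Regular G d)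
    (hσ0 : 0 ≤ σ) (hσ : σ ≤ 1 / 64) (hS : SecondLE G (σ * d)) {K c Qm s : ℕ}
    (hK : K = 16384) (hc : c = 40 * 2 ^ (q + 4)) (hQm : 0 < Qm)
    (hs : Qm * (16 * Qm * q + 1) ≤ s) {δ : ℝ} (hδ : 1 / √(Qm : ℝ) ≤ δ) (f g : ℕ → Fin q) :
    viol G (labq q (algoS K c (q + 4) (1000 * q) (Qm + q) (Qm ^ (Qm + q + 1) * 2 ^ Qm) Qm s
      q G).1) (labq q (algoS K c (q + 4) (1000 * q) (Qm + q) (Qm ^ (Qm + q + 1) * 2 ^ Qm) Qm s
      q G).2) ≤ (1 + 100000000000000000 * (√(σ * (σ + viol G f g)) + min δ (viol G f g))) *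
        viol G f g := by
  have hq : 1 ≤ q := Nat.one_le_iff_ne_zero.2 (NeZero.ne q)
  have hX := xq_game hG hR hσ0 hS
  have hlen := length_G hX
  have hn : (0 : ℝ) < G.1 := by exact_mod_cast hX.npos
  have hd : (0 : ℝ) < d := by exact_mod_cast hX.dpos
  have hdn : (0 : ℝ) < d * G.1 := by positivity
  have hV : ∀ p r : ℕ → Fin q, viol G p r = V G.2 (nf p) (nf r) / (d * G.1) := by
    intro p r
    unfold viol
    rw [← numSat_V G p r, ← hlen, ← numSat_V G p r]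
    congr 1
    ring
  have hnn : nn G = G.1 := by
    unfold nn
    refine Nat.min_eq_left ?_
    have h2 : (G.1 : ℝ) ≤ G.2.length := by
      rw [hlen]
      have : (1 : ℝ) ≤ d := by exact_mod_cast hX.dpos
      nlinarith
    exact_mod_cast h2
  set out := algoS K c (q + 4) (1000 * q) (Qm + q) (Qm ^ (Qm + q + 1) * 2 ^ Qm) Qm s q G
    with hout
  have hout' : out = algS K c (q + 4) (1000 * q) (Qm + q) (Qm ^ (Qm + q + 1) * 2 ^ Qm) Qm s
      G.1 q G.2 := by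
    rw [hout]
    unfold algoS
    rw [hnn]
  obtain ⟨h1, h2, h3⟩ := algS_le hX hq hσ hK hc hQm hs hδ (x := nf f) (y := nf g)
    (fun u _ => (f u).isLt) (fun u _ => (g u).isLt) hout'
  rw [hV, hV f g, V_congr hX (fun u hu => nf_labq (h1 u hu)) (fun u hu => nf_labq (h2 u hu)),
    div_le_iff₀ hdn]
  refine h3.trans (le_of_eq ?_)
  field_simp

/-- **The algorithm.** -/
theorem algorithm : ∃ C : ℝ, 0 < C ∧ ∀ (q : ℕ) [NeZero q] (δ : ℝ), 0 < δ →
    ∃ A : List Bool → List Bool, PolyTime A ∧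
    ∀ (G : Game) (d : ℕ) (σ : ℝ), IsUnique q G → Regular G d → 0 ≤ σ → C * σ ≤ 1 →
      SecondLE G (σ * d) → ∃ w w' : List ℕ, A (bits G) = bits (w, w') ∧ ∀ f g : ℕ → Fin q,
        viol G (labq q w) (labq q w') ≤
          (1 + C * (√(σ * (σ + viol G f g)) + min δ (viol G f g))) * viol G f g := by
  refine ⟨100000000000000000, by norm_num, fun q _ δ hδ => ?_⟩
  have hq : 1 ≤ q := Nat.one_le_iff_ne_zero.2 (NeZero.ne q)
  obtain ⟨Qm, hQm1⟩ := exists_nat_ge (max 1 (1 / δ ^ 2))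
  have hQ1 : (1 : ℝ) ≤ Qm := (le_max_left _ _).trans hQm1
  have hQ2 : 1 / δ ^ 2 ≤ Qm := (le_max_right _ _).trans hQm1
  have hQm : 0 < Qm := by exact_mod_cast (by linarith : (0 : ℝ) < Qm)
  have hδ1 : 1 / √(Qm : ℝ) ≤ δ := by
    rw [div_le_iff₀ (Real.sqrt_pos.2 (by linarith))]
    rw [div_le_iff₀ (by positivity)] at hQ2
    have h1 : 1 ≤ (δ * √(Qm : ℝ)) ^ 2 := by
      rw [mul_pow, Real.sq_sqrt (by linarith)]
      linarith
    have h2 : 0 ≤ δ * √(Qm : ℝ) := by positivity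
    nlinarith
  set K : ℕ := 16384 with hK
  set c : ℕ := 40 * 2 ^ (q + 4) with hc
  set s : ℕ := Qm * (16 * Qm * q + 1) with hs
  obtain ⟨A, hA, hA2⟩ : ∃ A : List Bool → List Bool, PolyTime A ∧
      ∀ G : Game, A (bits G) = bits (algoS K c (q + 4) (1000 * q) (Qm + q)
        (Qm ^ (Qm + q + 1) * 2 ^ Qm) Qm s q G) := by
    refine ⟨_, polyTime_opt (g := fun x => (unbits Game x).map
      (algoS K c (q + 4) (1000 * q) (Qm + q) (Qm ^ (Qm + q + 1) * 2 ^ Qm) Qm s q)) ?_,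
      fun G => ?_⟩
    · exact Poly.optMap_fp (h := fun _ G => algoS K c (q + 4) (1000 * q) (Qm + q)
        (Qm ^ (Qm + q + 1) * 2 ^ Qm) Qm s q G) poly_unbits
        ((poly_algoS K c (q + 4) (1000 * q) (Qm + q) (Qm ^ (Qm + q + 1) * 2 ^ Qm) Qm s hq).comp
          (Poly.snd Poly.id))
    · simp only [unbits_bits, Option.map_some]
  refine ⟨A, hA, fun G d σ hG hR hσ0 hσ1 hS => ?_⟩
  exact ⟨_, _, hA2 G, fun f g => alg_mainS hG hR hσ0 (by linarith) hS hK hc hQm le_rfl hδ1 f g⟩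

end Pool.Agent.K6.H49.UGS
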