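import Pool.Agent.K6.H49.UGS.Rnd

/-!
# The ambiguous vertices
-/

set_option autoImplicit false

open Finset

namespace Pool.Agent.K6.H49.UGS

open Pool.Agent.K6.H49.UGX (Edge)
open Pool.Agent.K6.H49.UGQ

/-- The labels of a labeling at the ambiguous vertices, the old labels elsewhere. -/
def tgt (i : ℕ → Bool) (x f : ℕ → ℕ) (u : ℕ) : ℕ := if i u = true then x u else f u

/-- The clear vertices with different labels. -/
def cw (i : ℕ → Bool) (x f : ℕ → ℕ) (u : ℕ) : ℝ := if i u = true then 0 else df f x u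

section

variable {n d q : ℕ} {σ : ℝ} {l : List Edge}

theorem cw_cases (i : ℕ → Bool) (x f : ℕ → ℕ) (u : ℕ) : cw i x f u = 0 ∨ cw i x f u = 1 := by
  unfold cw
  split_ifs
  · exact Or.inl rfl
  · exact df_cases f x u

theorem cw_nonneg (i : ℕ → Bool) (x f : ℕ → ℕ) (u : ℕ) : 0 ≤ cw i x f u := by
  rcases cw_cases i x f u with h | h <;> rw [h]; norm_num

theorem V_tgt (h : Xq n d q σ l) (iL iR : ℕ → Bool) (x y f g : ℕ → ℕ) :
    V l (tgt iL x f) (tgt iR y g) ≤ V l x y + d * (∑ u ∈ range n, cw iL x f u) +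
      d * ∑ u ∈ range n, cw iR y g u := by
  rw [← h.sum_left, ← h.sum_right]
  unfold V
  rw [← S_add, ← S_add]
  refine S_le fun e _ => ?_
  have v0 := vio_nonneg x y e
  have v1 := vio_le_one (tgt iL x f) (tgt iR y g) e
  have c1 := cw_nonneg iL x f e.1
  have c2 := cw_nonneg iR y g e.2.1
  rcases cw_cases iL x f e.1 with h1 | h1
  · rcases cw_cases iR y g e.2.1 with h2 | h2
    · have e1 : tgt iL x f e.1 = x e.1 := by
        unfold tgt
        unfold cw at h1
        split_ifs at h1 ⊢ with hi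
        · rfl
        · exact df_eq h1
      have e2 : tgt iR y g e.2.1 = y e.2.1 := by
        unfold tgt
        unfold cw at h2
        split_ifs at h2 ⊢ with hi
        · rfl
        · exact df_eq h2
      have e3 : vio (tgt iL x f) (tgt iR y g) e = vio x y e := by
        unfold vio
        rw [e1, e2]
      rw [e3]
      linarith
    · rw [h2]; linarith
  · rw [h1]; linarith

/-- The number of the wrong vertices. -/
theorem wrong_le (h : Xq n d q σ l) (hσ : σ ≤ 1 / 64) {x y f g : ℕ → ℕ}
    (hx : ∀ u < n, x u < q) (hf : ∀ u < n, f u < q)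
    (hA : ∑ u ∈ range n, df f x u ≤ 1 / 16 * n) (hB : ∑ u ∈ range n, df g y u ≤ 1 / 16 * n)
    (hV : V l f g ≤ 2 * V l x y) :
    d * ((∑ u ∈ range n, df f x u) + ∑ u ∈ range n, df g y u) ≤ 8 * V l x y := by
  have hd : (0 : ℝ) < d := by exact_mod_cast h.dpos
  have hσ0 := h.nonneg
  have h1 : S (fun e => df f x e.1) l ≤ S (fun e => df f x e.1 * vio x y e) l +
      S (fun e => df f x e.1 * df g y e.2.1) l + S (fun e => df f x e.1 * vio f g e) l := by
    rw [← S_add, ← S_add]
    refine S_le fun e he => ?_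
    rcases df_cases f x e.1 with h3 | h3
    · rw [h3]; simp
    · have := vio_ge_left h hx hf he h3 (y := y) (g := g)
      rw [h3]
      linarith
  have h2 : S (fun e => df g y e.2.1) l ≤ S (fun e => df g y e.2.1 * vio x y e) l +
      S (fun e => df f x e.1 * df g y e.2.1) l + S (fun e => df g y e.2.1 * vio f g e) l := by
    rw [← S_add, ← S_add]
    refine S_le fun e he => ?_
    rcases df_cases g y e.2.1 with h3 | h3
    · rw [h3]; simp
    · have := vio_ge_right h3 (x := x) (f := f)
      rw [h3]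
      linarith
  rw [h.sum_left fun u => df f x u] at h1
  rw [h.sum_right fun u => df g y u] at h2
  have s1 := S_wv_le (l := l) f x y x fun e => e.1
  have s2 := S_wv_le (l := l) f x g f fun e => e.1
  have s3 := S_wv_le (l := l) g y y x fun e => e.2.1
  have s4 := S_wv_le (l := l) g y g f fun e => e.2.1
  have m1 := wrong_mix h f g x y hA hB
  have a0 := sum_df_nonneg (n := n) f x
  have b0 := sum_df_nonneg (n := n) g y
  generalize (∑ u ∈ range n, df f x u) = A at *
  generalize (∑ u ∈ range n, df g y u) = B at *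
  have hAB : 0 ≤ A + B := by linarith
  have m2 : d * ((1 / 16 + σ) * ((A + B) / 2)) ≤ d * (5 / 64 * ((A + B) / 2)) := by
    refine mul_le_mul_of_nonneg_left ?_ hd.le
    exact mul_le_mul_of_nonneg_right (by linarith) (by linarith)
  nlinarith

theorem card_amb (h : Xq n d q σ l) (c : List ℕ × List ℕ) (hc : ∀ u < n, toF c.1 u < q) :
    d * (((range n).filter fun u => amL 1 l c u = true).card : ℝ) ≤
      4 * V l (toF c.1) (toF c.2) ∧
    d * (((range n).filter fun u => amR 1 l c u = true).card : ℝ) ≤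
      4 * V l (toF c.1) (toF c.2) := by
  have hd' : dg l = d := dg_eq h
  constructor
  · rw [V_split_left h, mul_sum]
    have h1 : ∑ u ∈ (range n).filter (fun u => amL 1 l c u = true), (d : ℝ) ≤
        ∑ u ∈ (range n).filter (fun u => amL 1 l c u = true),
          4 * S (fun e => if e.1 = u then vio (toF c.1) (toF c.2) e else 0) l := by
      refine sum_le_sum fun u hu => ?_
      obtain ⟨hu1, hu2⟩ := mem_filter.1 hu
      rw [mem_range] at hu1
      unfold amL at hu2
      rw [decide_eq_true_eq, hd', one_mul] at hu2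
      have h2 := cL_eq h c.2 u (hc u hu1) (toF c.1) rfl
      rw [← h2]
      unfold toF
      exact_mod_cast hu2
    rw [sum_const, nsmul_eq_mul, mul_comm] at h1
    refine h1.trans (sum_le_sum_of_subset_of_nonneg (filter_subset _ _) fun u _ _ => ?_)
    exact mul_nonneg (by norm_num) (S_nonneg fun e _ => by
      split_ifs
      · exact vio_nonneg _ _ _
      · exact le_rfl)
  · rw [V_split_right h, mul_sum]
    have h1 : ∑ u ∈ (range n).filter (fun u => amR 1 l c u = true), (d : ℝ) ≤
        ∑ u ∈ (range n).filter (fun u => amR 1 l c u = true),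
          4 * S (fun e => if e.2.1 = u then vio (toF c.1) (toF c.2) e else 0) l := by
      refine sum_le_sum fun u hu => ?_
      obtain ⟨hu1, hu2⟩ := mem_filter.1 hu
      unfold amR at hu2
      rw [decide_eq_true_eq, hd', one_mul] at hu2
      have h2 := cR_eq h c.1 u _ (toF c.2) rfl hc
      rw [← h2]
      unfold toF
      exact_mod_cast hu2
    rw [sum_const, nsmul_eq_mul, mul_comm] at h1
    refine h1.trans (sum_le_sum_of_subset_of_nonneg (filter_subset _ _) fun u _ _ => ?_)
    exact mul_nonneg (by norm_num) (S_nonneg fun e _ => by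
      split_ifs
      · exact vio_nonneg _ _ _
      · exact le_rfl)

/-- A few vertices which see many of a few vertices. -/
theorem few_of (h : Xq n d q σ l) {α β : ℕ → ℝ} (hα : ∀ u, α u = 0 ∨ α u = 1)
    (hβ : ∀ u, β u = 0 ∨ β u = 1) (hB : ∑ u ∈ range n, β u ≤ 1 / 16 * n)
    (hab : d / 4 * ∑ u ∈ range n, α u ≤ S (fun e => α e.1 * β e.2.1) l) :
    ∑ u ∈ range n, α u ≤ 29 * σ ^ 2 * ∑ u ∈ range n, β u := by
  have hn : (0 : ℝ) < n := by exact_mod_cast h.npos
  have hd : (0 : ℝ) < d := by exact_mod_cast h.dpos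
  have hσ0 := h.nonneg
  have mixx := h.bil_le' α β
  have sq1 : ∀ γ : ℕ → ℝ, (∀ u, γ u = 0 ∨ γ u = 1) →
      ∑ u ∈ range n, γ u ^ 2 = ∑ u ∈ range n, γ u := by
    intro γ hγ
    refine sum_congr rfl fun u _ => ?_
    rcases hγ u with h1 | h1 <;> rw [h1] <;> norm_num
  have nn1 : ∀ γ : ℕ → ℝ, (∀ u, γ u = 0 ∨ γ u = 1) → 0 ≤ ∑ u ∈ range n, γ u := by
    intro γ hγ
    refine sum_nonneg fun u _ => ?_
    rcases hγ u with h1 | h1 <;> rw [h1]; norm_num
  have a0 := nn1 α hα
  have b0 := nn1 β hβ
  rw [sq1 α hα, sq1 β hβ, abs_of_nonneg a0, abs_of_nonneg b0] at mixx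
  generalize (∑ u ∈ range n, α u) = P at *
  generalize (∑ u ∈ range n, β u) = B at *
  have h1 : d / n * (P * B) ≤ d * (P / 16) := by
    have : P * B ≤ n * (P / 16) := by nlinarith
    calc d / n * (P * B) ≤ d / n * (n * (P / 16)) := mul_le_mul_of_nonneg_left this (by positivity)
      _ = _ := by field_simp
  have h2 : σ * (√P * √B) ≤ 3 / 32 * P + 8 / 3 * (σ ^ 2 * B) := by
    have e1 := Real.sq_sqrt a0
    have e2 := Real.sq_sqrt b0
    nlinarith [sq_nonneg (3 / 16 * √P - σ * √B)]
  have h3 : d * (P / 4) ≤ d * (P / 16 + (3 / 32 * P + 8 / 3 * (σ ^ 2 * B))) := by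
    have := mul_le_mul_of_nonneg_left h2 hd.le
    nlinarith
  have h4 := le_of_mul_le_mul_left h3 hd
  have h5 : 0 ≤ σ ^ 2 * B := by positivity
  nlinarith

/-- Few clear vertices are wrong. -/
theorem clear_left (h : Xq n d q σ l) {x y : ℕ → ℕ} (hx : BestL n q l x y)
    (c : List ℕ × List ℕ) (hc : ∀ u < n, toF c.1 u < q)
    (hB : ∑ u ∈ range n, df (toF c.2) y u ≤ 1 / 16 * n) :
    ∑ u ∈ range n, cw (amL 1 l c) x (toF c.1) u ≤
      29 * σ ^ 2 * ∑ u ∈ range n, df (toF c.2) y u := by
  have hd' : dg l = d := dg_eq h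
  refine few_of h (cw_cases _ _ _) (df_cases _ _) hB ?_
  have h1 : d / 4 * ∑ u ∈ range n, cw (amL 1 l c) x (toF c.1) u =
      S (fun e => cw (amL 1 l c) x (toF c.1) e.1 * (1 / 4)) l := by
    rw [h.sum_left fun u => cw (amL 1 l c) x (toF c.1) u * (1 / 4), ← sum_mul]
    ring
  rw [h1]
  refine S_weight (fun e => e.1) (fun e he => (h.lt e he).1) (cw (amL 1 l c) x (toF c.1))
    (cw_cases _ _ _) (fun _ => 1 / 4) (fun e => df (toF c.2) y e.2.1) fun u hu hcw => ?_
  unfold cw at hcw
  have hna : ¬ amL 1 l c u = true := by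
    intro ha
    rw [if_pos ha] at hcw
    exact zero_ne_one hcw
  rw [if_neg hna] at hcw
  unfold amL at hna
  rw [decide_eq_true_eq, hd', one_mul, not_le] at hna
  have h2 := cL_eq h c.2 u (hc u hu) (toF c.1) rfl
  have h3 : 4 * S (fun e => if e.1 = u then vio (toF c.1) (toF c.2) e else 0) l ≤ d := by
    rw [← h2]
    unfold toF
    exact_mod_cast hna.le
  have h4 := h.left u hu
  have h5 : S (fun e => if e.1 = u then (1 : ℝ) else 0) l ≤
      S (fun e => if e.1 = u then vio x y e else 0) l +
      S (fun e => if e.1 = u then df (toF c.2) y e.2.1 else 0) l +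
      S (fun e => if e.1 = u then vio (toF c.1) (toF c.2) e else 0) l := by
    rw [← S_add, ← S_add]
    refine S_le fun e he => ?_
    split_ifs with h6
    · have := vio_ge_left (y := y) (g := toF c.2) h (fun u hu => (hx u hu).1) hc he
        (by rw [h6]; exact hcw)
      linarith
    · norm_num
  have h6 : S (fun e => if e.1 = u then vio x y e else 0) l ≤
      S (fun e => if e.1 = u then vio (toF c.1) (toF c.2) e else 0) l +
      S (fun e => if e.1 = u then df (toF c.2) y e.2.1 else 0) l := by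
    refine ((hx u hu).2 (toF c.1 u) (hc u hu)).trans ?_
    rw [← S_add]
    refine S_le fun e he => ?_
    split_ifs with h7
    · rcases df_cases (toF c.2) y e.2.1 with h8 | h8
      · rw [h8, add_zero]
        unfold vio
        rw [← h7, df_eq h8]
      · rw [h8]
        have := vio_nonneg (toF c.1) (toF c.2) e
        have := vio_le_one (fun _ => toF c.1 u) y e
        linarith
    · norm_num
  have h7 : S (fun e => if e.1 = u then (1 / 4 : ℝ) else 0) l = d / 4 := by
    rw [← h4]
    have : S (fun e => if e.1 = u then (1 / 4 : ℝ) else 0) l =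
        S (fun e => 1 / 4 * (if e.1 = u then (1 : ℝ) else 0)) l :=
      S_congr fun e _ => by split_ifs <;> norm_num
    rw [this, S_mul]
    ring
  rw [h7]
  linarith

theorem clear_right (h : Xq n d q σ l) {x y : ℕ → ℕ} (hx : ∀ u < n, x u < q)
    (hy : BestR n q l x y) (c : List ℕ × List ℕ) (hc : ∀ u < n, toF c.1 u < q)
    (hc2 : ∀ u < n, toF c.2 u < q) (hA : ∑ u ∈ range n, df (toF c.1) x u ≤ 1 / 16 * n) :
    ∑ u ∈ range n, cw (amR 1 l c) y (toF c.2) u ≤
      29 * σ ^ 2 * ∑ u ∈ range n, df (toF c.1) x u := by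
  have hd' : dg l = d := dg_eq h
  have hn : (0 : ℝ) < n := by exact_mod_cast h.npos
  have hd : (0 : ℝ) < d := by exact_mod_cast h.dpos
  have hσ0 := h.nonneg
  -- the inequality at the vertices
  have key : S (fun e => cw (amR 1 l c) y (toF c.2) e.2.1 * (1 / 4)) l ≤
      S (fun e => cw (amR 1 l c) y (toF c.2) e.2.1 * df (toF c.1) x e.1) l := by
    refine S_weight (fun e => e.2.1) (fun e he => (h.lt e he).2)
      (cw (amR 1 l c) y (toF c.2)) (cw_cases _ _ _) (fun _ => 1 / 4)
      (fun e => df (toF c.1) x e.1) fun u hu hcw => ?_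
    unfold cw at hcw
    have hna : ¬ amR 1 l c u = true := by
      intro ha
      rw [if_pos ha] at hcw
      exact zero_ne_one hcw
    rw [if_neg hna] at hcw
    unfold amR at hna
    rw [decide_eq_true_eq, hd', one_mul, not_le] at hna
    have h2 := cR_eq h c.1 u _ (toF c.2) rfl hc
    have h3 : 4 * S (fun e => if e.2.1 = u then vio (toF c.1) (toF c.2) e else 0) l ≤ d := by
      rw [← h2]
      unfold toF
      exact_mod_cast hna.le
    have h4 := h.right u hu
    have h5 : S (fun e => if e.2.1 = u then (1 : ℝ) else 0) l ≤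
        S (fun e => if e.2.1 = u then vio x y e else 0) l +
        S (fun e => if e.2.1 = u then df (toF c.1) x e.1 else 0) l +
        S (fun e => if e.2.1 = u then vio (toF c.1) (toF c.2) e else 0) l := by
      rw [← S_add, ← S_add]
      refine S_le fun e he => ?_
      split_ifs with h6
      · have := vio_ge_right (x := x) (f := toF c.1) (g := toF c.2) (y := y) (e := e)
          (by rw [h6]; exact hcw)
        linarith
      · norm_num
    have h6 : S (fun e => if e.2.1 = u then vio x y e else 0) l ≤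
        S (fun e => if e.2.1 = u then vio (toF c.1) (toF c.2) e else 0) l +
        S (fun e => if e.2.1 = u then df (toF c.1) x e.1 else 0) l := by
      refine ((hy u hu).2 (toF c.2 u) (hc2 u hu)).trans ?_
      rw [← S_add]
      refine S_le fun e he => ?_
      split_ifs with h7
      · rcases df_cases (toF c.1) x e.1 with h8 | h8
        · rw [h8, add_zero]
          unfold vio
          rw [← h7, df_eq h8]
        · rw [h8]
          have := vio_nonneg (toF c.1) (toF c.2) e
          have := vio_le_one x (fun _ => toF c.2 u) e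
          linarith
      · norm_num
    have h7 : S (fun e => if e.2.1 = u then (1 / 4 : ℝ) else 0) l = d / 4 := by
      rw [← h4]
      have : S (fun e => if e.2.1 = u then (1 / 4 : ℝ) else 0) l =
          S (fun e => 1 / 4 * (if e.2.1 = u then (1 : ℝ) else 0)) l :=
        S_congr fun e _ => by split_ifs <;> norm_num
      rw [this, S_mul]
      ring
    rw [h7]
    linarith
  have h1 : d / 4 * ∑ u ∈ range n, cw (amR 1 l c) y (toF c.2) u =
      S (fun e => cw (amR 1 l c) y (toF c.2) e.2.1 * (1 / 4)) l := by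
    rw [h.sum_right fun u => cw (amR 1 l c) y (toF c.2) u * (1 / 4), ← sum_mul]
    ring
  rw [← h1] at key
  -- mixing
  have mixx := h.bil_le' (df (toF c.1) x) (cw (amR 1 l c) y (toF c.2))
  have e0 : S (fun e => df (toF c.1) x e.1 * cw (amR 1 l c) y (toF c.2) e.2.1) l =
      S (fun e => cw (amR 1 l c) y (toF c.2) e.2.1 * df (toF c.1) x e.1) l :=
    S_congr fun e _ => mul_comm _ _
  rw [e0] at mixx
  have sq1 : ∑ u ∈ range n, cw (amR 1 l c) y (toF c.2) u ^ 2 =
      ∑ u ∈ range n, cw (amR 1 l c) y (toF c.2) u := by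
    refine sum_congr rfl fun u _ => ?_
    rcases cw_cases (amR 1 l c) y (toF c.2) u with h1 | h1 <;> rw [h1] <;> norm_num
  have p0 : 0 ≤ ∑ u ∈ range n, cw (amR 1 l c) y (toF c.2) u :=
    sum_nonneg fun u _ => cw_nonneg _ _ _ _
  have a0 := sum_df_nonneg (n := n) (toF c.1) x
  rw [sq1, sum_df_sq, abs_of_nonneg p0, abs_of_nonneg a0] at mixx
  clear h1 e0 sq1
  generalize (∑ u ∈ range n, cw (amR 1 l c) y (toF c.2) u) = P at *
  generalize (∑ u ∈ range n, df (toF c.1) x u) = B at *
  have h1 : d / n * (B * P) ≤ d * (P / 16) := by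
    have : B * P ≤ n * (P / 16) := by nlinarith
    calc d / n * (B * P) ≤ d / n * (n * (P / 16)) := mul_le_mul_of_nonneg_left this (by positivity)
      _ = _ := by field_simp
  have h2 : σ * (√B * √P) ≤ 3 / 32 * P + 8 / 3 * (σ ^ 2 * B) := by
    have e1 := Real.sq_sqrt a0
    have e2 := Real.sq_sqrt p0
    nlinarith [sq_nonneg (3 / 16 * √P - σ * √B)]
  have h3 : d * (P / 4) ≤ d * (P / 16 + (3 / 32 * P + 8 / 3 * (σ ^ 2 * B))) := by
    have := mul_le_mul_of_nonneg_left h2 hd.le
    nlinarith
  have h4 := le_of_mul_le_mul_left h3 hd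
  have h5 : 0 ≤ σ ^ 2 * B := by positivity
  nlinarith

/-- **The target of the second part.** -/
theorem target (h : Xq n d q σ l) (hσ : σ ≤ 1 / 64) {x y : ℕ → ℕ} (hx : BestL n q l x y)
    (hy : BestR n q l x y) (c : List ℕ × List ℕ) (hc : ∀ u < n, toF c.1 u < q)
    (hc2 : ∀ u < n, toF c.2 u < q) (hA : ∑ u ∈ range n, df (toF c.1) x u ≤ 1 / 16 * n)
    (hB : ∑ u ∈ range n, df (toF c.2) y u ≤ 1 / 16 * n)
    (hV : V l (toF c.1) (toF c.2) ≤ 2 * V l x y) :
    V l (tgt (amL 1 l c) x (toF c.1)) (tgt (amR 1 l c) y (toF c.2)) ≤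
        (1 + 232 * σ ^ 2) * V l x y ∧
    d * (((range n).filter fun u => amL 1 l c u = true).card : ℝ) ≤ 8 * V l x y ∧
    d * (((range n).filter fun u => amR 1 l c u = true).card : ℝ) ≤ 8 * V l x y := by
  have hd : (0 : ℝ) < d := by exact_mod_cast h.dpos
  have h1 := V_tgt h (amL 1 l c) (amR 1 l c) x y (toF c.1) (toF c.2)
  have h2 := clear_left h hx c hc hB
  have h3 := clear_right h (fun u hu => (hx u hu).1) hy c hc hc2 hA
  have h4 := wrong_le h hσ (fun u hu => (hx u hu).1) hc hA hB hV
  obtain ⟨h5, h6⟩ := card_amb h c hc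
  refine ⟨?_, by linarith, by linarith⟩
  have h7 := mul_le_mul_of_nonneg_left h2 hd.le
  have h8 := mul_le_mul_of_nonneg_left h3 hd.le
  have h9 := mul_le_mul_of_nonneg_left h4 (by positivity : 0 ≤ 29 * σ ^ 2)
  nlinarith

end

end Pool.Agent.K6.H49.UGS
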