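import Pool.Agent.K6.H49.UGS.Amb

/-!
# The second part of the algorithm, for good seeds
-/

set_option autoImplicit false

open Finset

namespace Pool.Agent.K6.H49.UGS

open Pool.Agent.K6.H49.UGX (Edge)
open Pool.Agent.K6.H49.UGQ

section

variable {n d q : ℕ} {σ : ℝ} {l : List Edge}
variable {ψ : Fin (n * q) → ℕ → ℝ} {μ : Fin (n * q) → ℝ}

theorem abs_S_le {α : Type} {F G : α → ℝ} {l : List α} (h : ∀ e ∈ l, |F e| ≤ G e) :
    |S F l| ≤ S G l := by
  rw [abs_le]
  constructor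
  · have h1 : S (fun e => -1 * G e) l ≤ S F l := S_le fun e he => by
      have := (abs_le.1 (h e he)).1
      linarith
    rw [S_mul] at h1
    linarith
  · exact S_le fun e he => (abs_le.1 (h e he)).2

theorem Atf_sq_le (h : Xq n d q σ l) (iL iR : ℕ → Bool) (x : ℕ → ℝ) :
    ∑ s ∈ range (n * q), At (UGQ.ext q (lf iL iR l)) x s ^ 2 ≤
      d ^ 2 * ∑ s ∈ range (n * q), x s ^ 2 := by
  have h1 := At_sq_le h fun r => |x r|
  simp only [sq_abs] at h1
  refine (sum_le_sum fun s _ => ?_).trans h1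
  refine sq_le_sq' ?_ ?_
  · have h2 : |At (UGQ.ext q (lf iL iR l)) x s| ≤ At (UGQ.ext q l) (fun r => |x r|) s := ?_
    · exact (abs_le.1 h2).1
    unfold At
    rw [S_ext, S_ext]
    unfold lf
    rw [S_filter]
    refine abs_S_le fun e _ => ?_
    have h3 : |∑ i ∈ range q, if e.2.1 * q + tb e i = s then x (e.1 * q + i) else 0| ≤
        ∑ i ∈ range q, if e.2.1 * q + tb e i = s then |x (e.1 * q + i)| else 0 := by
      refine (abs_sum_le_sum_abs _ _).trans (sum_le_sum fun i _ => ?_)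
      split_ifs
      · exact le_rfl
      · rw [abs_zero]
    split_ifs
    · exact h3
    · rw [abs_zero]
      exact (abs_nonneg _).trans h3
  · have h2 : |At (UGQ.ext q (lf iL iR l)) x s| ≤ At (UGQ.ext q l) (fun r => |x r|) s := ?_
    · exact (abs_le.1 h2).2
    unfold At
    rw [S_ext, S_ext]
    unfold lf
    rw [S_filter]
    refine abs_S_le fun e _ => ?_
    have h3 : |∑ i ∈ range q, if e.2.1 * q + tb e i = s then x (e.1 * q + i) else 0| ≤
        ∑ i ∈ range q, if e.2.1 * q + tb e i = s then |x (e.1 * q + i)| else 0 := by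
      refine (abs_sum_le_sum_abs _ _).trans (sum_le_sum fun i _ => ?_)
      split_ifs
      · exact le_rfl
      · rw [abs_zero]
    split_ifs
    · exact h3
    · rw [abs_zero]
      exact (abs_nonneg _).trans h3

theorem eigf_quad (h : Xq n d q σ l) (iL iR : ℕ → Bool)
    (hb : Bs (n * q) (UGQ.ext q (lf iL iR l)) ψ μ) (k m : Fin (n * q)) :
    ∑ s ∈ range (n * q), At (UGQ.ext q (lf iL iR l)) (ψ k) s *
      At (UGQ.ext q (lf iL iR l)) (ψ m) s = if k = m then μ m else 0 := by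
  rw [← inner_Mo (extf_lt h iL iR)]
  have : ∑ r ∈ range (n * q), ψ k r * Mo (UGQ.ext q (lf iL iR l)) (ψ m) r =
      μ m * ∑ r ∈ range (n * q), ψ k r * ψ m r := by
    rw [mul_sum]
    refine sum_congr rfl fun r hr => ?_
    rw [hb.eig m r (mem_range.1 hr)]
    ring
  rw [this, hb.orth]
  split_ifs <;> simp

theorem eigf_nonneg (h : Xq n d q σ l) (iL iR : ℕ → Bool)
    (hb : Bs (n * q) (UGQ.ext q (lf iL iR l)) ψ μ) (k : Fin (n * q)) : 0 ≤ μ k := by
  have := eigf_quad h iL iR hb k k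
  rw [if_pos rfl] at this
  rw [← this]
  exact sum_nonneg fun s _ => mul_self_nonneg _

theorem eigf_le (h : Xq n d q σ l) (iL iR : ℕ → Bool)
    (hb : Bs (n * q) (UGQ.ext q (lf iL iR l)) ψ μ) (k : Fin (n * q)) : μ k ≤ (d : ℝ) ^ 2 := by
  have h1 := eigf_quad h iL iR hb k k
  rw [if_pos rfl] at h1
  have h2 := Atf_sq_le h iL iR (ψ k)
  have h3 := nrm_one hb k
  rw [nrm_eq] at h3
  rw [h3, mul_one] at h2
  rw [← h1]
  refine le_trans (le_of_eq ?_) h2
  exact sum_congr rfl fun s _ => (sq _).symm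

/-- **The number of the large eigenvalues of a part.** -/
theorem card_big (h : Xq n d q σ l) (iL iR : ℕ → Bool)
    (hb : Bs (n * q) (UGQ.ext q (lf iL iR l)) ψ μ) {Q : ℕ} (hQ : 0 < Q) {ν : ℝ}
    (hL : (((range n).filter fun u => iL u = true).card : ℝ) ≤ ν * n)
    (hR : (((range n).filter fun u => iR u = true).card : ℝ) ≤ ν * n) (hν0 : 0 ≤ ν)
    (hc : 16 * Q * (σ * (σ + ν)) ≤ 1) :
    ((univ.filter fun k => (d : ℝ) ^ 2 ≤ 4 * Q * μ k).card : ℝ) ≤
      8 * Q * (q * ν * (σ + ν)) := by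
  have hd : (0 : ℝ) < d := by exact_mod_cast h.dpos
  have hQ' : (0 : ℝ) < Q := by exact_mod_cast hQ
  have hσ0 := h.nonneg
  rcases hν0.eq_or_lt with hν | hν
  · -- no vertices
    have h0 : ((range n).filter fun u => iL u = true).card = 0 := by
      rw [← hν, zero_mul] at hL
      have : ((((range n).filter fun u => iL u = true).card : ℕ) : ℝ) = 0 :=
        le_antisymm hL (by positivity)
      exact_mod_cast this
    have h1 : lf iL iR l = [] := by
      rw [List.eq_nil_iff_forall_not_mem]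
      intro e he
      obtain ⟨h2, h3, _⟩ := lf_sub iL iR he
      have h4 : e.1 ∈ (range n).filter fun u => iL u = true :=
        mem_filter.2 ⟨mem_range.2 (h.lt e h2).1, h3⟩
      rw [card_eq_zero] at h0
      rw [h0] at h4
      exact absurd h4 (notMem_empty _)
    have h2 : ∀ k, μ k = 0 := by
      intro k
      have h3 := eigf_quad h iL iR hb k k
      rw [if_pos rfl, h1] at h3
      rw [← h3]
      refine sum_eq_zero fun s _ => ?_
      unfold At UGQ.ext S
      simp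
    have h3 : (univ.filter fun k => (d : ℝ) ^ 2 ≤ 4 * Q * μ k) = ∅ := by
      rw [filter_eq_empty_iff]
      intro k _ hk
      rw [h2 k, mul_zero] at hk
      have : 0 < (d : ℝ) ^ 2 := by positivity
      linarith
    rw [h3, ← hν]
    simp
  have hpos : 0 < σ + ν := by linarith
  set E := UGQ.ext q (lf iL iR l) with hE
  set s := univ.filter fun k => (d : ℝ) ^ 2 ≤ 4 * Q * μ k with hs
  set φ : Fin s.card → Fin (n * q) := fun j => s.orderEmbOfFin rfl j with hφ
  have hφinj : ∀ j m, φ j = φ m → j = m := fun j m hjm => (s.orderEmbOfFin rfl).injective hjm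
  have hmem : ∀ j, (d : ℝ) ^ 2 ≤ 4 * Q * μ (φ j) := by
    intro j
    have := orderEmbOfFin_mem s rfl j
    exact (mem_filter.1 this).2
  have mpos : ∀ j, 0 < μ (φ j) := by
    intro j
    have h1 := hmem j
    have h2 : 0 < (d : ℝ) ^ 2 := by positivity
    by_contra hcon
    push Not at hcon
    nlinarith
  have o2 : ∀ j k, ∑ r ∈ range (n * q), (At E (ψ (φ j)) r / √(μ (φ j))) *
      (At E (ψ (φ k)) r / √(μ (φ k))) = if j = k then 1 else 0 := by
    intro j k
    have e1 : ∀ r, (At E (ψ (φ j)) r / √(μ (φ j))) * (At E (ψ (φ k)) r / √(μ (φ k))) =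
        (At E (ψ (φ j)) r * At E (ψ (φ k)) r) / (√(μ (φ j)) * √(μ (φ k))) := fun r =>
      div_mul_div_comm _ _ _ _
    simp only [e1]
    rw [← sum_div, eigf_quad h iL iR hb]
    by_cases hjk : j = k
    · rw [if_pos (by rw [hjk]), if_pos hjk, hjk, Real.mul_self_sqrt (mpos k).le,
        div_self (mpos k).ne']
    · rw [if_neg fun h' => hjk (hφinj j k h'), if_neg hjk, zero_div]
  have hδ : (0 : ℝ) < 1 / (2 * √Q) := by
    have := Real.sqrt_pos.2 hQ'
    positivity
  have hδ2 : (1 / (2 * √(Q : ℝ))) ^ 2 = 1 / (4 * Q) := by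
    rw [div_pow, mul_pow, Real.sq_sqrt hQ'.le]
    norm_num
  have h5 := count_bound h iL iR (fun j => ψ (φ j)) (fun j r => At E (ψ (φ j)) r / √(μ (φ j)))
    (by
      intro j k
      rw [hb.orth]
      by_cases hjk : j = k
      · rw [if_pos hjk, if_pos (by rw [hjk])]
      · rw [if_neg hjk, if_neg fun h' => hjk (hφinj j k h')]) o2 hδ hL hR hpos
    (by
      rw [hδ2, le_div_iff₀ (by positivity)]
      linarith)
    (by
      intro j
      have e1 : Bf q (lf iL iR l) (ψ (φ j)) (fun r => At E (ψ (φ j)) r / √(μ (φ j))) =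
          √(μ (φ j)) := by
        rw [← Bi_ext, ← adj_right (extf_lt h iL iR)]
        have e2 : ∀ r, At E (ψ (φ j)) r / √(μ (φ j)) *
            At (UGQ.ext q (lf iL iR l)) (ψ (φ j)) r =
            (At E (ψ (φ j)) r * At E (ψ (φ j)) r) / √(μ (φ j)) := fun r => by ring
        simp only [e2]
        rw [← sum_div, eigf_quad h iL iR hb, if_pos rfl, Real.div_sqrt]
      rw [e1]
      refine Real.le_sqrt_of_sq_le ?_
      rw [mul_pow, hδ2]
      rw [one_div, inv_mul_le_iff₀ (by positivity)]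
      exact hmem j)
  rw [hδ2] at h5
  have h6 : (s.card : ℝ) ≤ 4 * Q * (2 * (q * ν * (σ + ν))) := by
    rw [mul_one_div, div_le_iff₀ (by positivity)] at h5
    linarith
  linarith

/-- **The second part, for good seeds.** -/
theorem sec_ok (h : Xq n d q σ l) (hq : 0 < q) (hσ1 : σ ≤ 1) (t : ℕ) (c : List ℕ × List ℕ)
    (hc2 : ∀ v < n, toF c.2 v < q) {x y : ℕ → ℕ} (hx : ∀ u < n, x u < q) (hy : ∀ v < n, y v < q)
    (hxc : ∀ u < n, ¬ amL t l c u = true → x u = toF c.1 u)
    (hyc : ∀ v < n, ¬ amR t l c v = true → y v = toF c.2 v) {ν : ℝ} (hν0 : 0 ≤ ν) (hν : ν ≤ 1)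
    (hL : (((range n).filter fun u => amL t l c u = true).card : ℝ) ≤ ν * n)
    (hR : (((range n).filter fun u => amR t l c u = true).card : ℝ) ≤ ν * n)
    {Q a s : ℕ} (hQ : 0 < Q) (hQσ : 16 * Q * (σ * (σ + ν)) ≤ 1)
    (hs : Q * (16 * Q * q + 1) ≤ s) (ha : Q ^ 2 * (n * q) ≤ 16 ^ a) :
    ∃ rs : List ℕ, rs.length = s ∧ (∀ r ∈ rs, r < n * q) ∧
      (∀ u < n, toF (sec n q l t c a (Q ^ (a + 1)) rs).1 u < q) ∧
      V l (toF (sec n q l t c a (Q ^ (a + 1)) rs).1) (toF (sec n q l t c a (Q ^ (a + 1)) rs).2) ≤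
        V l x y + 3 * (1 / √Q) * ν * (d * n) := by
  have hn : (0 : ℝ) < n := by exact_mod_cast h.npos
  have hd : (0 : ℝ) < d := by exact_mod_cast h.dpos
  have hQ' : (0 : ℝ) < Q := by exact_mod_cast hQ
  have hq' : (0 : ℝ) < q := by exact_mod_cast hq
  have hs0' : 0 < s := lt_of_lt_of_le (by positivity) hs
  have hs0 : (0 : ℝ) < s := by exact_mod_cast hs0'
  have hsR : (Q : ℝ) * (16 * Q * q + 1) ≤ s := by exact_mod_cast hs
  have hσ0 := h.nonneg
  obtain ⟨ψ, μ, o1, o2, o3⟩ := exists_basis (extf_lt h (amL t l c) (amR t l c))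
  have hb : Bs (n * q) (UGQ.ext q (lf (amL t l c) (amR t l c) l)) ψ μ := ⟨o1, o2, o3⟩
  have hKc := card_big h (amL t l c) (amR t l c) hb hQ hL hR hν0 hQσ
  have hK : ((univ.filter fun k => (d : ℝ) ^ 2 ≤ 4 * Q * μ k).card : ℝ) ≤ 16 * Q * q := by
    refine hKc.trans ?_
    have h1 : ν * (σ + ν) ≤ 1 * 2 := mul_le_mul hν (by linarith) (by linarith) (by norm_num)
    have h2 : 8 * (Q : ℝ) * (q * ν * (σ + ν)) = 8 * Q * q * (ν * (σ + ν)) := by ring
    rw [h2]
    have h3 : 8 * (Q : ℝ) * q * (ν * (σ + ν)) ≤ 8 * Q * q * (1 * 2) :=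
      mul_le_mul_of_nonneg_left h1 (by positivity)
    linarith
  obtain ⟨rs, r1, r2, r3⟩ := seeds (extf_lt h (amL t l c) (amR t l c)) hb
    (Nat.mul_pos h.npos hq) hd (eigf_nonneg h _ _ hb) (eigf_le h _ _ hb)
    ((range n).filter fun u => amL t l c u = true) (fun u => u * q + x u)
    (fun u hu => by
      have := (mem_filter.1 hu).1
      rw [mem_range] at this
      exact node_lt this (hx u this))
    (fun u hu v hv huv => by
      have h1 := (mem_filter.1 (mem_coe.1 hu)).1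
      have h2 := (mem_filter.1 (mem_coe.1 hv)).1
      rw [mem_range] at h1 h2
      exact ((node_inj (hx u h1) (hx v h2)).1 huv).1)
    hQ hK hs0' ha
  have hlen : 0 < rs.length := by rw [r1]; exact hs0'
  have hρ : (0 : ℝ) < d * (1 / √Q) := by
    have := Real.sqrt_pos.2 hQ'
    positivity
  have h2 : (2 : ℝ) / Q + 2 * (16 * (Q : ℝ) * q + 1) / s ≤ 4 / Q := by
    have h3 : 2 * (16 * (Q : ℝ) * q + 1) / s ≤ 2 / Q := by
      rw [div_le_div_iff₀ hs0 hQ']
      linarith
    have h4 : (4 : ℝ) / Q = 2 / Q + 2 / Q := by ring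
    linarith
  rw [← r1] at r3
  obtain ⟨s1, s2, s3⟩ := sec_le h hq t c hc2 hx hy hxc hyc a (Q ^ (a + 1)) hlen hρ r3
  refine ⟨rs, r1, r2, s1, s3.trans ?_⟩
  rw [r1]
  generalize (((range n).filter fun u => amL t l c u = true).card : ℝ) = κ at hL
  generalize (((range n).filter fun u => amR t l c u = true).card : ℝ) = κ' at hR
  have hϑ : (1 / √(Q : ℝ)) ^ 2 = 1 / Q := by
    rw [div_pow, Real.sq_sqrt hQ'.le]
    norm_num
  have hϑ0 : 0 < 1 / √(Q : ℝ) := by
    have := Real.sqrt_pos.2 hQ'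
    positivity
  generalize 1 / √(Q : ℝ) = ϑ at hϑ hϑ0 hρ
  have hκn : κ * d ^ 2 * (2 / Q + 2 * (16 * (Q : ℝ) * q + 1) / s) ≤ (ν * n) * d ^ 2 * (4 * ϑ ^ 2) := by
    rw [hϑ]
    have e1 : 0 ≤ (2 : ℝ) / Q + 2 * (16 * (Q : ℝ) * q + 1) / s := by positivity
    calc κ * d ^ 2 * (2 / Q + 2 * (16 * (Q : ℝ) * q + 1) / s) ≤
        (ν * n) * d ^ 2 * (2 / Q + 2 * (16 * (Q : ℝ) * q + 1) / s) :=
          mul_le_mul_of_nonneg_right (mul_le_mul_of_nonneg_right hL (by positivity)) e1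
      _ ≤ (ν * n) * d ^ 2 * (4 * (1 / Q)) := by
          refine mul_le_mul_of_nonneg_left ?_ (by positivity)
          calc _ ≤ (4 : ℝ) / Q := h2
            _ = _ := by ring
  have e2 : κ * d ^ 2 * (2 / Q + 2 * (16 * (Q : ℝ) * q + 1) / s) / (2 * (d * ϑ)) ≤
      2 * ϑ * ν * (d * n) := by
    rw [div_le_iff₀ (by positivity)]
    refine hκn.trans (le_of_eq ?_)
    ring
  have e3 : d * ϑ * κ' ≤ d * ϑ * (ν * n) := mul_le_mul_of_nonneg_left hR (by positivity)
  linarith

end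

end Pool.Agent.K6.H49.UGS
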