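import Pool.Agent.K6.H49.UGR.Root

/-!
# Square roots of Gram matrices: an inequality of Hölder type and the norm of a sum
-/

set_option autoImplicit false

open Finset

namespace Pool.Agent.K6.H49.UGS

open Pool.Agent.K6.H49.UGR (sym_basis fr expand sq_expand fr_basis fr_basis' card_orth)

/-- The singular values `s` of `W` (with `q` rows) and the right singular vectors `w`. -/
structure Sp (m q : ℕ) (W : ℕ → Fin m → ℝ) (w : Fin m → Fin m → ℝ) (s : Fin m → ℝ) : Prop where
  orth : ∀ k k', ∑ i, w k i * w k' i = if k = k' then 1 else 0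
  comp : ∀ i j, ∑ k, w k i * w k j = if i = j then 1 else 0
  nn : ∀ k, 0 ≤ s k
  gram : ∀ k k', ∑ a ∈ range q, (∑ j, W a j * w k j) * (∑ j, W a j * w k' j) =
    if k = k' then s k ^ 2 else 0

/-- The square root of the Gram matrix. -/
def rt {m : ℕ} (w : Fin m → Fin m → ℝ) (s : Fin m → ℝ) (i j : Fin m) : ℝ :=
  ∑ k, s k * (w k i * w k j)

theorem exists_sp {m q : ℕ} (W : ℕ → Fin m → ℝ) : ∃ w s, Sp m q W w s := by
  classical
  obtain ⟨w, ev, ho, hc, he⟩ := sym_basis (fun i j => ∑ a ∈ range q, W a i * W a j)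
    fun i j => sum_congr rfl fun a _ => mul_comm _ _
  have hWW : ∀ k k', ∑ a ∈ range q, (∑ j, W a j * w k j) * (∑ j, W a j * w k' j) =
      if k = k' then ev k else 0 := by
    intro k k'
    have h1 : ∑ a ∈ range q, (∑ j, W a j * w k j) * (∑ j, W a j * w k' j) =
        ∑ i, w k i * ∑ j, (∑ a ∈ range q, W a i * W a j) * w k' j := by
      have g1 : ∀ a, (∑ j, W a j * w k j) * (∑ j, W a j * w k' j) =
          ∑ i, ∑ j, w k i * (W a i * W a j * w k' j) := by
        intro a
        rw [sum_mul_sum]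
        exact sum_congr rfl fun i _ => sum_congr rfl fun j _ => by ring
      simp only [g1, mul_sum, sum_mul]
      rw [sum_comm]
      refine sum_congr rfl fun i _ => ?_
      rw [sum_comm]
    rw [h1]
    simp only [he]
    have h2 : ∀ i, w k i * (ev k' * w k' i) = ev k' * (w k i * w k' i) := fun i => by ring
    simp only [h2]
    rw [← mul_sum, ho]
    split_ifs with h
    · rw [h, mul_one]
    · rw [mul_zero]
  have hev : ∀ k, 0 ≤ ev k := by
    intro k
    have h1 := hWW k k
    rw [if_pos rfl] at h1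
    rw [← h1]
    exact sum_nonneg fun a _ => mul_self_nonneg _
  refine ⟨w, fun k => √(ev k), ho, hc, fun k => Real.sqrt_nonneg _, fun k k' => ?_⟩
  rw [hWW]
  split_ifs
  · exact (Real.sq_sqrt (hev k)).symm
  · rfl

/-- Bessel's inequality. -/
theorem bessel {m q : ℕ} (f : Fin m → ℕ → ℝ) (e : Fin m → ℝ) (he : ∀ k, e k ≤ 1)
    (h : ∀ k k', ∑ a ∈ range q, f k a * f k' a = if k = k' then e k else 0) (v : ℕ → ℝ) :
    ∑ k, (∑ a ∈ range q, f k a * v a) ^ 2 ≤ ∑ a ∈ range q, v a ^ 2 := by
  set c : Fin m → ℝ := fun k => ∑ a ∈ range q, f k a * v a with hc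
  have h0 : 0 ≤ ∑ a ∈ range q, (v a - ∑ k, c k * f k a) ^ 2 := sum_nonneg fun a _ => sq_nonneg _
  have h1 : ∑ a ∈ range q, (v a - ∑ k, c k * f k a) ^ 2 =
      (∑ a ∈ range q, v a ^ 2) - 2 * (∑ k, c k ^ 2) + ∑ k, c k ^ 2 * e k := by
    have e1 : ∀ a, (v a - ∑ k, c k * f k a) ^ 2 =
        v a ^ 2 - 2 * (∑ k, c k * (f k a * v a)) +
          ∑ k, ∑ k', c k * c k' * (f k a * f k' a) := by
      intro a
      have : (∑ k, c k * f k a) ^ 2 = ∑ k, ∑ k', c k * c k' * (f k a * f k' a) := by
        rw [sq, sum_mul_sum]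
        exact sum_congr rfl fun k _ => sum_congr rfl fun k' _ => by ring
      rw [← this]
      have h2 : ∑ k, c k * (f k a * v a) = (∑ k, c k * f k a) * v a := by
        rw [sum_mul]
        exact sum_congr rfl fun k _ => by ring
      rw [h2]
      ring
    simp only [e1]
    rw [sum_add_distrib, sum_sub_distrib, ← mul_sum]
    congr 1
    · congr 2
      rw [sum_comm]
      refine sum_congr rfl fun k _ => ?_
      rw [← mul_sum, sq]
    · rw [sum_comm]
      refine sum_congr rfl fun k _ => ?_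
      rw [sum_comm]
      simp only [← mul_sum, h]
      rw [sum_eq_single k]
      · rw [if_pos rfl]; ring
      · intro k' _ hk'
        rw [if_neg (Ne.symm hk'), mul_zero]
      · intro hh
        exact absurd (mem_univ k) hh
  have h2 : ∑ k, c k ^ 2 * e k ≤ ∑ k, c k ^ 2 := by
    refine sum_le_sum fun k _ => ?_
    have := mul_le_mul_of_nonneg_left (he k) (sq_nonneg (c k))
    linarith
  linarith

section

variable {m q : ℕ} {W W' : ℕ → Fin m → ℝ} {w w' : Fin m → Fin m → ℝ} {s t : Fin m → ℝ}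

theorem Sp.fr_eq (h : Sp m q W w s) : fr q W = ∑ k, s k ^ 2 := by
  unfold fr
  rw [← fr_basis h.comp W]
  refine sum_congr rfl fun k _ => ?_
  have := h.gram k k
  rw [if_pos rfl] at this
  rw [← this]
  exact sum_congr rfl fun a _ => sq _

theorem Sp.nrm (h : Sp m q W w s) (x : Fin m → ℝ) :
    ∑ a ∈ range q, (∑ j, W a j * x j) ^ 2 = ∑ k, s k ^ 2 * (∑ j, w k j * x j) ^ 2 := by
  have h1 : ∀ a, ∑ j, W a j * x j = ∑ k, (∑ j, w k j * x j) * (∑ j, W a j * w k j) := by
    intro a
    calc ∑ j, W a j * x j = ∑ j, W a j * ∑ k, (∑ i, w k i * x i) * w k j := by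
          refine sum_congr rfl fun j _ => ?_
          rw [← expand h.comp x j]
      _ = _ := by
          simp only [mul_sum]
          rw [sum_comm]
          exact sum_congr rfl fun k _ => sum_congr rfl fun j _ => by ring
  simp only [h1]
  have h2 : ∀ a, (∑ k, (∑ j, w k j * x j) * (∑ j, W a j * w k j)) ^ 2 =
      ∑ k, ∑ k', (∑ j, w k j * x j) * (∑ j, w k' j * x j) *
        ((∑ j, W a j * w k j) * (∑ j, W a j * w k' j)) := by
    intro a
    rw [sq, sum_mul_sum]
    exact sum_congr rfl fun k _ => sum_congr rfl fun k' _ => by ring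
  simp only [h2]
  rw [sum_comm]
  refine sum_congr rfl fun k _ => ?_
  rw [sum_comm]
  simp only [← mul_sum, h.gram]
  rw [sum_eq_single k]
  · rw [if_pos rfl]; ring
  · intro k' _ hk'
    rw [if_neg (Ne.symm hk'), mul_zero]
  · intro hh
    exact absurd (mem_univ k) hh

theorem Sp.card (h : Sp m q W w s) : (univ.filter fun k => s k ≠ 0).card ≤ q := by
  have h1 := card_orth (fun k a => ∑ j, W a j * w k j) (fun k => s k ^ 2) h.gram
  refine le_trans (le_of_eq ?_) h1
  congr 1
  ext k
  simp

theorem rt_mul (w w' : Fin m → Fin m → ℝ) (s t : Fin m → ℝ) :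
    ∑ i, ∑ j, rt w s i j * rt w' t i j = ∑ k, ∑ k', s k * t k' * (∑ i, w k i * w' k' i) ^ 2 := by
  unfold rt
  have h1 : ∀ i j, (∑ k, s k * (w k i * w k j)) * (∑ k, t k * (w' k i * w' k j)) =
      ∑ k, ∑ k', s k * t k' * ((w k i * w' k' i) * (w k j * w' k' j)) := by
    intro i j
    rw [sum_mul_sum]
    exact sum_congr rfl fun k _ => sum_congr rfl fun k' _ => by ring
  simp only [h1]
  have h2 : ∀ k k', s k * t k' * (∑ i, w k i * w' k' i) ^ 2 =
      ∑ i, ∑ j, s k * t k' * ((w k i * w' k' i) * (w k j * w' k' j)) := by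
    intro k k'
    rw [sq, sum_mul_sum, mul_sum]
    exact sum_congr rfl fun i _ => mul_sum _ _ _
  simp only [h2]
  calc _ = ∑ i, ∑ k, ∑ j, ∑ k', s k * t k' * ((w k i * w' k' i) * (w k j * w' k' j)) :=
        sum_congr rfl fun i _ => sum_comm
    _ = ∑ k, ∑ i, ∑ j, ∑ k', s k * t k' * ((w k i * w' k' i) * (w k j * w' k' j)) := sum_comm
    _ = ∑ k, ∑ i, ∑ k', ∑ j, s k * t k' * ((w k i * w' k' i) * (w k j * w' k' j)) :=
        sum_congr rfl fun k _ => sum_congr rfl fun i _ => sum_comm
    _ = _ := sum_congr rfl fun k _ => sum_comm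

theorem Sp.rt_sq (h : Sp m q W w s) : ∑ i, ∑ j, rt w s i j ^ 2 = fr q W := by
  have h1 : ∀ i j, rt w s i j ^ 2 = rt w s i j * rt w s i j := fun i j => sq _
  simp only [h1]
  rw [rt_mul, h.fr_eq]
  refine sum_congr rfl fun k _ => ?_
  rw [sum_eq_single k]
  · rw [h.orth, if_pos rfl]; ring
  · intro k' _ hk'
    rw [h.orth, if_neg (Ne.symm hk')]
    ring
  · intro hh
    exact absurd (mem_univ k) hh

/-- **The inequality of Hölder type.** -/
theorem holder (h : Sp m q W w s) (h' : Sp m q W' w' t) {η : ℝ} (hη : 0 < η) :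
    ∑ a ∈ range q, ∑ j, W a j * W' a j ≤ 1 / (2 * η) * ∑ i, ∑ j, rt w s i j * rt w' t i j +
      η / 2 * (√(fr q W) * √(fr q W')) := by
  set A : Fin m → ℕ → ℝ := fun k a => ∑ j, W a j * w k j with hA
  set B : Fin m → ℕ → ℝ := fun k a => ∑ j, W' a j * w' k j with hB
  set G : Fin m → Fin m → ℝ := fun k k' => ∑ j, w k j * w' k' j with hG
  set P : Fin m → Fin m → ℝ := fun k k' => ∑ a ∈ range q, A k a * B k' a with hP
  -- expansion
  have h1 : ∑ a ∈ range q, ∑ j, W a j * W' a j = ∑ k, ∑ k', G k k' * P k k' := by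
    have e1 : ∀ a, ∑ j, W a j * W' a j = ∑ k, ∑ k', G k k' * (A k a * B k' a) := by
      intro a
      have e2 : ∀ j, W a j = ∑ k, A k a * w k j := by
        intro j
        rw [expand h.comp (fun j => W a j) j]
        refine sum_congr rfl fun k _ => ?_
        simp only [hA]
        congr 1
        exact sum_congr rfl fun i _ => mul_comm _ _
      have e3 : ∀ j, W' a j = ∑ k, B k a * w' k j := by
        intro j
        rw [expand h'.comp (fun j => W' a j) j]
        refine sum_congr rfl fun k _ => ?_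
        simp only [hB]
        congr 1
        exact sum_congr rfl fun i _ => mul_comm _ _
      calc ∑ j, W a j * W' a j = ∑ j, (∑ k, A k a * w k j) * (∑ k', B k' a * w' k' j) := by
            refine sum_congr rfl fun j _ => ?_
            rw [← e2, ← e3]
        _ = ∑ j, ∑ k, ∑ k', (w k j * w' k' j) * (A k a * B k' a) := by
            refine sum_congr rfl fun j _ => ?_
            rw [sum_mul_sum]
            exact sum_congr rfl fun k _ => sum_congr rfl fun k' _ => by ring
        _ = _ := by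
            rw [sum_comm]
            refine sum_congr rfl fun k _ => ?_
            rw [sum_comm]
            refine sum_congr rfl fun k' _ => ?_
            rw [← sum_mul]
    simp only [e1]
    rw [sum_comm]
    refine sum_congr rfl fun k _ => ?_
    rw [sum_comm]
    refine sum_congr rfl fun k' _ => ?_
    rw [← mul_sum]
  have zA : ∀ k, s k = 0 → ∀ a ∈ range q, A k a = 0 := by
    intro k hk a ha
    have h2 := h.gram k k
    rw [if_pos rfl, hk] at h2
    have h3 : ∑ a ∈ range q, A k a * A k a = 0 := by rw [h2]; ring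
    rw [sum_eq_zero_iff_of_nonneg fun a _ => mul_self_nonneg _] at h3
    exact mul_self_eq_zero.1 (h3 a ha)
  have zB : ∀ k, t k = 0 → ∀ a ∈ range q, B k a = 0 := by
    intro k hk a ha
    have h2 := h'.gram k k
    rw [if_pos rfl, hk] at h2
    have h3 : ∑ a ∈ range q, B k a * B k a = 0 := by rw [h2]; ring
    rw [sum_eq_zero_iff_of_nonneg fun a _ => mul_self_nonneg _] at h3
    exact mul_self_eq_zero.1 (h3 a ha)
  have h2 : ∀ k k', G k k' * P k k' ≤ 1 / (2 * η) * (s k * t k' * G k k' ^ 2) +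
      η / 2 * ((P k k' / s k) * (P k k' / t k')) := by
    intro k k'
    rcases (h.nn k).eq_or_lt with hs | hs
    · have : P k k' = 0 := sum_eq_zero fun a ha => by rw [zA k hs.symm a ha, zero_mul]
      rw [this, ← hs]
      simp
    · rcases (h'.nn k').eq_or_lt with ht | ht
      · have : P k k' = 0 := sum_eq_zero fun a ha => by rw [zB k' ht.symm a ha, mul_zero]
        rw [this, ← ht]
        simp
      · have e1 : 1 / (2 * η) * (s k * t k' * G k k' ^ 2) +
            η / 2 * ((P k k' / s k) * (P k k' / t k')) - G k k' * P k k' =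
            1 / (2 * η * (s k * t k')) * (s k * t k' * G k k' - η * P k k') ^ 2 := by
          field_simp
          ring
        have e2 : 0 ≤ 1 / (2 * η * (s k * t k')) * (s k * t k' * G k k' - η * P k k') ^ 2 := by
          positivity
        linarith
  -- Bessel
  have b1 : ∑ k, ∑ k', (P k k' / s k) ^ 2 ≤ fr q W' := by
    rw [sum_comm, h'.fr_eq]
    refine sum_le_sum fun k' _ => ?_
    have g1 := bessel (q := q) (fun k a => A k a / s k) (fun k => if s k = 0 then 0 else 1)
      (fun k => by split_ifs <;> norm_num) (fun k k1 => by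
        have e1 : ∑ a ∈ range q, A k a / s k * (A k1 a / s k1) =
            (∑ a ∈ range q, A k a * A k1 a) / (s k * s k1) := by
          rw [sum_div]
          exact sum_congr rfl fun a _ => by rw [div_mul_div_comm]
        rw [e1, h.gram]
        by_cases hk : k = k1
        · rw [if_pos hk, if_pos hk, ← hk]
          by_cases hs : s k = 0
          · rw [if_pos hs, hs]; simp
          · rw [if_neg hs]
            field_simp
        · rw [if_neg hk, if_neg hk, zero_div]) (B k')
    have e2 : ∑ a ∈ range q, B k' a ^ 2 = t k' ^ 2 := by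
      have := h'.gram k' k'
      rw [if_pos rfl] at this
      rw [← this]
      exact sum_congr rfl fun a _ => sq _
    rw [e2] at g1
    refine le_trans (le_of_eq ?_) g1
    refine sum_congr rfl fun k _ => ?_
    congr 1
    simp only [hP]
    rw [sum_div]
    exact sum_congr rfl fun a _ => by ring
  have b2 : ∑ k, ∑ k', (P k k' / t k') ^ 2 ≤ fr q W := by
    rw [h.fr_eq]
    refine sum_le_sum fun k _ => ?_
    have g1 := bessel (q := q) (fun k a => B k a / t k) (fun k => if t k = 0 then 0 else 1)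
      (fun k => by split_ifs <;> norm_num) (fun k k1 => by
        have e1 : ∑ a ∈ range q, B k a / t k * (B k1 a / t k1) =
            (∑ a ∈ range q, B k a * B k1 a) / (t k * t k1) := by
          rw [sum_div]
          exact sum_congr rfl fun a _ => by rw [div_mul_div_comm]
        rw [e1, h'.gram]
        by_cases hk : k = k1
        · rw [if_pos hk, if_pos hk, ← hk]
          by_cases hs : t k = 0
          · rw [if_pos hs, hs]; simp
          · rw [if_neg hs]
            field_simp
        · rw [if_neg hk, if_neg hk, zero_div]) (A k)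
    have e2 : ∑ a ∈ range q, A k a ^ 2 = s k ^ 2 := by
      have := h.gram k k
      rw [if_pos rfl] at this
      rw [← this]
      exact sum_congr rfl fun a _ => sq _
    rw [e2] at g1
    refine le_trans (le_of_eq ?_) g1
    refine sum_congr rfl fun k' _ => ?_
    congr 1
    simp only [hP]
    rw [sum_div]
    exact sum_congr rfl fun a _ => by ring
  have b3 : ∑ k, ∑ k', (P k k' / s k) * (P k k' / t k') ≤ √(fr q W) * √(fr q W') := by
    have e1 : ∑ k, ∑ k', (P k k' / s k) * (P k k' / t k') =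
        ∑ z : Fin m × Fin m, (P z.1 z.2 / s z.1) * (P z.1 z.2 / t z.2) := by
      rw [← univ_product_univ, sum_product]
    rw [e1]
    have e2 := Real.sum_mul_le_sqrt_mul_sqrt (univ : Finset (Fin m × Fin m))
      (fun z => P z.1 z.2 / s z.1) (fun z => P z.1 z.2 / t z.2)
    refine e2.trans ?_
    have e3 : ∑ z : Fin m × Fin m, (P z.1 z.2 / s z.1) ^ 2 =
        ∑ k, ∑ k', (P k k' / s k) ^ 2 := by
      rw [← univ_product_univ, sum_product]
    have e4 : ∑ z : Fin m × Fin m, (P z.1 z.2 / t z.2) ^ 2 =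
        ∑ k, ∑ k', (P k k' / t k') ^ 2 := by
      rw [← univ_product_univ, sum_product]
    rw [e3, e4, mul_comm]
    exact mul_le_mul (Real.sqrt_le_sqrt b2) (Real.sqrt_le_sqrt b1) (Real.sqrt_nonneg _)
      (Real.sqrt_nonneg _)
  rw [h1, rt_mul]
  refine (sum_le_sum fun k _ => sum_le_sum fun k' _ => h2 k k').trans ?_
  have e5 : ∑ k, ∑ k', (1 / (2 * η) * (s k * t k' * G k k' ^ 2) +
      η / 2 * ((P k k' / s k) * (P k k' / t k'))) =
      1 / (2 * η) * (∑ k, ∑ k', s k * t k' * G k k' ^ 2) +
      η / 2 * ∑ k, ∑ k', (P k k' / s k) * (P k k' / t k') := by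
    simp only [sum_add_distrib, mul_sum]
  rw [e5]
  have e6 := mul_le_mul_of_nonneg_left b3 (by positivity : 0 ≤ η / 2)
  linarith

end

/-- **The norm of a sum of square roots.** -/
theorem sum_norm {m q : ℕ} (U : Finset ℕ) (W : ℕ → ℕ → Fin m → ℝ)
    (w : ℕ → Fin m → Fin m → ℝ) (s : ℕ → Fin m → ℝ) (h : ∀ u ∈ U, Sp m q (W u) (w u) (s u))
    (hW : ∀ x : Fin m → ℝ, ∑ u ∈ U, ∑ a ∈ range q, (∑ j, W u a j * x j) ^ 2 ≤ ∑ j, x j ^ 2) :
    ∑ i, ∑ j, (∑ u ∈ U, rt (w u) (s u) i j) ^ 2 ≤ q * U.card := by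
  set Y : Fin m → Fin m → ℝ := fun i j => ∑ u ∈ U, rt (w u) (s u) i j with hY
  have hsym : ∀ i j, Y i j = Y j i := by
    intro i j
    simp only [hY]
    refine sum_congr rfl fun u _ => ?_
    unfold rt
    exact sum_congr rfl fun k _ => by ring
  -- the trace
  have h1 : ∑ i, ∑ j, Y i j ^ 2 = ∑ u ∈ U, ∑ k, s u k * ∑ i, ∑ j, w u k i * w u k j * Y i j := by
    have e1 : ∀ i j, Y i j ^ 2 = ∑ u ∈ U, ∑ k, s u k * (w u k i * w u k j * Y i j) := by
      intro i j
      rw [sq]
      conv_lhs => rw [show Y i j * Y i j = (∑ u ∈ U, rt (w u) (s u) i j) * Y i j from rfl]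
      rw [sum_mul]
      refine sum_congr rfl fun u _ => ?_
      unfold rt
      rw [sum_mul]
      exact sum_congr rfl fun k _ => by ring
    simp only [e1, mul_sum]
    calc _ = ∑ i, ∑ u ∈ U, ∑ j, ∑ k, s u k * (w u k i * w u k j * Y i j) :=
          sum_congr rfl fun i _ => sum_comm
      _ = ∑ u ∈ U, ∑ i, ∑ j, ∑ k, s u k * (w u k i * w u k j * Y i j) := sum_comm
      _ = _ := by
          refine sum_congr rfl fun u _ => ?_
          calc _ = ∑ i, ∑ k, ∑ j, s u k * (w u k i * w u k j * Y i j) :=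
                sum_congr rfl fun i _ => sum_comm
            _ = _ := sum_comm
  have h2 : ∀ u ∈ U, ∑ k, s u k * ∑ i, ∑ j, w u k i * w u k j * Y i j ≤
      q / 2 + 1 / 2 * ∑ i, ∑ a ∈ range q, (∑ j, W u a j * Y i j) ^ 2 := by
    intro u hu
    have hS := h u hu
    have e1 : ∀ k, s u k * ∑ i, ∑ j, w u k i * w u k j * Y i j ≤
        (if s u k ≠ 0 then 1 / 2 else 0) +
          1 / 2 * (s u k ^ 2 * ∑ i, (∑ j, w u k j * Y i j) ^ 2) := by
      intro k
      have e2 : ∑ i, ∑ j, w u k i * w u k j * Y i j = ∑ i, w u k i * ∑ j, w u k j * Y i j := by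
        refine sum_congr rfl fun i _ => ?_
        rw [mul_sum]
        exact sum_congr rfl fun j _ => by ring
      have e3 : (∑ i, w u k i * ∑ j, w u k j * Y i j) ^ 2 ≤
          ∑ i, (∑ j, w u k j * Y i j) ^ 2 := by
        have := sum_mul_sq_le_sq_mul_sq univ (w u k) fun i => ∑ j, w u k j * Y i j
        have e4 : ∑ i, w u k i ^ 2 = 1 := by
          have := hS.orth k k
          rw [if_pos rfl] at this
          rw [← this]
          exact sum_congr rfl fun i _ => sq _
        rw [e4, one_mul] at this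
        exact this
      rw [e2]
      generalize (∑ i, w u k i * ∑ j, w u k j * Y i j) = X at e3
      generalize (∑ i, (∑ j, w u k j * Y i j) ^ 2) = Z at e3
      by_cases hs : s u k = 0
      · rw [hs]; simp
      · rw [if_pos hs]
        have e5 : s u k ^ 2 * X ^ 2 ≤ s u k ^ 2 * Z := mul_le_mul_of_nonneg_left e3 (sq_nonneg _)
        nlinarith [sq_nonneg (s u k * X - 1)]
    refine (sum_le_sum fun k _ => e1 k).trans ?_
    rw [sum_add_distrib, ← sum_filter, sum_const, nsmul_eq_mul, ← mul_sum]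
    have e6 : ((univ.filter fun k => s u k ≠ 0).card : ℝ) ≤ q := by exact_mod_cast hS.card
    have e7 : ∑ k, s u k ^ 2 * ∑ i, (∑ j, w u k j * Y i j) ^ 2 =
        ∑ i, ∑ a ∈ range q, (∑ j, W u a j * Y i j) ^ 2 := by
      simp only [mul_sum]
      rw [sum_comm]
      refine sum_congr rfl fun i _ => ?_
      rw [hS.nrm]
    rw [e7]
    linarith
  have h3 : ∑ u ∈ U, ∑ i, ∑ a ∈ range q, (∑ j, W u a j * Y i j) ^ 2 ≤ ∑ i, ∑ j, Y i j ^ 2 := by
    rw [sum_comm]
    exact sum_le_sum fun i _ => hW (Y i)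
  have h4 := sum_le_sum h2
  rw [← h1, sum_add_distrib, sum_const, nsmul_eq_mul, ← mul_sum] at h4
  linarith

end Pool.Agent.K6.H49.UGS
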